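import Pool.Agent.Work.MP_69fea5_lc.MT.Stmts

/-!
Block [69fea5 MT], item BHM: a half match from blocks.
-/

set_option autoImplicit false

namespace Pool.Agent.Work.MP_69fea5_lc.MT

namespace BHM_aux

/-- the binary support of a sum of numbers with increasing supports -/
theorem bs_sum_eq (hadd : ∀ u v, (∀ x ∈ bs u, ∀ y ∈ bs v, x < y) → bs (u + v) = bs u ∪ bs v)
    (r m : ℕ) (n : ℕ → ℕ) (h0 : ∀ i < r, ∀ x ∈ bs m, ∀ y ∈ bs (n i), x < y)
    (h1 : ∀ i j, i < j → j < r → ∀ x ∈ bs (n i), ∀ y ∈ bs (n j), x < y) (E : Finset ℕ) :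
    E ⊆ Finset.range r → bs (m + ∑ i ∈ E, n i) = bs m ∪ E.biUnion fun i => bs (n i) := by
  induction E using Finset.induction_on_max with
  | empty => intro _; simp
  | insert j E hj ih =>
    intro hE
    have hjr : j < r := Finset.mem_range.mp (hE (Finset.mem_insert_self j E))
    have hE' : E ⊆ Finset.range r := fun x hx => hE (Finset.mem_insert_of_mem hx)
    have hjE : j ∉ E := fun h => lt_irrefl j (hj j h)
    have e1 : m + ∑ i ∈ insert j E, n i = (m + ∑ i ∈ E, n i) + n j := by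
      rw [Finset.sum_insert hjE]
      omega
    have e2 : bs ((m + ∑ i ∈ E, n i) + n j) = bs (m + ∑ i ∈ E, n i) ∪ bs (n j) := by
      apply hadd
      intro x hx y hy
      rw [ih hE', Finset.mem_union, Finset.mem_biUnion] at hx
      rcases hx with hx | ⟨i, hi, hx⟩
      · exact h0 j hjr x hx y hy
      · exact h1 i j (hj i hi) hjr x hx y hy
    rw [e1, e2, ih hE', Finset.biUnion_insert, Finset.union_assoc,
      Finset.union_comm (E.biUnion fun i => bs (n i)) (bs (n j))]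

end BHM_aux

open BHM_aux in
/-- item BHM: a half match from blocks -/
theorem iBHM (hBS : S_BS) (hFL : S_FL) : S_BHM := by
  obtain ⟨hsum, hbss, hlt, hsmle, hsmsum, hsub, hdvd, hadd⟩ := hBS
  obtain ⟨hmono, hflle, hflm, hflr, hflH, hHi⟩ := hFL
  intro V a b u v r ha hv hvpos hblk hack hdiv hub hV
  obtain ⟨F, hF0, hF1, hF2⟩ := hblk
  have hvne : (bs v).Nonempty := by
    rw [Finset.nonempty_iff_ne_empty]
    intro h
    apply hv
    rw [← hsum v, h, Finset.sum_empty]
  have hbsne : ∀ m, m ≠ 0 → (bs m).Nonempty := by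
    intro m hm
    rw [Finset.nonempty_iff_ne_empty]
    intro h
    apply hm
    rw [← hsum m, h, Finset.sum_empty]
  obtain ⟨x0, hx0⟩ := hvne
  have hx0p := hvpos x0 hx0
  have hsmv : sm v ≠ 0 := by
    have h1 : x0 ≤ sm v := Finset.single_le_sum (f := fun x => x) (fun _ _ => Nat.zero_le _) hx0
    omega
  have hFle : ∀ i < r, ∑ z ∈ F (i + 1), z ≤ u := by
    intro i hi
    have h1 := (hF1 (i + 1) (by omega) (by omega)).2
    have h2 : ∑ z ∈ F (i + 1), z ≤ ∑ z ∈ bs u, z := Finset.sum_le_sum_of_subset h1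
    exact h2.trans (hsmle u)
  have hFne : ∀ i < r, ∑ z ∈ F (i + 1), z ≠ 0 := by
    intro i hi
    obtain ⟨y, hy⟩ := (hF1 (i + 1) (by omega) (by omega)).1
    have h1 : x0 < y := (hF2 0 (i + 1) (by omega) (by omega)).1 x0 (by rw [hF0]; exact hx0) y hy
    have h2 : y ≤ ∑ z ∈ F (i + 1), z :=
      Finset.single_le_sum (f := fun x => x) (fun _ _ => Nat.zero_le _) hy
    omega
  have hsm0 : ∑ z ∈ F 0, z = sm v := by rw [hF0]; rfl
  have hpb0 : ∀ i < r, ∀ x ∈ pb (sm v), ∀ y ∈ pb (∑ z ∈ F (i + 1), z), x < y := by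
    intro i hi x hx y hy
    exact (hF2 0 (i + 1) (by omega) (by omega)).2 x (by rw [hsm0]; exact hx) y hy
  have hpb1 : ∀ i j, i < j → j < r → ∀ x ∈ pb (∑ z ∈ F (i + 1), z),
      ∀ y ∈ pb (∑ z ∈ F (j + 1), z), x < y := by
    intro i j hij hj x hx y hy
    exact (hF2 (i + 1) (j + 1) (by omega) (by omega)).2 x hx y hy
  have hmem : ∀ m x, x ∈ bs m → fl x ∈ pb m := fun m x hx => Finset.mem_image_of_mem fl hx
  have hlow : ∀ y ∈ pb (sm v), H a ≤ y := by
    intro y hy
    obtain ⟨x, hx, rfl⟩ := Finset.mem_image.mp hy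
    have h1 := hdvd (H a) (sm v) hdiv x hx
    have h2 := hflm h1
    rwa [hflH] at h2
  have hin : ∀ m y, m ≤ u + v → y ∈ pb m → H a ≤ y → y ∈ (Finset.Ico a b).image H := by
    intro m y hm hy hy2
    obtain ⟨x, hx, rfl⟩ := Finset.mem_image.mp hy
    obtain ⟨k, hk⟩ := hflr x
    have h1 := hlt m x hx
    have h2 := hflle x
    rw [← hk] at hy2 h2 ⊢
    have h3 : a ≤ k := hmono.le_iff_le.mp hy2
    have h4 : k < b := hmono.lt_iff_lt.mp (by omega)
    exact Finset.mem_image_of_mem H (Finset.mem_Ico.mpr ⟨h3, h4⟩)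
  have hsmv2 := hsmle v
  have htne : (pb (sm v)).Nonempty := (hbsne _ hsmv).image fl
  obtain ⟨y0, hy0⟩ := htne
  refine ⟨pb (sm v), r, fun i => pb (∑ z ∈ F (i + 1), z), ⟨y0, hy0⟩, ?_, ?_, hpb0, hpb1, ?_, ?_⟩
  · intro y hy
    exact hin (sm v) y (by omega) hy (hlow y hy)
  · intro i hi
    refine ⟨(hbsne _ (hFne i hi)).image fl, ?_⟩
    intro y hy
    have h1 := hpb0 i hi y0 hy0 y hy
    have h2 := hlow y0 hy0
    have h3 := hFle i hi
    exact hin _ y (by omega) hy (by omega)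
  · intro x hx
    obtain ⟨x', hx', rfl⟩ := Finset.mem_image.mp hx
    have h1 := hlt _ x' hx'
    have h2 := hflle x'
    have h3 : fl x' ≤ sm v := by omega
    exact lt_of_le_of_lt (ack_le_ack h3 h3) hack
  · intro E hE hEne
    have hdis1 : Disjoint (bs v) (E.biUnion fun i => F (i + 1)) := by
      rw [Finset.disjoint_left]
      intro x hx hx2
      obtain ⟨i, hi, hx3⟩ := Finset.mem_biUnion.mp hx2
      have hir := Finset.mem_range.mp (hE hi)
      exact lt_irrefl x ((hF2 0 (i + 1) (by omega) (by omega)).1 x (by rw [hF0]; exact hx) x hx3)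
    have hdis2 : Set.PairwiseDisjoint (E : Set ℕ) (fun i => F (i + 1)) := by
      intro i hi j hj hij
      have hir := Finset.mem_range.mp (hE hi)
      have hjr := Finset.mem_range.mp (hE hj)
      refine Finset.disjoint_left.mpr ?_
      intro x hx hx2
      rcases lt_or_gt_of_ne hij with h | h
      · exact lt_irrefl x ((hF2 (i + 1) (j + 1) (by omega) (by omega)).1 x hx x hx2)
      · exact lt_irrefl x ((hF2 (j + 1) (i + 1) (by omega) (by omega)).1 x hx2 x hx)
    have hsm : sm (∑ x ∈ bs v ∪ E.biUnion (fun i => F (i + 1)), 2 ^ x) =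
        sm v + ∑ i ∈ E, ∑ z ∈ F (i + 1), z := by
      rw [hsmsum, Finset.sum_union hdis1, Finset.sum_biUnion hdis2]
      rfl
    have hbs : bs (sm v + ∑ i ∈ E, ∑ z ∈ F (i + 1), z) =
        bs (sm v) ∪ E.biUnion fun i => bs (∑ z ∈ F (i + 1), z) := by
      refine bs_sum_eq hadd r (sm v) (fun i => ∑ z ∈ F (i + 1), z) ?_ ?_ E hE
      · intro i hi x hx y hy
        have h1 := hpb0 i hi _ (hmem _ x hx) _ (hmem _ y hy)
        by_contra h2
        exact absurd (hflm (not_lt.mp h2)) (not_le.mpr h1)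
      · intro i j hij hj x hx y hy
        have h1 := hpb1 i j hij hj _ (hmem _ x hx) _ (hmem _ y hy)
        by_contra h2
        exact absurd (hflm (not_lt.mp h2)) (not_le.mpr h1)
    have hpb : pb (sm (∑ x ∈ bs v ∪ E.biUnion (fun i => F (i + 1)), 2 ^ x)) =
        pb (sm v) ∪ E.biUnion fun i => pb (∑ z ∈ F (i + 1), z) := by
      rw [hsm]
      unfold pb
      rw [hbs, Finset.image_union, Finset.biUnion_image]
    have hsub2 : bs v ∪ E.biUnion (fun i => F (i + 1)) ⊆ bs u ∪ bs v := by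
      intro x hx
      rcases Finset.mem_union.mp hx with h | h
      · exact Finset.mem_union_right _ h
      · obtain ⟨i, hi, hx3⟩ := Finset.mem_biUnion.mp h
        have hir := Finset.mem_range.mp (hE hi)
        exact Finset.mem_union_left _ ((hF1 (i + 1) (by omega) (by omega)).2 hx3)
    have hne : ∑ x ∈ bs v ∪ E.biUnion (fun i => F (i + 1)), 2 ^ x ≠ 0 := by
      have h1 : 2 ^ x0 ≤ ∑ x ∈ bs v ∪ E.biUnion (fun i => F (i + 1)), 2 ^ x :=
        Finset.single_le_sum (f := fun x => 2 ^ x) (fun _ _ => Nat.zero_le _)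
          (Finset.mem_union_left _ hx0)
      have h2 : 0 < 2 ^ x0 := Nat.pow_pos (by norm_num)
      omega
    have hle : ∑ x ∈ bs v ∪ E.biUnion (fun i => F (i + 1)), 2 ^ x ≤ u + v := by
      calc ∑ x ∈ bs v ∪ E.biUnion (fun i => F (i + 1)), 2 ^ x
          ≤ ∑ x ∈ bs u ∪ bs v, 2 ^ x := Finset.sum_le_sum_of_subset hsub2
        _ ≤ ∑ x ∈ bs u ∪ bs v, 2 ^ x + ∑ x ∈ bs u ∩ bs v, 2 ^ x := Nat.le_add_right _ _
        _ = ∑ x ∈ bs u, 2 ^ x + ∑ x ∈ bs v, 2 ^ x := Finset.sum_union_inter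
        _ = u + v := by rw [hsum, hsum]
    have h := hV _ hle hne (by rw [hbss]; exact hsub2)
    rw [hpb] at h
    exact h

end Pool.Agent.Work.MP_69fea5_lc.MT
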