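import Pool.Agent.Work.MP_69fea5_lc.MT.Stmts

/-!
Block [69fea5 MT], item BS: binary supports.
-/

set_option autoImplicit false

namespace Pool.Agent.Work.MP_69fea5_lc.MT

namespace BS_aux

theorem sum_bs (u : ℕ) : ∑ x ∈ bs u, 2 ^ x = u := by
  unfold bs
  exact Finset.sum_toFinset_bitIndices_two_pow u

theorem bs_sum (s : Finset ℕ) : bs (∑ x ∈ s, 2 ^ x) = s := by
  unfold bs
  exact Finset.toFinset_bitIndices_sum_two_pow s

theorem mem_lt {u x : ℕ} (hx : x ∈ bs u) : x < u := by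
  have h1 : 2 ^ x ≤ u := by
    rw [← sum_bs u]
    exact Finset.single_le_sum (f := fun x => 2 ^ x) (fun _ _ => Nat.zero_le _) hx
  exact lt_of_lt_of_le Nat.lt_two_pow_self h1

theorem sm_le (u : ℕ) : sm u ≤ u := by
  have h1 : sm u ≤ ∑ x ∈ bs u, 2 ^ x :=
    Finset.sum_le_sum fun x _ => Nat.lt_two_pow_self.le
  rwa [sum_bs] at h1

theorem sm_sum (s : Finset ℕ) : sm (∑ x ∈ s, 2 ^ x) = ∑ x ∈ s, x := by
  unfold sm
  rw [bs_sum]

theorem le_of_subset {u v : ℕ} (h : bs u ⊆ bs v) : u ≤ v := by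
  rw [← sum_bs u, ← sum_bs v]
  exact Finset.sum_le_sum_of_subset h

theorem bs_two_pow_mul (k m : ℕ) : ∀ x ∈ bs (2 ^ k * m), k ≤ x := by
  intro x hx
  unfold bs at hx
  rw [List.mem_toFinset, Nat.bitIndices_two_pow_mul, List.mem_map] at hx
  obtain ⟨y, -, rfl⟩ := hx
  omega

theorem bs_add {u v : ℕ} (h : ∀ x ∈ bs u, ∀ y ∈ bs v, x < y) : bs (u + v) = bs u ∪ bs v := by
  have hd : Disjoint (bs u) (bs v) := by
    rw [Finset.disjoint_left]
    intro x h1 h2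
    exact lt_irrefl x (h x h1 x h2)
  have e : u + v = ∑ x ∈ bs u ∪ bs v, 2 ^ x := by
    rw [Finset.sum_union hd, sum_bs, sum_bs]
  calc bs (u + v) = bs (∑ x ∈ bs u ∪ bs v, 2 ^ x) := congrArg bs e
    _ = bs u ∪ bs v := bs_sum _

end BS_aux

/-- item BS: binary supports -/
theorem iBS : S_BS :=
  ⟨BS_aux.sum_bs, BS_aux.bs_sum, fun _ _ hx => BS_aux.mem_lt hx, BS_aux.sm_le, BS_aux.sm_sum,
    fun _ _ h => BS_aux.le_of_subset h, fun k u h => by
      obtain ⟨m, rfl⟩ := h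
      exact BS_aux.bs_two_pow_mul k m, fun _ _ h => BS_aux.bs_add h⟩

end Pool.Agent.Work.MP_69fea5_lc.MT
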