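import Pool.Agent.Work.MP_69fea5_lc.MT.Stmts

/-!
Block [69fea5 MT], item BST: one more block.
-/

set_option autoImplicit false

namespace Pool.Agent.Work.MP_69fea5_lc.MT

/-- item BST: one more block -/
theorem iBST (hBS : S_BS) (hFL : S_FL) (hPIG : S_PIG) : S_BST := by
  obtain ⟨_, _, hlt, hsmle, _, _, hdvd, hadd⟩ := hBS
  obtain ⟨_, hflle, hflm, _, hflH, _⟩ := hFL
  intro u v r u' i hblk hi hcard hu'
  obtain ⟨F, hF0, hF1, hF2⟩ := hblk
  obtain ⟨B, hBu', hBne, hBd⟩ := hPIG (bs u') (H i) hcard
  have hbs : bs (u + u') = bs u ∪ bs u' := by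
    apply hadd
    intro x hx y hy
    have h1 := hlt u x hx
    have h2 := hu' y hy
    omega
  -- elements and sums of the old sets are at most `u + v`
  have hel : ∀ j ≤ r, ∀ x ∈ F j, x < u + v := by
    intro j hj x hx
    rcases Nat.eq_zero_or_pos j with h | h
    · subst h
      rw [hF0] at hx
      have h1 := hlt v x hx
      omega
    · have h1 := hlt u x ((hF1 j h hj).2 hx)
      omega
  have hsum : ∀ j ≤ r, ∑ z ∈ F j, z ≤ u + v := by
    intro j hj
    rcases Nat.eq_zero_or_pos j with h | h
    · subst h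
      rw [hF0]
      have h1 : ∑ z ∈ bs v, z ≤ v := hsmle v
      omega
    · have h1 : ∑ z ∈ F j, z ≤ ∑ z ∈ bs u, z := Finset.sum_le_sum_of_subset (hF1 j h hj).2
      have h2 : ∑ z ∈ bs u, z ≤ u := hsmle u
      omega
  refine ⟨fun j => if j ≤ r then F j else B, ?_, ?_, ?_⟩
  · simp only [Nat.zero_le, if_true]
    exact hF0
  · intro j h1 h2
    by_cases hj : j ≤ r
    · simp only [hj, if_true]
      refine ⟨(hF1 j h1 hj).1, ?_⟩
      rw [hbs]
      exact (hF1 j h1 hj).2.trans Finset.subset_union_left
    · simp only [hj, if_false]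
      refine ⟨hBne, ?_⟩
      rw [hbs]
      exact hBu'.trans Finset.subset_union_right
  · intro a b hab hb
    have ha : a ≤ r := by omega
    by_cases hbr : b ≤ r
    · simp only [ha, hbr, if_true]
      exact hF2 a b hab hbr
    · simp only [ha, hbr, if_true, if_false]
      refine ⟨?_, ?_⟩
      · intro x hx y hy
        have h1 := hel a ha x hx
        have h2 := hu' y (hBu' hy)
        omega
      · intro x hx y hy
        obtain ⟨x', hx', rfl⟩ := Finset.mem_image.mp hx
        obtain ⟨y', hy', rfl⟩ := Finset.mem_image.mp hy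
        have h1 := hlt _ x' hx'
        have h2 := hsum a ha
        have h3 := hflle x'
        have h4 := hflm (hdvd (H i) _ hBd y' hy')
        rw [hflH] at h4
        omega

end Pool.Agent.Work.MP_69fea5_lc.MT
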