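import Pool.Agent.Work.MP_69fea5_lc.MT.Stmts

/-!
Block [69fea5 MT], item CARD.
-/

set_option autoImplicit false

namespace Pool.Agent.Work.MP_69fea5_lc.MT

open Filter

namespace I_CARD

theorem rep_zero (F : CFrame) : ∀ᶠ j in (F.U : Filter F.J), F.toFrame.rep (0 : F.M) j = 0 :=
  F.toFrame.rep_el (F.toFrame.low_const 0)

theorem rep_one (F : CFrame) : ∀ᶠ j in (F.U : Filter F.J), F.toFrame.rep (1 : F.M) j = 1 :=
  F.toFrame.rep_el (F.toFrame.low_const 1)

theorem rm_iff (F : CFrame) (i : Sym) (x y z : F.M) : F.toFrame.RM i x y z ↔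
    ∀ᶠ j in (F.U : Filter F.J), stdR (F.V j) i (F.toFrame.rep x j) (F.toFrame.rep y j)
      (F.toFrame.rep z j) := by
  unfold Frame.RM
  refine eventually_congr (Eventually.of_forall fun j => ?_)
  rw [F.hR j]

theorem bs_zero (hBS : S_BS) : bs 0 = ∅ := by
  have h := hBS.2.1 ∅
  simpa using h

theorem bs_step (hBS : S_BS) (u x : ℕ) (h : ∀ y ∈ bs u, y < x) :
    bs (u + 2 ^ x) = insert x (bs u) := by
  have h1 : bs (2 ^ x) = {x} := by
    have h := hBS.2.1 {x}
    simpa using h
  have h2 : bs (u + 2 ^ x) = bs u ∪ bs (2 ^ x) := by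
    apply hBS.2.2.2.2.2.2.2 u (2 ^ x)
    intro y hy z hz
    rw [h1, Finset.mem_singleton] at hz
    rw [hz]
    exact h y hy
  rw [h2, h1, Finset.union_comm]
  rfl

end I_CARD

open I_CARD

theorem iCARD (hREL : S_REL) (hMOD : S_MOD) (hIND : S_IND) (hBS : S_BS) (hGEN : S_GEN) :
    S_CARD := by
  intro F X b r hX hunb
  have hY := hGEN F X .card b hX
  have key := hIND F.M F.toFrame.SS (hMOD F) _ hY ?_ ?_ r
  · exact key
  · refine ⟨0, ?_, ?_⟩
    · rw [rm_iff]
      filter_upwards [rep_zero F] with j hj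
      rw [hj]
      exact ⟨Nat.zero_le _, fun x hx => absurd hx (by rw [bs_zero hBS]; exact Finset.notMem_empty x)⟩
    · intro x hx
      rw [rm_iff] at hx
      have : ∀ᶠ j in (F.U : Filter F.J), False := by
        filter_upwards [rep_zero F, hx] with j hj hx
        rw [hj] at hx
        have hx' : F.toFrame.rep x j ∈ bs 0 := hx
        rw [bs_zero hBS] at hx'
        exact Finset.notMem_empty _ hx'
      exact (this.exists).elim fun _ h => h.elim
  · rintro r ⟨u, hu, hin⟩
    obtain ⟨x, hxX, hx⟩ := hunb (u + b)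
    have hx1 := (hREL Sym F.toFrame (u + b) x x).2.2.2.1.1 hx
    have hx2 := (hREL Sym F.toFrame u b (u + b)).1.1 rfl
    have hr := (hREL Sym F.toFrame r 1 (r + 1)).1.1 rfl
    set w : F.M := F.toFrame.el (fun j => F.toFrame.rep u j + 2 ^ F.toFrame.rep x j)
      (F.toFrame.low_add (F.toFrame.low_rep u) (F.toFrame.low_pow (F.toFrame.low_rep x))) with hw
    have hwr : ∀ᶠ j in (F.U : Filter F.J),
        F.toFrame.rep w j = F.toFrame.rep u j + 2 ^ F.toFrame.rep x j :=
      F.toFrame.rep_el _
    rw [rm_iff] at hu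
    have hbs : ∀ᶠ j in (F.U : Filter F.J),
        bs (F.toFrame.rep w j) = insert (F.toFrame.rep x j) (bs (F.toFrame.rep u j)) := by
      filter_upwards [hwr, hx1, hx2] with j h1 h2 h3
      rw [h1]
      apply bs_step hBS
      intro y hy
      have := hBS.2.2.1 _ y hy
      omega
    refine ⟨w, ?_, ?_⟩
    · rw [rm_iff]
      filter_upwards [hbs, hx1, hx2, hr, rep_one F, hu] with j h1 h2 h3 h4 h5 h6
      have h6' : F.toFrame.rep r j ≤ (bs (F.toFrame.rep u j)).card ∧
        ∀ y ∈ bs (F.toFrame.rep u j), F.toFrame.rep b j < y := h6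
      show F.toFrame.rep (r + 1) j ≤ (bs (F.toFrame.rep w j)).card ∧
        ∀ y ∈ bs (F.toFrame.rep w j), F.toFrame.rep b j < y
      have hnot : F.toFrame.rep x j ∉ bs (F.toFrame.rep u j) := by
        intro h
        have := hBS.2.2.1 _ _ h
        omega
      rw [h1, Finset.card_insert_of_notMem hnot]
      refine ⟨by omega, ?_⟩
      intro y hy
      rcases Finset.mem_insert.1 hy with rfl | hy
      · omega
      · exact h6'.2 y hy
    · intro y hy
      rw [rm_iff] at hy
      have hy2 : ∀ᶠ j in (F.U : Filter F.J), F.toFrame.rep y j = F.toFrame.rep x j ∨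
          F.toFrame.rep y j ∈ bs (F.toFrame.rep u j) := by
        filter_upwards [hbs, hy] with j h1 h2
        have h2' : F.toFrame.rep y j ∈ bs (F.toFrame.rep w j) := h2
        rw [h1] at h2'
        exact Finset.mem_insert.1 h2'
      rcases Ultrafilter.eventually_or.1 hy2 with h | h
      · have := (hREL Sym F.toFrame y x x).2.2.2.2.2 h
        rw [this]
        exact hxX
      · apply hin
        rw [rm_iff]
        exact h

end Pool.Agent.Work.MP_69fea5_lc.MT
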