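import Pool.Agent.Work.MP_69fea5_lc.MT.Stmts

/-!
Block [69fea5 MT], item CMP: arithmetical comprehension in the model of a coloured frame.
-/

set_option autoImplicit false

namespace Pool.Agent.Work.MP_69fea5_lc.MT

open Filter

namespace CMP_aux

theorem rm (F : CFrame) (i : Sym) (x y z : F.M) : F.toFrame.RM i x y z ↔
    ∀ᶠ j in (F.U : Filter F.J), stdR (F.V j) i (F.rep x j) (F.rep y j) (F.rep z j) := by
  unfold Frame.RM
  simp only [F.hR]

theorem congr {ι : Type} {F : Frame ι} {n : ℕ} {T T' : (Fin n → F.M) → Prop} (h : Rp F n T)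
    (e : ∀ v, T' v ↔ T v) : Rp F n T' := by
  obtain ⟨N, φ, σ, hσ⟩ := h
  exact ⟨N, φ, σ, fun v => (e v).trans (hσ v)⟩

theorem add (hREL : S_REL) (F : CFrame) (x y z : F.M) : x + y = z ↔ F.toFrame.RM .add x y z := by
  rw [rm]
  exact (hREL Sym F.toFrame x y z).1

theorem mul (hREL : S_REL) (F : CFrame) (x y z : F.M) : x * y = z ↔ F.toFrame.RM .mul x y z := by
  rw [rm]
  exact (hREL Sym F.toFrame x y z).2.1

theorem le (hREL : S_REL) (F : CFrame) (x y z : F.M) : x ≤ y ↔ F.toFrame.RM .le x y z := by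
  rw [rm]
  exact (hREL Sym F.toFrame x y z).2.2.1

end CMP_aux

theorem iCMP (hREL : S_REL) (hRPC : S_RPC) : S_CMP := by
  intro F n T h
  obtain ⟨r1, r2, r3, r4, r5, -⟩ := hRPC Sym F.toFrame
  induction h with
  | add a b c =>
    exact CMP_aux.congr (r1 _ .add (.inl a) (.inl b) (.inl c)) fun v => CMP_aux.add hREL F _ _ _
  | mul a b c =>
    exact CMP_aux.congr (r1 _ .mul (.inl a) (.inl b) (.inl c)) fun v => CMP_aux.mul hREL F _ _ _
  | le a b =>
    exact CMP_aux.congr (r1 _ .le (.inl a) (.inl b) (.inl b)) fun v => CMP_aux.le hREL F _ _ _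
  | const a x =>
    refine CMP_aux.congr (r3 _ _ _ (r1 _ .le (.inl a) (.inr x) (.inr x))
      (r1 _ .le (.inr x) (.inl a) (.inl a))) fun v => ?_
    rw [le_antisymm_iff]
    exact and_congr (CMP_aux.le hREL F _ _ _) (CMP_aux.le hREL F _ _ _)
  | mem a X hX => exact r5 _ a X hX
  | not R _ ih => exact r2 _ _ ih
  | and R T _ _ ih1 ih2 => exact r3 _ _ _ ih1 ih2
  | ex R _ ih => exact r4 _ _ ih

end Pool.Agent.Work.MP_69fea5_lc.MT
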