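import Pool.Agent.Work.MP_69fea5_lc.MT.Stmts

/-!
Block [69fea5 MT], item COL: the colouring is in the model.
-/

set_option autoImplicit false

namespace Pool.Agent.Work.MP_69fea5_lc.MT

open Filter

namespace COL_aux

theorem rep_c (F : CFrame) (x : F.M) :
    ∀ᶠ j in (F.U : Filter F.J), F.rep (F.c x) j = F.V j (pb (F.rep x j)) := by
  have h1 : ∀ᶠ j in (F.U : Filter F.J),
      F.rep (F.c x) j = min (F.V j (pb (F.rep x j))) (F.s 0 j) :=
    F.toFrame.rep_el _
  filter_upwards [h1, F.hks] with j h2 h3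
  rw [h2]
  exact min_eq_left ((F.hk j _).le.trans h3)

theorem low_k (F : CFrame) : F.toFrame.Low F.k :=
  F.toFrame.low_le (F.toFrame.low_s 0) F.hks

theorem rm_col (F : CFrame) (x y z : F.M) :
    F.toFrame.RM .col x y z ↔
      ∀ᶠ j in (F.U : Filter F.J), F.V j (pb (F.rep x j)) = F.rep y j := by
  unfold Frame.RM
  constructor
  · intro h
    filter_upwards [h] with j hj
    rw [F.hR j] at hj
    exact hj
  · intro h
    filter_upwards [h] with j hj
    rw [F.hR j]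
    exact hj

theorem c_iff (hREL : S_REL) (F : CFrame) (x y : F.M) :
    F.c x = y ↔ F.toFrame.RM .col x y y := by
  rw [rm_col, (hREL Sym F.toFrame (F.c x) y y).2.2.2.2]
  constructor
  · intro h
    filter_upwards [h, rep_c F x] with j h1 h2
    rw [← h1, h2]
  · intro h
    filter_upwards [h, rep_c F x] with j h1 h2
    rw [h2, h1]

theorem arith_pr (F : CFrame) :
    Arith F.toFrame.SS 3 fun v => ∃ s, ∃ p, (v 1 + v 0 = s ∧ (s * s = p ∧ p + v 1 = v 2)) := by
  have h := Arith.ex (SS := F.toFrame.SS) (n := 3) _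
    (Arith.ex (SS := F.toFrame.SS) (n := 4) _
      (Arith.and _ _ (Arith.add (3 : Fin 5) 2 1)
        (Arith.and _ _ (Arith.mul (1 : Fin 5) 1 0) (Arith.add (0 : Fin 5) 3 4))))
  exact h

theorem graph_mem (hREL : S_REL) (hRPC : S_RPC) (hCMP : S_CMP) (F : CFrame) :
    {x | ∃ n, x = pr n (F.c n)} ∈ F.toFrame.SS := by
  obtain ⟨r1, r2, r3, r4, r5, r6⟩ := hRPC Sym F.toFrame
  have hcol : Rp F.toFrame 3 fun v => F.toFrame.RM .col (v 1) (v 0) (v 0) :=
    r1 3 .col (Sum.inl 1) (Sum.inl 0) (Sum.inl 0)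
  have hpr := hCMP F 3 _ (arith_pr F)
  have h3 := r3 3 _ _ hcol hpr
  have h2 := r4 2 _ h3
  have h1 := r4 1 _ h2
  have h0 := r6 _ h1
  convert h0 using 1
  ext x
  simp only [Set.mem_ofPred_eq]
  constructor
  · rintro ⟨n, rfl⟩
    refine ⟨n, F.c n, ?_, n + F.c n, (n + F.c n) * (n + F.c n), rfl, rfl, rfl⟩
    exact (c_iff hREL F n (F.c n)).1 rfl
  · rintro ⟨n, y, hc, s, p, e1, e2, e3⟩
    have hc' : F.c n = y := (c_iff hREL F n y).2 hc
    refine ⟨n, ?_⟩
    change n + y = s at e1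
    change p + n = x at e3
    rw [hc', ← e3, ← e2, ← e1]
    rfl

end COL_aux

theorem iCOL (hREL : S_REL) (hRPC : S_RPC) (hCMP : S_CMP) : S_COL := by
  intro F
  refine ⟨COL_aux.c_iff hREL F, F.toFrame.el F.k (COL_aux.low_k F),
    ⟨COL_aux.graph_mem hREL hRPC hCMP F, ?_⟩, F.toFrame.rep_el _⟩
  intro n
  rw [(hREL Sym F.toFrame (F.c n) (F.toFrame.el F.k (COL_aux.low_k F)) (F.c n)).2.2.2.1]
  filter_upwards [COL_aux.rep_c F n, F.toFrame.rep_el (COL_aux.low_k F)] with j h1 h2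
  rw [h1, h2]
  exact F.hk j _

end Pool.Agent.Work.MP_69fea5_lc.MT
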