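import Pool.Agent.Work.MP_69fea5_lc.MT.Stmts

/-!
Block [69fea5 MT], item DIV: a nonempty finite subset of `X` with a sum divisible by `2 ^ k`.
-/

set_option autoImplicit false

namespace Pool.Agent.Work.MP_69fea5_lc.MT

open Filter

theorem DIV_aux.choice (hPIG : S_PIG) (A : Finset ℕ) (k : ℕ) : ∃ B : Finset ℕ, B ⊆ A ∧
    (2 ^ k ≤ A.card → B.Nonempty ∧ 2 ^ k ∣ ∑ x ∈ B, x) := by
  by_cases h : 2 ^ k ≤ A.card
  · obtain ⟨B, h1, h2, h3⟩ := hPIG A k h
    exact ⟨B, h1, fun _ => ⟨h2, h3⟩⟩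
  · exact ⟨∅, Finset.empty_subset _, fun h' => absurd h' h⟩

theorem iDIV (hBS : S_BS) (hPIG : S_PIG) (hCARD : S_CARD) : S_DIV := by
  intro F X k hX hunb
  obtain ⟨-, hbs, -, -, hsm, hle, -, -⟩ := hBS
  obtain ⟨u, hu, hIn⟩ := hCARD F X 0
    (F.toFrame.el (fun j => 2 ^ F.toFrame.rep k j) (F.toFrame.low_pow (F.toFrame.low_rep k)))
    hX hunb
  choose B hB1 hB2 using fun j => DIV_aux.choice hPIG (bs (F.toFrame.rep u j)) (F.toFrame.rep k j)
  have hlow : F.toFrame.Low fun j => ∑ x ∈ B j, 2 ^ x := by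
    refine F.toFrame.low_le (F.toFrame.low_rep u) (Eventually.of_forall fun j => ?_)
    refine hle _ _ ?_
    rw [hbs]
    exact hB1 j
  refine ⟨F.toFrame.el _ hlow, ?_, ?_⟩
  · intro x hx
    refine hIn x ?_
    have h1 := F.toFrame.rep_el hlow
    unfold Frame.RM at hx ⊢
    filter_upwards [hx, h1] with j h2 h3
    rw [F.hR j] at h2 ⊢
    have h4 : F.toFrame.rep x j ∈ bs (F.toFrame.rep (F.toFrame.el _ hlow) j) := h2
    rw [h3, hbs] at h4
    exact hB1 j h4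
  · have h1 := F.toFrame.rep_el hlow
    have h5 := F.toFrame.rep_el (F.toFrame.low_pow (F.toFrame.low_rep k))
    unfold Frame.RM at hu
    filter_upwards [hu, h1, h5] with j h2 h3 h6
    rw [F.hR j] at h2
    have h7 := h2.1
    rw [h6] at h7
    obtain ⟨⟨y, hy⟩, h9⟩ := hB2 j h7
    rw [h3, hsm]
    refine ⟨fun h0 => ?_, h9⟩
    have h10 : bs (∑ x ∈ B j, 2 ^ x) = B j := hbs _
    have h11 : y ∈ bs (∑ x ∈ B j, 2 ^ x) := by rw [h10]; exact hy
    rw [h0] at h11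
    have h12 := hbs ∅
    rw [Finset.sum_empty] at h12
    rw [h12] at h11
    exact absurd h11 (Finset.notMem_empty y)

end Pool.Agent.Work.MP_69fea5_lc.MT
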