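import Pool.Agent.Work.MP_69fea5_lc.MT.Stmts

/-!
Block [69fea5 MT], item FAIL: Hindman's theorem fails in the model of a coloured frame.
-/

set_option autoImplicit false

namespace Pool.Agent.Work.MP_69fea5_lc.MT

open Filter

namespace FAIL_aux

variable (F : CFrame)

theorem rm_iff (i : Sym) (x y z : F.M) :
    F.toFrame.RM i x y z ↔ ∀ᶠ j in (F.U : Filter F.J),
      stdR (F.V j) i (F.toFrame.rep x j) (F.toFrame.rep y j) (F.toFrame.rep z j) := by
  unfold Frame.RM
  simp only [F.hR]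

/-- the zero of the model -/
theorem rep_zero : ∀ᶠ j in (F.U : Filter F.J), F.toFrame.rep (0 : F.M) j = 0 := by
  have h : F.toFrame.el (fun _ => 0) (F.toFrame.low_const 0) = (0 : F.M) := rfl
  have := F.toFrame.rep_el (F.toFrame.low_const 0)
  rw [h] at this
  exact this

theorem rep_add (hREL : S_REL) (x y : F.M) : ∀ᶠ j in (F.U : Filter F.J),
    F.toFrame.rep x j + F.toFrame.rep y j = F.toFrame.rep (x + y) j :=
  (hREL Sym F.toFrame x y (x + y)).1.1 rfl

/-- a member of `In` for a set of positive elements has no digit `0` -/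
theorem zero_not_mem (hREL : S_REL) (X : Set F.M) (hpos : ∀ x ∈ X, 0 < x) (u : F.M)
    (hu : F.In u X) : ∀ᶠ j in (F.U : Filter F.J), 0 ∉ bs (F.toFrame.rep u j) := by
  by_contra hcon
  rw [← Ultrafilter.eventually_not] at hcon
  have h0 : F.toFrame.RM .bit u 0 0 := by
    rw [rm_iff]
    filter_upwards [hcon, rep_zero F] with j h1 h2
    show F.toFrame.rep 0 j ∈ bs (F.toFrame.rep u j)
    rw [h2]
    exact not_not.1 h1
  have h1 := hpos 0 (hu 0 h0)
  have h2 := ((hREL Sym F.toFrame 0 0 0).2.2.2.1).1 h1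
  obtain ⟨j, hj⟩ := h2.exists
  exact lt_irrefl _ hj

/-- the colour of the sum of the digits -/
theorem col_sm (hSGU : S_SGU) (hMOD : S_MOD) (hBS : S_BS) (hSG : S_SG) (hREL : S_REL)
    (hCOL : S_COL) (X G : Set F.M)
    (hX : X ∈ F.toFrame.SS) (hG : G ∈ F.toFrame.SS) (hsg : IsSumGraph X G) (i : F.M)
    (hi : ∀ k n, 0 < n → pr k n ∈ G → F.c n = i) (hpos : ∀ x ∈ X, 0 < x)
    (u : F.J → ℕ) (hu : F.toFrame.Low u) (hIn : F.In (F.toFrame.el u hu) X)
    (hne : ∀ᶠ j in (F.U : Filter F.J), u j ≠ 0) :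
    ∀ᶠ j in (F.U : Filter F.J), F.V j (pb (sm (u j))) = F.toFrame.rep i j := by
  obtain ⟨G', hG', hsg', hall⟩ := hSG F X hX
  have hlow : F.toFrame.Low fun j => sm (u j) :=
    F.toFrame.low_le hu (Eventually.of_forall fun j => hBS.2.2.2.1 (u j))
  have hsum : F.toFrame.RM .sumof (F.toFrame.el u hu) (F.toFrame.el _ hlow)
      (F.toFrame.el _ hlow) := by
    rw [rm_iff]
    filter_upwards [F.toFrame.rep_el hu, F.toFrame.rep_el hlow] with j h1 h2
    show sm (F.toFrame.rep (F.toFrame.el u hu) j) = F.toFrame.rep (F.toFrame.el _ hlow) j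
    rw [h1, h2]
  obtain ⟨k, hk⟩ := hall _ _ hIn hsum
  have hk' : pr k (F.toFrame.el _ hlow) ∈ G :=
    (hSGU F.M F.toFrame.SS (hMOD F) X G G' hG hG' hsg hsg' _ _).2 hk
  have hz := zero_not_mem F hREL X hpos _ hIn
  have hposn : (0 : F.M) < F.toFrame.el _ hlow := by
    refine ((hREL Sym F.toFrame 0 (F.toFrame.el _ hlow) 0).2.2.2.1).2 ?_
    filter_upwards [F.toFrame.rep_el hu, F.toFrame.rep_el hlow, rep_zero F, hz, hne]
      with j h1 h2 h3 h4 h5
    rw [h2, h3]
    rw [h1] at h4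
    have hbne : (bs (u j)).Nonempty := by
      by_contra hc
      rw [Finset.not_nonempty_iff_eq_empty] at hc
      have := hBS.1 (u j)
      rw [hc] at this
      exact h5 (by simpa using this.symm)
    obtain ⟨x, hx⟩ := hbne
    have hx0 : 0 < x := Nat.pos_of_ne_zero fun h => h4 (h ▸ hx)
    exact lt_of_lt_of_le hx0 (Finset.single_le_sum (f := fun x => x) (fun _ _ => Nat.zero_le _) hx)
  have hc := hi k _ hposn hk'
  have hc2 := ((hCOL F).1 _ _).1 hc
  rw [rm_iff] at hc2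
  filter_upwards [hc2, F.toFrame.rep_el hlow] with j h1 h2
  have h3 : F.V j (pb (F.toFrame.rep (F.toFrame.el _ hlow) j)) = F.toFrame.rep i j := h1
  rw [h2] at h3
  exact h3

end FAIL_aux

open FAIL_aux in
theorem iFAIL (hREL : S_REL) (hMOD : S_MOD) (hSGU : S_SGU) (hBS : S_BS) (hFL : S_FL)
    (hBHM : S_BHM) (hSEQ : S_SEQ) (hDIV : S_DIV) (hSG : S_SG) (hCOL : S_COL) : S_FAIL := by
  intro F X hsol
  obtain ⟨hX, hpos, hub, G, hG, hsg, i, hi⟩ := hsol
  -- the base `v`
  obtain ⟨v, hvX, hv⟩ := hDIV F X (F.toFrame.el (F.s 0) (F.toFrame.low_s 0)) hX hub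
  have hk0 := F.toFrame.rep_el (F.toFrame.low_s 0)
  have hlv := F.toFrame.low_rep v
  have hsmv : F.toFrame.Low fun j => sm (F.toFrame.rep v j) :=
    F.toFrame.low_le hlv (Eventually.of_forall fun j => hBS.2.2.2.1 _)
  have hlr : F.toFrame.Low fun j => ack (sm (F.toFrame.rep v j)) (sm (F.toFrame.rep v j)) + 1 :=
    F.toFrame.low_add (F.toFrame.low_ack hsmv) (F.toFrame.low_const 1)
  -- the blocks
  obtain ⟨u, hu, huX⟩ := hSEQ F X v (F.toFrame.el _ hlr) hX hub
  rw [rm_iff] at hu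
  have hlu := F.toFrame.low_rep u
  have hluv : F.toFrame.Low fun j => F.toFrame.rep u j + F.toFrame.rep v j :=
    F.toFrame.low_add hlu hlv
  obtain ⟨i0, hi0⟩ := hluv
  have hzv := zero_not_mem F hREL X hpos v hvX
  -- a bad sum at almost every `j`
  have hbad : ∀ᶠ j in (F.U : Filter F.J), ∃ u', u' ≤ F.toFrame.rep u j + F.toFrame.rep v j ∧
      u' ≠ 0 ∧ bs u' ⊆ bs (F.toFrame.rep u j) ∪ bs (F.toFrame.rep v j) ∧
      F.V j (pb (sm u')) ≠ F.V j (pb (sm (F.toFrame.rep v j))) := by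
    filter_upwards [hv, hk0, hu, F.toFrame.rep_el hlr, hi0, F.hS i0, F.hS 0, hzv]
      with j h1 h2 h3 h4 h5 h6 h7 h8
    by_contra hcon
    push Not at hcon
    obtain ⟨a, b, ha, hab⟩ := F.hSH j
    have hblk : Blk (F.toFrame.rep u j) (F.toFrame.rep v j)
        (F.toFrame.rep (F.toFrame.el _ hlr) j) := h3
    rw [h4] at hblk
    rw [h2] at h1
    rw [hab, Finset.mem_image] at h6 h7
    obtain ⟨c, hc, hcs⟩ := h6
    obtain ⟨c0, hc0, hcs0⟩ := h7
    rw [Finset.mem_Ico] at hc hc0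
    refine F.hV j ?_
    rw [hab]
    refine hBHM (F.V j) a b (F.toFrame.rep u j) (F.toFrame.rep v j)
      (ack (sm (F.toFrame.rep v j)) (sm (F.toFrame.rep v j)) + 1) ha h1.1
      (fun x hx => Nat.pos_of_ne_zero fun h => h8 (h ▸ hx)) hblk (Nat.lt_succ_self _) ?_ ?_ hcon
    · refine (Nat.pow_dvd_pow 2 ?_).trans h1.2
      rw [← hcs0]
      exact hFL.1.monotone hc0.1
    · refine lt_of_le_of_lt h5 ?_
      rw [← hcs]
      exact hFL.1 hc.2
  classical
  -- choose it
  let u' : F.J → ℕ := fun j => if h : ∃ u', u' ≤ F.toFrame.rep u j + F.toFrame.rep v j ∧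
      u' ≠ 0 ∧ bs u' ⊆ bs (F.toFrame.rep u j) ∪ bs (F.toFrame.rep v j) ∧
      F.V j (pb (sm u')) ≠ F.V j (pb (sm (F.toFrame.rep v j))) then Classical.choose h else 0
  have hu' : ∀ᶠ j in (F.U : Filter F.J), u' j ≤ F.toFrame.rep u j + F.toFrame.rep v j ∧
      u' j ≠ 0 ∧ bs (u' j) ⊆ bs (F.toFrame.rep u j) ∪ bs (F.toFrame.rep v j) ∧
      F.V j (pb (sm (u' j))) ≠ F.V j (pb (sm (F.toFrame.rep v j))) := by
    filter_upwards [hbad] with j hj
    have : u' j = Classical.choose hj := by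
      show (if h : _ then Classical.choose h else 0) = _
      rw [dif_pos hj]
    rw [this]
    exact Classical.choose_spec hj
  have hlu' : F.toFrame.Low u' :=
    F.toFrame.low_le (F.toFrame.low_add hlu hlv) (by filter_upwards [hu'] with j hj using hj.1)
  have hIn' : F.In (F.toFrame.el u' hlu') X := by
    intro x hx
    rw [rm_iff] at hx
    have hor : ∀ᶠ j in (F.U : Filter F.J), F.toFrame.rep x j ∈ bs (F.toFrame.rep u j) ∨
        F.toFrame.rep x j ∈ bs (F.toFrame.rep v j) := by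
      filter_upwards [hx, hu', F.toFrame.rep_el hlu'] with j h1 h2 h3
      have h4 : F.toFrame.rep x j ∈ bs (F.toFrame.rep (F.toFrame.el u' hlu') j) := h1
      rw [h3] at h4
      exact Finset.mem_union.1 (h2.2.2.1 h4)
    rcases Ultrafilter.eventually_or.1 hor with h | h
    · exact huX x ((rm_iff F _ _ _ _).2 h)
    · exact hvX x ((rm_iff F _ _ _ _).2 h)
  have hc1 := col_sm F hSGU hMOD hBS hSG hREL hCOL X G hX hG hsg i hi hpos u' hlu' hIn'
    (by filter_upwards [hu'] with j hj using hj.2.1)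
  have hvel : F.toFrame.el (F.toFrame.rep v) hlv = v := F.toFrame.el_rep v
  have hc2 := col_sm F hSGU hMOD hBS hSG hREL hCOL X G hX hG hsg i hi hpos (F.toFrame.rep v) hlv
    (by rw [hvel]; exact hvX) (by filter_upwards [hv] with j hj using hj.1)
  obtain ⟨j, h1, h2, h3⟩ := (hu'.and (hc1.and hc2)).exists
  exact h1.2.2.2 (h2.trans h3.symm)

end Pool.Agent.Work.MP_69fea5_lc.MT
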