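import Pool.Agent.Work.MP_69fea5_lc.MT.Stmts

/-!
Block [69fea5 MT], item FL: the floor in `H`.
-/

set_option autoImplicit false

namespace Pool.Agent.Work.MP_69fea5_lc.MT

namespace FL_aux

theorem lt_Fs (x : ℕ) : x < Fs x := by
  have h := fs_add x
  omega

theorem id_le_H : ∀ i : ℕ, i ≤ H i
  | 0 => Nat.zero_le _
  | i + 1 => by
    have h1 := id_le_H i
    have h2 : H i < H (i + 1) := by
      show H i < Fs (H i)
      exact lt_Fs _
    omega

theorem H_lt_succ (i : ℕ) : H i < H (i + 1) := by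
  show H i < Fs (H i)
  exact lt_Fs _

theorem H_mono : StrictMono H := strictMono_nat_of_lt_succ H_lt_succ

theorem H_zero : H 0 = 0 := rfl

theorem fl_le (x : ℕ) : fl x ≤ x := by
  unfold fl
  exact Nat.findGreatest_spec (P := fun m => H m ≤ x) (m := 0) (Nat.zero_le x)
    (by rw [H_zero]; exact Nat.zero_le x)

theorem le_fg {x i : ℕ} (h : H i ≤ x) : i ≤ Nat.findGreatest (fun m => H m ≤ x) x :=
  Nat.le_findGreatest ((id_le_H i).trans h) h

theorem fl_H (i : ℕ) : fl (H i) = H i := by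
  apply le_antisymm (fl_le _)
  unfold fl
  exact H_mono.monotone (le_fg le_rfl)

theorem fl_mono : Monotone fl := by
  intro x y hxy
  have h1 := fl_le x
  unfold fl at h1 ⊢
  exact H_mono.monotone (le_fg (h1.trans hxy))

end FL_aux

open FL_aux in
theorem iFL : S_FL :=
  ⟨H_mono, fl_le, fl_mono, fun _ => ⟨_, rfl⟩, fl_H, id_le_H⟩

end Pool.Agent.Work.MP_69fea5_lc.MT
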