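import Pool.Agent.Work.MP_69fea5_lc.MT.Stmts

/-!
Block [69fea5 MT], item GEN: definability for the inductions.
-/

set_option autoImplicit false

namespace Pool.Agent.Work.MP_69fea5_lc.MT

theorem iGEN (hRPC : S_RPC) : S_GEN := by
  intro F X i p hX
  obtain ⟨hrel, hnot, hand, hex, hmem, hset⟩ := hRPC Sym F.toFrame
  have h1 := hrel 3 Sym.bit (Sum.inl 1) (Sum.inl 0) (Sum.inl 0)
  have h2 := hnot 3 _ (hmem 3 0 X hX)
  have h3 := hex 2 _ (hand 3 _ _ h1 h2)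
  have h4 := hnot 2 _ h3
  have h5 := hrel 2 i (Sum.inl 0) (Sum.inr p) (Sum.inl 1)
  have h6 := hex 1 _ (hand 2 _ _ h5 h4)
  have h7 := hset _ h6
  refine (iff_of_eq (congrArg (fun Y => Y ∈ F.toFrame.SS) ?_)).mp h7
  ext r
  simp only [Set.mem_ofPred_eq, Sum.elim_inl, Sum.elim_inr, id, CFrame.In]
  constructor
  · rintro ⟨u, hu1, hu2⟩
    refine ⟨u, hu1, fun x hx => ?_⟩
    by_contra hc
    exact hu2 ⟨x, hx, hc⟩
  · rintro ⟨u, hu1, hu2⟩
    refine ⟨u, hu1, ?_⟩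
    rintro ⟨x, hx, hc⟩
    exact hc (hu2 x hx)

end Pool.Agent.Work.MP_69fea5_lc.MT
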