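import Pool.Agent.Work.MP_69fea5_lc.MT.Stmts

/-!
Block [69fea5 MT], item GRD: an interval of `H` which is small, but becomes large with one more
element.
-/

set_option autoImplicit false

namespace Pool.Agent.Work.MP_69fea5_lc.MT

namespace GRD_aux

theorem H_lt_succ (i : ℕ) : H i < H (i + 1) := by
  show H i < Fs (H i)
  have := fs_add (H i)
  omega

theorem H_mono : StrictMono H := strictMono_nat_of_lt_succ H_lt_succ

/-- the next interval -/
theorem ico_succ {m N : ℕ} (h : m ≤ N) : (Finset.Ico m (N + 1)).image H =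
    insert (H N) ((Finset.Ico m N).image H) := by
  rw [← Finset.image_insert]
  congr 1
  ext x
  simp only [Finset.mem_Ico, Finset.mem_insert]
  omega

theorem lt_H {m N : ℕ} (q : ℕ) (hq : q ∈ (Finset.Ico m N).image H) : q < H N := by
  obtain ⟨i, hi, rfl⟩ := Finset.mem_image.1 hq
  exact H_mono (Finset.mem_Ico.1 hi).2

end GRD_aux

theorem iGRD (hLAB : S_LAB) : S_GRD := by
  intro L hL m
  by_contra hc
  push Not at hc
  have hs : ∀ i, Small L ((Finset.Ico m (m + i)).image H) := by
    intro i
    induction i with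
    | zero =>
      obtain ⟨a⟩ := hL.ne
      refine ⟨fun _ => a, ?_, ?_⟩
      · intro x hx
        simp at hx
      · intro x hx
        simp at hx
    | succ i ih => exact hc (m + i) (Nat.le_add_right m i) ih
  obtain ⟨lab, hlab⟩ := hLAB L hL
  have hstep : ∀ i, lab ((Finset.Ico m (m + (i + 1) + 1)).image H) <
      lab ((Finset.Ico m (m + i + 1)).image H) := by
    intro i
    have e := GRD_aux.ico_succ (Nat.le_add_right m (i + 1))
    rw [e]
    refine (hlab ((Finset.Ico m (m + (i + 1))).image H) (H (m + (i + 1)))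
      (fun q hq => GRD_aux.lt_H q hq) ?_).2 ?_
    · rw [← e]
      exact hs (i + 1 + 1)
    · exact ⟨H m, Finset.mem_image.2 ⟨m, Finset.mem_Ico.2 ⟨le_rfl, by omega⟩, rfl⟩⟩
  have hwf : WellFounded (fun x y : L.α => x < y) := hL.wf
  obtain ⟨a, ⟨i, rfl⟩, hmin⟩ := hwf.has_min
    (Set.range fun i => lab ((Finset.Ico m (m + i + 1)).image H)) (Set.range_nonempty _)
  exact hmin _ ⟨i + 1, rfl⟩ (hstep i)

end Pool.Agent.Work.MP_69fea5_lc.MT
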