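import Pool.Agent.Work.MP_69fea5_lc.MT.Stmts

/-!
Block [69fea5 MT], item IND: induction in a model of `ACA_0`.
-/

set_option autoImplicit false

namespace Pool.Agent.Work.MP_69fea5_lc.MT

theorem iIND : S_IND := by
  intro M _ _ SS hM X hX h0 h1 x
  by_contra hx
  have hO := hM.ordered
  have hc : Xᶜ ∈ SS := by
    have h := hM.comprehension (fun v => ¬ (v 0 ∈ X))
      (Arith.not (fun v => v 0 ∈ X) (Arith.mem 0 X hX))
    exact h
  obtain ⟨y, hy, hmin⟩ := hM.least Xᶜ hc ⟨x, hx⟩
  have hy0 : (0 : M) < y := by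
    refine lt_of_le_of_ne (hM.zero_le y) ?_
    intro h
    exact hy (h ▸ h0)
  obtain ⟨z, hz⟩ := hM.sub 1 y (hM.one_le y hy0)
  have hzy : z < y := by
    rw [← hz]
    have h01 : (0 : M) < 1 := zero_lt_one
    calc z = 0 + z := (zero_add z).symm
      _ < 1 + z := by
        have := add_lt_add_left h01 z
        simpa [add_comm] using this
  have hzX : z ∈ X := by
    by_contra hzn
    exact absurd (hmin z hzn) (not_le.2 hzy)
  have := h1 z hzX
  rw [add_comm, hz] at this
  exact hy this

end Pool.Agent.Work.MP_69fea5_lc.MT
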