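import Pool.Agent.Work.MP_69fea5_lc.MT.Defs

/-!
Block [69fea5 MT]: THE KEY LEMMA (one exponential per quantifier).
If `S` is `ω ^ L`-large and every `a ∈ S` has at most `a - 1` cut points, then some `L`-large subset
`S'` has, for all `a < b < c` in `S'`, no cut point of `a` in `[b, c)`.
-/

set_option autoImplicit false

namespace Pool.Agent.Work.MP_69fea5_lc.MT.KL

open Finset

/-- no cut point of an element of the list lies between its successor and `s` -/
def Cc (cut : ℕ → Finset ℕ) (s : ℕ) : List ℕ → Prop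
  | [] => True
  | [_] => True
  | a :: b :: l => (∀ v ∈ cut a, ¬ (b ≤ v ∧ v < s)) ∧ Cc cut s (b :: l)

open Classical in
/-- the longest initial part that satisfies `Cc` -/
noncomputable def pre (cut : ℕ → Finset ℕ) (s : ℕ) : List ℕ → List ℕ
  | [] => []
  | [a] => [a]
  | a :: b :: l => if ∃ v ∈ cut a, b ≤ v ∧ v < s then [a] else a :: pre cut s (b :: l)

/-- push a new element -/
noncomputable def push (cut : ℕ → Finset ℕ) (s : ℕ) (l : List ℕ) : List ℕ := pre cut s l ++ [s]

theorem Cc_pre (cut : ℕ → Finset ℕ) (s : ℕ) : ∀ l, Cc cut s (pre cut s l)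
  | [] => trivial
  | [_] => trivial
  | a :: b :: l => by
    have ih := Cc_pre cut s (b :: l)
    unfold pre
    split_ifs with h
    · trivial
    · push Not at h
      match l, ih with
      | [], ih => 
        unfold pre
        exact ⟨fun v hv h' => absurd (h v hv h'.1) (by omega), trivial⟩
      | c :: l', ih =>
        unfold pre at ih ⊢
        split_ifs at ih ⊢ with h2
        · exact ⟨fun v hv h' => absurd (h v hv h'.1) (by omega), trivial⟩
        · exact ⟨fun v hv h' => absurd (h v hv h'.1) (by omega), ih⟩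

theorem Cc_append (cut : ℕ → Finset ℕ) (s : ℕ) : ∀ l, Cc cut s l → Cc cut s (l ++ [s])
  | [], _ => trivial
  | [_], _ => ⟨fun v _ h => by omega, trivial⟩
  | _ :: b :: l, h => ⟨h.1, Cc_append cut s (b :: l) h.2⟩

theorem Cc_mono (cut : ℕ → Finset ℕ) {s s' : ℕ} (hs : s' ≤ s) : ∀ l, Cc cut s l → Cc cut s' l
  | [], _ => trivial
  | [_], _ => trivial
  | _ :: b :: l, h => ⟨fun v hv h' => h.1 v hv ⟨h'.1, by omega⟩, Cc_mono cut hs (b :: l) h.2⟩

theorem Cc_prefix (cut : ℕ → Finset ℕ) (s : ℕ) : ∀ l m, Cc cut s (l ++ m) → Cc cut s l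
  | [], _, _ => trivial
  | [_], _, _ => trivial
  | _ :: b :: l, m, h => ⟨h.1, Cc_prefix cut s (b :: l) m h.2⟩

theorem pre_prefix (cut : ℕ → Finset ℕ) (s : ℕ) : ∀ l, pre cut s l <+: l
  | [] => List.prefix_rfl
  | [_] => List.prefix_rfl
  | a :: b :: l => by
    have ih := pre_prefix cut s (b :: l)
    unfold pre
    split_ifs with h
    · exact ⟨b :: l, rfl⟩
    · obtain ⟨m, hm⟩ := ih
      exact ⟨m, by rw [List.cons_append, hm]⟩

theorem pf_of_Cc (cut : ℕ → Finset ℕ) (s : ℕ) : ∀ l : List ℕ, l.Pairwise (· < ·) → Cc cut s l →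
    (∀ x ∈ l, x ≤ s) → ∀ a ∈ l, ∀ b ∈ l, ∀ c ∈ l, a < b → b < c → ∀ v ∈ cut a, ¬ (b ≤ v ∧ v < c)
  | [], _, _, _ => by simp
  | [x], _, _, _ => by
    intro a ha b hb c hc hab
    simp only [List.mem_singleton] at ha hb
    omega
  | x :: y :: l, hp, hC, hs => by
    intro a ha b hb c hc hab hbc v hv hvb
    have hp' := List.pairwise_cons.1 hp
    have hb' : b ∈ y :: l := by
      rcases List.mem_cons.1 hb with h | h
      · subst h
        rcases List.mem_cons.1 ha with h | h
        · omega
        · have := hp'.1 a h; omega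
      · exact h
    have hc' : c ∈ y :: l := by
      rcases List.mem_cons.1 hc with h | h
      · subst h
        have := hp'.1 b hb'
        omega
      · exact h
    rcases List.mem_cons.1 ha with h | h
    · subst h
      have hyb : y ≤ b := by
        rcases List.mem_cons.1 hb' with h | h
        · omega
        · exact ((List.pairwise_cons.1 hp'.2).1 b h).le
      exact hC.1 v hv ⟨by omega, lt_of_lt_of_le hvb.2 (hs c hc)⟩
    · exact pf_of_Cc cut s (y :: l) hp'.2 hC.2 (fun z hz => hs z (List.mem_cons_of_mem _ hz)) a h b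
        hb' c hc' hab hbc v hv hvb

section Val

variable {α : Type} [LinearOrder α] (lab : List ℕ → α) (cut : ℕ → Finset ℕ)

/-- the ordinal of a stack -/
noncomputable def val : List ℕ → List ℕ → (α →₀ ℕ)
  | _, [] => 0
  | p, [a] => Finsupp.single (lab (p ++ [a])) ((cut a).card + 1)
  | p, a :: b :: l => Finsupp.single (lab (p ++ [a])) ((cut a).filter (b ≤ ·)).card +
      val (p ++ [a]) (b :: l)

/-- the labels decrease along the stack `p ++ l` (inside `l`) -/
def Dec : List ℕ → List ℕ → Prop
  | _, [] => True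
  | _, [_] => True
  | p, a :: b :: l => lab (p ++ [a] ++ [b]) < lab (p ++ [a]) ∧ Dec (p ++ [a]) (b :: l)

theorem val_zero : ∀ (l p : List ℕ) (a : ℕ), Dec lab p (a :: l) → ∀ x, lab (p ++ [a]) < x →
    val lab cut p (a :: l) x = 0
  | [], p, a, _, x, hx => by
    simp only [val]
    exact Finsupp.single_eq_of_ne hx.ne'
  | b :: l, p, a, h, x, hx => by
    simp only [val, Finsupp.add_apply]
    rw [Finsupp.single_eq_of_ne hx.ne', val_zero l (p ++ [a]) b h.2 x (h.1.trans hx)]

theorem val_le (M : ℕ) : ∀ (l p : List ℕ) (a : ℕ), Dec lab p (a :: l) →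
    (∀ x ∈ a :: l, (cut x).card + 1 ≤ M) → ∀ x, val lab cut p (a :: l) x ≤ M
  | [], p, a, _, hM, x => by
    simp only [val]
    rw [Finsupp.single_apply]
    split_ifs
    · exact hM a (by simp)
    · exact Nat.zero_le _
  | b :: l, p, a, h, hM, x => by
    simp only [val, Finsupp.add_apply]
    by_cases hx : lab (p ++ [a]) = x
    · subst hx
      rw [Finsupp.single_eq_same, val_zero lab cut l (p ++ [a]) b h.2 _ h.1, add_zero]
      exact le_trans (card_le_card (filter_subset _ _)) (le_trans (Nat.le_succ _) (hM a (by simp)))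
    · rw [Finsupp.single_eq_of_ne (Ne.symm hx), zero_add]
      exact val_le M l (p ++ [a]) b h.2 (fun y hy => hM y (List.mem_cons_of_mem _ hy)) x

theorem val_supp : ∀ (l p : List ℕ) (x : α), val lab cut p l x ≠ 0 →
    ∃ q a m, l = q ++ a :: m ∧ x = lab (p ++ q ++ [a])
  | [], p, x, h => by simp [val] at h
  | [a], p, x, h => by
    simp only [val] at h
    rw [Finsupp.single_apply] at h
    split_ifs at h with h'
    · exact ⟨[], a, [], rfl, by simp [h'.symm]⟩
    · exact absurd rfl h
  | a :: b :: l, p, x, h => by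
    simp only [val, Finsupp.add_apply] at h
    by_cases h' : lab (p ++ [a]) = x
    · exact ⟨[], a, b :: l, rfl, by simp [h'.symm]⟩
    · rw [Finsupp.single_eq_of_ne (Ne.symm h'), zero_add] at h
      obtain ⟨q, c, m, h1, h2⟩ := val_supp (b :: l) (p ++ [a]) x h
      exact ⟨a :: q, c, m, by rw [h1]; rfl, by rw [h2]; simp⟩

theorem val_push (s : ℕ) : ∀ (l p : List ℕ) (a : ℕ), Dec lab p (a :: l) →
    Dec lab p (push cut s (a :: l)) →
    toColex (val lab cut p (push cut s (a :: l))) < toColex (val lab cut p (a :: l))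
  | [], p, a, _, h2 => by
    have e : push cut s [a] = [a, s] := by simp [push, pre]
    rw [e] at h2 ⊢
    rw [Finsupp.Colex.lt_iff]
    refine ⟨lab (p ++ [a]), ?_, ?_⟩
    · intro j hj
      simp only [ofColex_toColex, val, Finsupp.add_apply]
      rw [Finsupp.single_eq_of_ne hj.ne', Finsupp.single_eq_of_ne (h2.1.trans hj).ne',
        Finsupp.single_eq_of_ne hj.ne', add_zero]
    · simp only [ofColex_toColex, val, Finsupp.add_apply]
      rw [Finsupp.single_eq_same, Finsupp.single_eq_of_ne h2.1.ne', Finsupp.single_eq_same,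
        add_zero]
      exact Nat.lt_succ_of_le (card_le_card (filter_subset _ _))
  | b :: l, p, a, h1, h2 => by
    by_cases hb : ∃ v ∈ cut a, b ≤ v ∧ v < s
    · have e : push cut s (a :: b :: l) = [a, s] := by
        simp only [push, pre]
        rw [if_pos hb]
        rfl
      rw [e] at h2 ⊢
      rw [Finsupp.Colex.lt_iff]
      refine ⟨lab (p ++ [a]), ?_, ?_⟩
      · intro j hj
        simp only [ofColex_toColex, val, Finsupp.add_apply]
        rw [Finsupp.single_eq_of_ne hj.ne', Finsupp.single_eq_of_ne (h2.1.trans hj).ne',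
          Finsupp.single_eq_of_ne hj.ne', val_zero lab cut l (p ++ [a]) b h1.2 _ (h1.1.trans hj)]
      · simp only [ofColex_toColex, val, Finsupp.add_apply]
        rw [Finsupp.single_eq_same, Finsupp.single_eq_of_ne h2.1.ne', Finsupp.single_eq_same,
          val_zero lab cut l (p ++ [a]) b h1.2 _ h1.1, add_zero, add_zero]
        obtain ⟨v, hv, hv1, hv2⟩ := hb
        refine card_lt_card ⟨?_, ?_⟩
        · intro x hx
          rw [mem_filter] at hx ⊢
          exact ⟨hx.1, by omega⟩
        · intro hss
          have := hss (mem_filter.2 ⟨hv, hv1⟩)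
          rw [mem_filter] at this
          omega
    · have e : push cut s (a :: b :: l) = a :: push cut s (b :: l) := by
        simp only [push, pre]
        rw [if_neg hb]
        rfl
      rw [e] at h2 ⊢
      -- `push cut s (b :: l)` starts with `b`
      have hbl : ∃ m, push cut s (b :: l) = b :: m := by
        cases l with
        | nil => exact ⟨[s], by simp [push, pre]⟩
        | cons c l' =>
          simp only [push, pre]
          split_ifs
          · exact ⟨[s], rfl⟩
          · exact ⟨_, rfl⟩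
      obtain ⟨m, hm⟩ := hbl
      have ih := val_push s l (p ++ [a]) b h1.2 (by rw [hm] at h2 ⊢; exact h2.2)
      rw [hm] at ih ⊢
      simp only [val]
      rw [toColex_add, toColex_add]
      exact (add_lt_add_iff_left _).2 ih

end Val

/-- a valid map on a finite set -/
def Valid (L : NLO) (Q : Finset ℕ) (o : ℕ → L.α) : Prop :=
  (∀ x ∈ Q, ∀ y ∈ Q, x < y → o y < o x) ∧ ∀ x ∈ Q, L.norm (o x) ≤ x

theorem exists_greatest (L : NLO) (hL : L.Good) (Q : Finset ℕ) (m : ℕ) (hm : m ∈ Q)
    (h : Small L Q) : ∃ a, IsGreatest {a | ∃ o, Valid L Q o ∧ o m = a} a := by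
  have hf : {a | ∃ o, Valid L Q o ∧ o m = a}.Finite := by
    refine (hL.fin m).subset ?_
    rintro a ⟨o, ho, rfl⟩
    exact ho.2 m hm
  have hn : {a | ∃ o, Valid L Q o ∧ o m = a}.Nonempty := by
    obtain ⟨o, ho⟩ := h
    exact ⟨o m, o, ho, rfl⟩
  obtain ⟨a, ha⟩ := hf.exists_maximal hn
  refine ⟨a, ha.1, fun b hb => ?_⟩
  rcases le_total b a with h | h
  · exact h
  · exact ha.2 hb h

/-- a good stack: nonempty, strictly increasing, in `S`, `Cc` up to its last element `s` -/
structure GoodL (S : Finset ℕ) (cut : ℕ → Finset ℕ) (s : ℕ) (q : List ℕ) : Prop where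
  sorted : q.Pairwise (· < ·)
  mem : ∀ x ∈ q, x ∈ S
  lst : s ∈ q
  le : ∀ x ∈ q, x ≤ s
  cl : Cc cut s q

theorem GoodL.unique {S : Finset ℕ} {cut : ℕ → Finset ℕ} {s s' : ℕ} {q : List ℕ}
    (h : GoodL S cut s q) (h' : GoodL S cut s' q) : s = s' :=
  le_antisymm (h'.le s h.lst) (h.le s' h'.lst)

section Lab

variable (L : NLO) (S : Finset ℕ) (cut : ℕ → Finset ℕ)

theorem exists_lab (hL : L.Good)
    (H : ∀ S' ⊆ S, (∀ a ∈ S', ∀ b ∈ S', ∀ c ∈ S', a < b → b < c → ∀ v ∈ cut a, ¬ (b ≤ v ∧ v < c)) →
      Small L S') :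
    ∃ lab : List ℕ → L.α, ∀ q s, GoodL S cut s q →
      IsGreatest {a | ∃ o, Valid L q.toFinset o ∧ o s = a} (lab q) := by
  have key : ∀ q : List ℕ, ∃ a : L.α, ∀ s, GoodL S cut s q →
      IsGreatest {a | ∃ o, Valid L q.toFinset o ∧ o s = a} a := by
    intro q
    by_cases h : ∃ s, GoodL S cut s q
    · obtain ⟨s, hs⟩ := h
      have hsm : Small L q.toFinset := by
        refine H _ (fun x hx => hs.mem x (List.mem_toFinset.1 hx)) ?_
        intro a ha b hb c hc
        exact pf_of_Cc cut s q hs.sorted hs.cl hs.le a (List.mem_toFinset.1 ha) b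
          (List.mem_toFinset.1 hb) c (List.mem_toFinset.1 hc)
      obtain ⟨a, ha⟩ := exists_greatest L hL q.toFinset s (List.mem_toFinset.2 hs.lst) hsm
      exact ⟨a, fun s' hs' => by rw [← hs.unique hs']; exact ha⟩
    · obtain ⟨a⟩ := hL.ne
      exact ⟨a, fun s hs => absurd ⟨s, hs⟩ h⟩
  choose lab hlab using key
  exact ⟨lab, hlab⟩

variable {L S cut} {lab : List ℕ → L.α}
  (hlab : ∀ q s, GoodL S cut s q → IsGreatest {a | ∃ o, Valid L q.toFinset o ∧ o s = a} (lab q))

include hlab

theorem norm_lab {q : List ℕ} {s : ℕ} (h : GoodL S cut s q) : L.norm (lab q) ≤ s := by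
  obtain ⟨o, ho, he⟩ := (hlab q s h).1
  rw [← he]
  exact ho.2 s (List.mem_toFinset.2 h.lst)

theorem lab_lt {q : List ℕ} {s x : ℕ} (h : GoodL S cut s q) (h' : GoodL S cut x (q ++ [x])) :
    lab (q ++ [x]) < lab q := by
  obtain ⟨o, ho, he⟩ := (hlab _ x h').1
  have hsx : s < x := by
    have := (List.pairwise_append.1 h'.sorted).2.2 s h.lst x (by simp)
    exact this
  have h1 : o x < o s := ho.1 s (by simp [h.lst]) x (by simp) hsx
  have h2 : o s ≤ lab q := by
    refine (hlab q s h).2 ⟨o, ⟨?_, ?_⟩, rfl⟩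
    · intro y hy z hz
      rw [List.mem_toFinset] at hy hz
      exact ho.1 y (by simp [hy]) z (by simp [hz])
    · intro y hy
      rw [List.mem_toFinset] at hy
      exact ho.2 y (by simp [hy])
  rw [← he]
  exact lt_of_lt_of_le h1 h2

end Lab

/-- nonempty prefixes of good stacks are good -/
theorem GoodL.initial {S : Finset ℕ} {cut : ℕ → Finset ℕ} {s a : ℕ} {q m : List ℕ}
    (h : GoodL S cut s (q ++ a :: m)) : GoodL S cut a (q ++ [a]) where
  sorted := by
    have e : q ++ a :: m = (q ++ [a]) ++ m := by simp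
    have := h.sorted
    rw [e] at this
    exact (List.pairwise_append.1 this).1
  mem := fun x hx => h.mem x (by
    simp only [List.mem_append, List.mem_cons, List.not_mem_nil, or_false] at hx ⊢
    tauto)
  lst := by simp
  le := fun x hx => by
    rw [List.mem_append] at hx
    rcases hx with hx | hx
    · exact ((List.pairwise_append.1 h.sorted).2.2 x hx a (by simp)).le
    · simp at hx; omega
  cl := by
    have e : q ++ a :: m = (q ++ [a]) ++ m := by simp
    have h1 := h.cl
    rw [e] at h1
    have h2 := Cc_prefix cut s _ _ h1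
    exact Cc_mono cut (h.le a (by simp)) _ h2

theorem dec_of_good {L : NLO} {S : Finset ℕ} {cut : ℕ → Finset ℕ} {lab : List ℕ → L.α}
    (hlab : ∀ q s, GoodL S cut s q → IsGreatest {a | ∃ o, Valid L q.toFinset o ∧ o s = a} (lab q))
    (s : ℕ) : ∀ (l p : List ℕ), GoodL S cut s (p ++ l) → Dec lab p l
  | [], _, _ => trivial
  | [_], _, _ => trivial
  | a :: b :: l, p, h => by
    refine ⟨?_, ?_⟩
    · have h2 : GoodL S cut b ((p ++ [a]) ++ [b]) := by
        apply GoodL.initial (m := l) (s := s)
        simpa using h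
      exact lab_lt hlab (GoodL.initial h) h2
    · apply dec_of_good hlab s (b :: l) (p ++ [a])
      simpa using h

/-- pushing an element larger than all elements gives a good stack -/
theorem GoodL.push {S : Finset ℕ} {cut : ℕ → Finset ℕ} {s x : ℕ} {q : List ℕ}
    (h : GoodL S cut s q) (hx : x ∈ S) (hs : s < x) : GoodL S cut x (push cut x q) where
  sorted := by
    unfold KL.push
    rw [List.pairwise_append]
    refine ⟨h.sorted.sublist (pre_prefix cut x q).sublist, by simp, ?_⟩
    intro y hy z hz
    have := h.le y ((pre_prefix cut x q).subset hy)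
    simp at hz
    omega
  mem := fun y hy => by
    unfold KL.push at hy
    rw [List.mem_append] at hy
    rcases hy with hy | hy
    · exact h.mem y ((pre_prefix cut x q).subset hy)
    · simp at hy; rw [hy]; exact hx
  lst := by simp [KL.push]
  le := fun y hy => by
    unfold KL.push at hy
    rw [List.mem_append] at hy
    rcases hy with hy | hy
    · have := h.le y ((pre_prefix cut x q).subset hy)
      omega
    · simp at hy; omega
  cl := Cc_append cut x _ (Cc_pre cut x q)

/-- the stacks -/
noncomputable def st (S : Finset ℕ) (cut : ℕ → Finset ℕ) : ℕ → List ℕ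
  | 0 => []
  | n + 1 => if n ∈ S then push cut n (st S cut n) else st S cut n

theorem st_good (S : Finset ℕ) (cut : ℕ → Finset ℕ) : ∀ n,
    st S cut n = [] ∨ ∃ s < n, GoodL S cut s (st S cut n)
  | 0 => Or.inl rfl
  | n + 1 => by
    unfold st
    split_ifs with h
    · right
      refine ⟨n, by omega, ?_⟩
      rcases st_good S cut n with h1 | ⟨s, hs, h1⟩
      · rw [h1]
        exact ⟨by simp [push, pre], by simp [push, pre, h], by simp [push, pre],
          by simp [push, pre], trivial⟩
      · exact h1.push h hs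
    · rcases st_good S cut n with h1 | ⟨s, hs, h1⟩
      · exact Or.inl h1
      · exact Or.inr ⟨s, by omega, h1⟩

/-- after an element of `S` the stack ends in it -/
theorem st_mem {S : Finset ℕ} {cut : ℕ → Finset ℕ} {n : ℕ} (h : n ∈ S) :
    GoodL S cut n (st S cut (n + 1)) := by
  have e : st S cut (n + 1) = push cut n (st S cut n) := by
    rw [st, if_pos h]
  rw [e]
  rcases st_good S cut n with h1 | ⟨s, hs, h1⟩
  · rw [h1]
    exact ⟨by simp [push, pre], by simp [push, pre, h], by simp [push, pre],
      by simp [push, pre], trivial⟩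
  · exact h1.push h hs

/-- THE KEY LEMMA -/
theorem iKL (L : NLO) (hL : L.Good) (S : Finset ℕ) (cut : ℕ → Finset ℕ)
    (hc : ∀ a ∈ S, (cut a).card + 1 ≤ a) (h : ¬ Small L.exp S) :
    ∃ S' ⊆ S, ¬ Small L S' ∧ ∀ a ∈ S', ∀ b ∈ S', ∀ c ∈ S', a < b → b < c →
      ∀ v ∈ cut a, ¬ (b ≤ v ∧ v < c) := by
  by_contra hcon
  push Not at hcon
  apply h
  obtain ⟨lab, hlab⟩ := exists_lab L S cut hL (by
    intro S' hS' h1
    by_contra h2
    obtain ⟨a, ha, b, hb, c, hc', hab, hbc, v, hv, h3, h4⟩ := hcon S' hS' h2
    exact h1 a ha b hb c hc' hab hbc v hv ⟨h3, h4⟩)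
  -- the values
  have hstep : ∀ n ∈ S, ∀ l, st S cut n = l → l ≠ [] →
      toColex (val lab cut [] (push cut n l)) < toColex (val lab cut [] l) := by
    intro n hn l hl hl0
    obtain ⟨a, l', rfl⟩ := List.exists_cons_of_ne_nil hl0
    rcases st_good S cut n with h1 | ⟨s, hs, h1⟩
    · rw [hl] at h1; exact absurd h1 hl0
    · rw [hl] at h1
      apply val_push
      · exact dec_of_good hlab s _ [] h1
      · exact dec_of_good hlab n _ [] (h1.push hn hs)
  have hmono : ∀ n m, n ≤ m → st S cut n ≠ [] → st S cut m ≠ [] ∧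
      toColex (val lab cut [] (st S cut m)) ≤ toColex (val lab cut [] (st S cut n)) := by
    intro n m hnm hn
    induction m, hnm using Nat.le_induction with
    | base => exact ⟨hn, le_rfl⟩
    | succ m hm ih =>
      by_cases hmS : m ∈ S
      · have e : st S cut (m + 1) = push cut m (st S cut m) := by rw [st, if_pos hmS]
        refine ⟨by rw [e]; simp [push], ?_⟩
        rw [e]
        exact le_trans (hstep m hmS _ rfl ih.1).le ih.2
      · have e : st S cut (m + 1) = st S cut m := by rw [st, if_neg hmS]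
        rw [e]
        exact ih
  refine ⟨fun x => toColex (val lab cut [] (st S cut (x + 1))), ?_, ?_⟩
  · intro x hx y hy hxy
    have h1 : st S cut (x + 1) ≠ [] := by
      intro h0
      have := (st_mem (cut := cut) hx).lst
      rw [h0] at this
      simp at this
    obtain ⟨h2, h3⟩ := hmono (x + 1) y (by omega) h1
    have e : st S cut (y + 1) = push cut y (st S cut y) := by rw [st, if_pos hy]
    have h4 := hstep y hy _ rfl h2
    rw [← e] at h4
    exact lt_of_lt_of_le h4 h3
  · intro x hx
    have hg := st_mem (cut := cut) hx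
    show (val lab cut [] (st S cut (x + 1))).support.sup _ ≤ x
    rw [Finset.sup_le_iff]
    intro e he
    rw [Finsupp.mem_support_iff] at he
    refine max_le ?_ ?_
    · obtain ⟨q, a, m, h1, h2⟩ := val_supp lab cut _ _ _ he
      rw [h1] at hg
      have hg' := hg.initial
      rw [h2, List.nil_append]
      exact le_trans (norm_lab hlab hg') (hg.le a (by simp))
    · show val lab cut [] (st S cut (x + 1)) e ≤ x
      have hd : Dec lab [] (st S cut (x + 1)) :=
        dec_of_good hlab x (st S cut (x + 1)) [] (by rw [List.nil_append]; exact hg)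
      obtain ⟨a, l', hl⟩ : ∃ a l', st S cut (x + 1) = a :: l' := by
        apply List.exists_cons_of_ne_nil
        intro h0
        have := hg.lst
        rw [h0] at this
        simp at this
      rw [hl] at hd hg ⊢
      refine val_le lab cut x l' [] a hd ?_ e
      intro y hy
      exact le_trans (hc y (hg.mem y hy)) (hg.le y hy)

end Pool.Agent.Work.MP_69fea5_lc.MT.KL
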