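import Pool.Agent.Work.MP_69fea5_lc.MT.Stmts
import Pool.Agent.Work.MP_69fea5_lc.MT.KL

/-!
Block [69fea5 MT], item LAB: labels of finite sets.
-/

set_option autoImplicit false

namespace Pool.Agent.Work.MP_69fea5_lc.MT

namespace LAB_aux

/-- for nonempty small sets the largest value of a valid map at the maximum, any value otherwise -/
theorem exists_lab (L : NLO) (hL : L.Good) (Q : Finset ℕ) : ∃ a : L.α, ∀ (m : ℕ), m ∈ Q →
    (∀ q ∈ Q, q ≤ m) → Small L Q → IsGreatest {a | ∃ o, KL.Valid L Q o ∧ o m = a} a := by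
  by_cases h : ∃ m, m ∈ Q ∧ (∀ q ∈ Q, q ≤ m) ∧ Small L Q
  · obtain ⟨m, hm, hmax, hs⟩ := h
    obtain ⟨a, ha⟩ := KL.exists_greatest L hL Q m hm hs
    refine ⟨a, fun m' hm' hmax' _ => ?_⟩
    have : m' = m := le_antisymm (hmax m' hm') (hmax' m hm)
    rw [this]
    exact ha
  · obtain ⟨a⟩ := hL.ne
    exact ⟨a, fun m hm hmax hs => absurd ⟨m, hm, hmax, hs⟩ h⟩

end LAB_aux

theorem iLAB : S_LAB := by
  intro L hL
  choose lab hlab using LAB_aux.exists_lab L hL
  refine ⟨lab, fun Q a hQ hs => ?_⟩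
  have hmax : ∀ q ∈ insert a Q, q ≤ a := by
    intro q hq
    rcases Finset.mem_insert.1 hq with rfl | hq
    · exact le_rfl
    · exact (hQ q hq).le
  obtain ⟨⟨o, ho, he⟩, -⟩ := hlab (insert a Q) a (Finset.mem_insert_self a Q) hmax hs
  refine ⟨?_, fun hne => ?_⟩
  · rw [← he]
    exact ho.2 a (Finset.mem_insert_self a Q)
  · have ho' : KL.Valid L Q o :=
      ⟨fun x hx y hy => ho.1 x (Finset.mem_insert_of_mem hx) y (Finset.mem_insert_of_mem hy),
        fun x hx => ho.2 x (Finset.mem_insert_of_mem hx)⟩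
    have hm : Q.max' hne ∈ Q := Q.max'_mem hne
    have h := (hlab Q (Q.max' hne) hm (fun q hq => Q.le_max' q hq) ⟨o, ho'⟩).2 ⟨o, ho', rfl⟩
    refine lt_of_lt_of_le ?_ h
    rw [← he]
    exact ho.1 _ (Finset.mem_insert_of_mem hm) a (Finset.mem_insert_self a Q) (hQ _ hm)

end Pool.Agent.Work.MP_69fea5_lc.MT
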