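import Pool.Agent.Work.MP_69fea5_lc.MT.Defs

/-!
Block [69fea5 MT]: the towers `om n` are well founded, with finitely many elements of bounded norm.
-/

set_option autoImplicit false

namespace Pool.Agent.Work.MP_69fea5_lc.MT

theorem good_nat : NLO.Good ⟨ℕ, id⟩ where
  wf := (inferInstance : WellFoundedLT ℕ).wf
  fin := fun s => Set.finite_Iic s
  ne := ⟨(0 : ℕ)⟩

/-- the function of an element of `ω ^ L` -/
def un {L : NLO} (f : L.exp.α) : L.α →₀ ℕ := ofColex (f : Colex (L.α →₀ ℕ))

theorem un_norm {L : NLO} {f : L.exp.α} {s : ℕ} (h : L.exp.norm f ≤ s) {x : L.α}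
    (hx : un f x ≠ 0) : L.norm x ≤ s ∧ un f x ≤ s := by
  have h1 : ((un f).support.sup fun e => max (L.norm e) (un f e)) ≤ s := h
  rw [Finset.sup_le_iff] at h1
  have h2 := h1 x (Finsupp.mem_support_iff.2 hx)
  exact ⟨le_trans (le_max_left _ _) h2, le_trans (le_max_right _ _) h2⟩

theorem NLO.Good.exp {L : NLO} (hL : L.Good) : L.exp.Good where
  wf := by
    have : WellFoundedLT L.α := ⟨hL.wf⟩
    exact (inferInstance : WellFoundedLT (Colex (L.α →₀ ℕ))).wf
  fin := by
    intro s
    have : Finite {x : L.α | L.norm x ≤ s} := (hL.fin s).to_subtype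
    let φ : {f : L.exp.α | L.exp.norm f ≤ s} → ({x : L.α | L.norm x ≤ s} → Fin (s + 1)) :=
      fun f x => ⟨min (un f.1 x.1) s, by omega⟩
    have hφ : Function.Injective φ := by
      intro f g hfg
      apply Subtype.ext
      have e : un f.1 = un g.1 := by
        apply Finsupp.ext
        intro x
        by_cases hx : L.norm x ≤ s
        · have h1 := congrArg Fin.val (congrFun hfg ⟨x, hx⟩)
          have h2 : min (un f.1 x) s = min (un g.1 x) s := h1
          have h3 : un f.1 x ≤ s := by
            by_cases h0 : un f.1 x = 0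
            · omega
            · exact (un_norm f.2 h0).2
          have h4 : un g.1 x ≤ s := by
            by_cases h0 : un g.1 x = 0
            · omega
            · exact (un_norm g.2 h0).2
          omega
        · have h3 : un f.1 x = 0 := by
            by_contra h0
            exact hx (un_norm f.2 h0).1
          have h4 : un g.1 x = 0 := by
            by_contra h0
            exact hx (un_norm g.2 h0).1
          rw [h3, h4]
      exact ofColex_inj.1 e
    exact @Set.toFinite _ _ (Finite.of_injective φ hφ)
  ne := ⟨(toColex 0 : Colex (L.α →₀ ℕ))⟩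

theorem good_om : ∀ n, (om n).Good
  | 0 => good_nat
  | n + 1 => (good_om n).exp

end Pool.Agent.Work.MP_69fea5_lc.MT
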