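import Pool.Agent.Work.MP_69fea5_lc.MT.Stmts
import Pool.Agent.Work.MP_69fea5_lc.MT.Good
import Pool.Agent.Work.MP_69fea5_lc.MT.KL

/-!
Block [69fea5 MT], item LEV: one level.
-/

set_option autoImplicit false

namespace Pool.Agent.Work.MP_69fea5_lc.MT

namespace LEV_aux

open Classical in
/-- the cut points of `a`: the least witnesses for all tuples of numbers `≤ log₂ a` -/
noncomputable def cut (n : ℕ) (P : (Fin n → ℕ) → ℕ → Prop) (a : ℕ) : Finset ℕ :=
  (Fintype.piFinset fun _ : Fin n => Finset.range (Nat.log 2 a + 1)).image fun v =>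
    if h : ∃ z, P v z then Nat.find h else 0

theorem card_cut (n : ℕ) (P : (Fin n → ℕ) → ℕ → Prop) (a : ℕ) :
    (cut n P a).card ≤ (Nat.log 2 a + 1) ^ n := by
  classical
  unfold cut
  refine Finset.card_image_le.trans ?_
  rw [Fintype.card_piFinset]
  simp

theorem mem_cut (n : ℕ) (P : (Fin n → ℕ) → ℕ → Prop) (a : ℕ) (v : Fin n → ℕ)
    (hv : ∀ l, v l ≤ Nat.log 2 a) (B : ℕ) (h : ∃ z < B, P v z) :
    ∃ z < B, P v z ∧ z ∈ cut n P a := by
  classical
  obtain ⟨z, hz, hP⟩ := h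
  have h' : ∃ z, P v z := ⟨z, hP⟩
  refine ⟨Nat.find h', (Nat.find_min' h' hP).trans_lt hz, Nat.find_spec h', ?_⟩
  unfold cut
  rw [Finset.mem_image]
  refine ⟨v, ?_, by rw [dif_pos h']⟩
  rw [Fintype.mem_piFinset]
  intro l
  rw [Finset.mem_range]
  exact Nat.lt_succ_of_le (hv l)

/-- the cut points of a formula (none if it is a sentence) -/
noncomputable def cutF {ι : Type} (R : ι → ℕ → ℕ → ℕ → Prop) (E : (Σ n, Fm ι n) → ℕ) :
    (Σ n, Fm ι n) → ℕ → Finset ℕ
  | ⟨0, _⟩, _ => ∅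
  | ⟨n + 1, ψ⟩, a => cut n (fun v z => Bd R E ψ (Fin.cons z v)) a

theorem card_cutF {ι : Type} (R : ι → ℕ → ℕ → ℕ → Prop) (E : (Σ n, Fm ι n) → ℕ)
    (χ : Σ n, Fm ι n) (a : ℕ) (h : (Nat.log 2 a + 1) ^ χ.1 < a) :
    (cutF R E χ a).card + 1 ≤ a := by
  obtain ⟨n, ψ⟩ := χ
  cases n with
  | zero =>
    show (∅ : Finset ℕ).card + 1 ≤ a
    have h1 : (Nat.log 2 a + 1) ^ 0 < a := h
    rw [Finset.card_empty]
    rw [pow_zero] at h1
    omega
  | succ n =>
    have h1 : (Nat.log 2 a + 1) ^ (n + 1) < a := h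
    have h2 : (cutF R E ⟨n + 1, ψ⟩ a).card ≤ (Nat.log 2 a + 1) ^ n := card_cut _ _ _
    have h3 : (Nat.log 2 a + 1) ^ n ≤ (Nat.log 2 a + 1) ^ (n + 1) :=
      Nat.pow_le_pow_right (Nat.succ_pos _) (Nat.le_succ n)
    omega

end LEV_aux

open LEV_aux in
theorem iLEV (hLOC : S_LOC) : S_LEV := by
  classical
  intro ι R Φ
  induction Φ using Finset.induction_on_max_value (fun χ : (Σ n, Fm ι n) => χ.2.size) with
  | empty =>
    intro a S _ hS
    refine ⟨fun _ => 0, S, subset_rfl, by simpa using hS, ?_, ?_⟩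
    · intro χ hχ
      exact absurd hχ (Finset.notMem_empty _)
    · intro n ψ hψ
      exact absurd hψ (Finset.notMem_empty _)
  | insert χ Φ' hχ hmax ih =>
    intro a S hlog hS
    have e : a + (insert χ Φ').card = (a + 1) + Φ'.card := by
      rw [Finset.card_insert_of_notMem hχ]
      omega
    rw [e] at hS
    obtain ⟨E0, S0, hS0, hl0, hE0, hw0⟩ := ih (a + 1) S
      (fun x hx χ' hχ' => hlog x hx χ' (Finset.mem_insert_of_mem hχ')) hS
    obtain ⟨S', hS', hl', hcut⟩ := KL.iKL (om a) (good_om a) S0 (cutF R E0 χ)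
      (fun x hx => card_cutF R E0 χ x (hlog x (hS0 hx) χ (Finset.mem_insert_self _ _))) hl0
    have hne : S'.Nonempty := by
      rw [Finset.nonempty_iff_ne_empty]
      rintro rfl
      obtain ⟨x⟩ := (good_om a).ne
      exact hl' ⟨fun _ => x, fun y hy => absurd hy (Finset.notMem_empty _),
        fun y hy => absurd hy (Finset.notMem_empty _)⟩
    have hEeq : ∀ χ' : (Σ n, Fm ι n), χ' ≠ χ →
        Function.update E0 χ (S'.max' hne) χ' = E0 χ' := fun χ' h =>
      Function.update_of_ne h _ _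
    have hsz : ∀ (n : ℕ) (φ : Fm ι n), φ.size ≤ χ.2.size → ∀ v : Fin n → ℕ,
        Bd R (Function.update E0 χ (S'.max' hne)) φ v ↔ Bd R E0 φ v := by
      intro n φ hφ
      apply hLOC
      intro χ' hχ'
      apply hEeq
      rintro rfl
      omega
    refine ⟨Function.update E0 χ (S'.max' hne), S', hS'.trans hS0, hl', ?_, ?_⟩
    · intro χ' hχ' b hb
      by_cases h : χ' = χ
      · subst h
        rw [Function.update_self]
        exact Finset.le_max' _ _ hb
      · rw [hEeq χ' h]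
        exact hE0 χ' (Finset.mem_of_mem_insert_of_ne hχ' h) b (hS' hb)
    · intro n ψ hψ x hx b hb hxb v hv hz
      by_cases h : (⟨n + 1, ψ⟩ : Σ n, Fm ι n) = χ
      · subst h
        rw [Function.update_self] at hz
        obtain ⟨z, hz1, hz2⟩ := hz
        obtain ⟨z', hz1', hz2', hz3'⟩ := mem_cut n (fun v z => Bd R E0 ψ (Fin.cons z v)) x v hv
          (S'.max' hne) ⟨z, hz1, (hsz _ ψ le_rfl _).1 hz2⟩
        refine ⟨z', ?_, (hsz _ ψ le_rfl _).2 hz2'⟩
        by_contra hc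
        exact hcut x hx b hb (S'.max' hne) (Finset.max'_mem _ _) hxb
          (lt_of_le_of_lt (not_lt.1 hc) hz1') z' hz3' ⟨not_lt.1 hc, hz1'⟩
      · have hm : (⟨n + 1, ψ⟩ : Σ n, Fm ι n) ∈ Φ' := Finset.mem_of_mem_insert_of_ne hψ h
        have hsz' : ψ.size ≤ χ.2.size := hmax _ hm
        rw [hEeq _ h] at hz
        obtain ⟨z, hz1, hz2⟩ := hz
        obtain ⟨z', hz1', hz2'⟩ := hw0 n ψ hm x (hS' hx) b (hS' hb) hxb v hv
          ⟨z, hz1, (hsz _ ψ hsz' _).1 hz2⟩
        exact ⟨z', hz1', (hsz _ ψ hsz' _).2 hz2'⟩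

end Pool.Agent.Work.MP_69fea5_lc.MT
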