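import Pool.Agent.Work.MP_69fea5_lc.MT.Stmts

/-!
Block [69fea5 MT], item LOC: bounded truth depends only on the bounds of smaller formulas.
-/

set_option autoImplicit false

namespace Pool.Agent.Work.MP_69fea5_lc.MT

theorem iLOC : S_LOC := by
  intro ι R E E' n φ
  induction φ with
  | rel i a b c =>
    intro _ v
    exact Iff.rfl
  | neg φ ih =>
    intro h v
    exact not_congr (ih (fun χ hχ => h χ (by simp only [Fm.size]; omega)) v)
  | and φ ψ ih1 ih2 =>
    intro h v
    exact and_congr (ih1 (fun χ hχ => h χ (by simp only [Fm.size]; omega)) v)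
      (ih2 (fun χ hχ => h χ (by simp only [Fm.size]; omega)) v)
  | ex φ ih =>
    intro h v
    have hE : E ⟨_, φ⟩ = E' ⟨_, φ⟩ := h ⟨_, φ⟩ (by simp only [Fm.size]; omega)
    have ih' := ih (fun χ hχ => h χ (by simp only [Fm.size]; omega))
    constructor
    · rintro ⟨z, hz, hb⟩
      exact ⟨z, hE ▸ hz, (ih' _).1 hb⟩
    · rintro ⟨z, hz, hb⟩
      exact ⟨z, hE.symm ▸ hz, (ih' _).2 hb⟩

end Pool.Agent.Work.MP_69fea5_lc.MT
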