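import Pool.Agent.Work.MP_69fea5_lc.MT.Stmts

/-!
Block [69fea5 MT], item LST: least elements of the sets of the model.
-/

set_option autoImplicit false

namespace Pool.Agent.Work.MP_69fea5_lc.MT

open Filter

namespace LST_aux

variable {ι : Type}

lemma rep_cons (F : Frame ι) {n : ℕ} (z : F.M) (v : Fin n → F.M) (j : F.J) :
    (fun l => F.rep ((Fin.cons z v : Fin (n + 1) → F.M) l) j) =
      (Fin.cons (F.rep z j) fun l => F.rep (v l) j : Fin (n + 1) → ℕ) := by
  funext l
  refine Fin.cases ?_ (fun l => ?_) l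
  · simp
  · simp

end LST_aux

open LST_aux in
theorem iLST (hTRU : S_TRU) (hREL : S_REL) : S_LST := by
  rintro ι F X ⟨n, φ, p, rfl⟩ ⟨x0, hx0⟩
  classical
  have hx1 : ∀ᶠ j in (F.U : Filter F.J),
      Bd (F.R j) (F.E j) φ (Fin.cons (F.rep x0 j) fun l => F.rep (p l) j) := by
    have h := (hTRU ι F (n + 1) φ (Fin.cons x0 p)).1 hx0
    filter_upwards [h] with j hj
    rwa [rep_cons] at hj
  let y : F.J → ℕ := fun j =>
    if hj : ∃ y, Bd (F.R j) (F.E j) φ (Fin.cons y fun l => F.rep (p l) j) then Nat.find hj else 0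
  have hy : ∀ j (hj : ∃ y, Bd (F.R j) (F.E j) φ (Fin.cons y fun l => F.rep (p l) j)),
      y j = Nat.find hj := fun j hj => dif_pos hj
  have hmin : ∀ᶠ j in (F.U : Filter F.J),
      Bd (F.R j) (F.E j) φ (Fin.cons (y j) fun l => F.rep (p l) j) := by
    filter_upwards [hx1] with j hj
    have hj' : ∃ y, Bd (F.R j) (F.E j) φ (Fin.cons y fun l => F.rep (p l) j) := ⟨_, hj⟩
    rw [hy j hj']
    exact Nat.find_spec hj'
  have hle : ∀ x : ℕ, ∀ j, Bd (F.R j) (F.E j) φ (Fin.cons x fun l => F.rep (p l) j) →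
      y j ≤ x := by
    intro x j hj
    have hj' : ∃ y, Bd (F.R j) (F.E j) φ (Fin.cons y fun l => F.rep (p l) j) := ⟨_, hj⟩
    rw [hy j hj']
    exact Nat.find_min' hj' hj
  have hlow : F.Low y := by
    refine F.low_le (F.low_rep x0) ?_
    filter_upwards [hx1] with j hj
    exact hle _ j hj
  refine ⟨F.el y hlow, ?_, ?_⟩
  · refine (hTRU ι F (n + 1) φ (Fin.cons (F.el y hlow) p)).2 ?_
    filter_upwards [hmin, F.rep_el hlow] with j h1 h2
    rw [rep_cons, h2]
    exact h1
  · intro x hx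
    have h := (hTRU ι F (n + 1) φ (Fin.cons x p)).1 hx
    refine (hREL ι F (F.el y hlow) x x).2.2.1.2 ?_
    filter_upwards [h, F.rep_el hlow] with j h1 h2
    rw [rep_cons] at h1
    rw [h2]
    exact hle _ j h1

end Pool.Agent.Work.MP_69fea5_lc.MT
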