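import Pool.Agent.Work.MP_69fea5_lc.MT.Stmts

/-!
Block [69fea5 MT], item MOD: the model of a coloured frame is a model of `ACA_0`.
-/

set_option autoImplicit false

namespace Pool.Agent.Work.MP_69fea5_lc.MT

theorem iMOD (hORD : S_ORD) (hRPC : S_RPC) (hCMP : S_CMP) (hLST : S_LST) : S_MOD := by
  intro F
  obtain ⟨h1, h2, h3, h4⟩ := hORD Sym F.toFrame
  obtain ⟨-, -, -, -, -, h5⟩ := hRPC Sym F.toFrame
  exact
    { ordered := h1
      zero_le := h2
      one_le := h3
      sub := h4
      comprehension := fun R hR => h5 R (hCMP F 1 R hR)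
      least := hLST Sym F.toFrame }

end Pool.Agent.Work.MP_69fea5_lc.MT
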