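import Pool.Agent.Work.MP_69fea5_lc.MT.Stmts
import Pool.Agent.Work.MP_69fea5_lc.MT.Good

/-!
Block [69fea5 MT], item OM.
-/

set_option autoImplicit false

namespace Pool.Agent.Work.MP_69fea5_lc.MT

namespace OM_aux

theorem small_of_card (S : Finset ℕ) (m : ℕ) (hm : ∀ x ∈ S, m ≤ x) (hc : S.card ≤ m + 1) :
    Small (om 0) S := by
  refine ⟨fun x => (S.filter (fun y => x < y)).card, ?_, ?_⟩
  · intro x hx y hy hxy
    show (S.filter (fun z => y < z)).card < (S.filter (fun z => x < z)).card
    apply Finset.card_lt_card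
    rw [Finset.ssubset_iff_of_subset]
    · exact ⟨y, by simp [hy, hxy], by simp⟩
    · intro z hz
      rw [Finset.mem_filter] at hz ⊢
      exact ⟨hz.1, lt_trans hxy hz.2⟩
  · intro x hx
    show (S.filter (fun y => x < y)).card ≤ x
    have h1 : (S.filter (fun y => x < y)) ⊆ S.erase x := by
      intro z hz
      rw [Finset.mem_filter] at hz
      rw [Finset.mem_erase]
      exact ⟨Nat.ne_of_gt hz.2, hz.1⟩
    have h2 := Finset.card_le_card h1
    rw [Finset.card_erase_of_mem hx] at h2
    have h3 := hm x hx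
    omega

end OM_aux

theorem iOM : S_OM := by
  refine ⟨good_om, ?_, ?_⟩
  · rintro L S T hTS ⟨o, h1, h2⟩
    exact ⟨o, fun x hx y hy => h1 x (hTS hx) y (hTS hy), fun x hx => h2 x (hTS hx)⟩
  · intro S m hS hm
    by_contra hc
    exact hS (OM_aux.small_of_card S m hm (by omega))

end Pool.Agent.Work.MP_69fea5_lc.MT
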