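import Pool.Agent.Work.MP_69fea5_lc.MT.Stmts

/-!
Block [69fea5 MT], item ORD: the cut is the nonnegative part of a discretely ordered ring.
Author: helper37.
-/

set_option autoImplicit false

namespace Pool.Agent.Work.MP_69fea5_lc.MT

open Filter

namespace ORD_aux

variable {ι : Type}

theorem exists_rep (F : Frame ι) (x : F.M) : ∃ (y : F.J → ℕ) (hy : F.Low y), F.el y hy = x :=
  ⟨F.rep x, F.low_rep x, F.el_rep x⟩

theorem el_le (F : Frame ι) {x y : F.J → ℕ} (hx : F.Low x) (hy : F.Low y) :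
    F.el x hx ≤ F.el y hy ↔ ∀ᶠ j in (F.U : Filter F.J), x j ≤ y j := by
  change ((x : F.J → ℕ) : F.N) ≤ ((y : F.J → ℕ) : F.N) ↔ _
  exact Germ.coe_le

theorem el_lt (F : Frame ι) {x y : F.J → ℕ} (hx : F.Low x) (hy : F.Low y) :
    F.el x hx < F.el y hy ↔ ∀ᶠ j in (F.U : Filter F.J), x j < y j := by
  change ((x : F.J → ℕ) : F.N) < ((y : F.J → ℕ) : F.N) ↔ _
  exact Germ.coe_lt

theorem el_add (F : Frame ι) {x y : F.J → ℕ} (hx : F.Low x) (hy : F.Low y) :
    F.el x hx + F.el y hy = F.el (fun j => x j + y j) (F.low_add hx hy) := rfl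

theorem el_zero (F : Frame ι) : F.el (fun _ => 0) (F.low_const 0) = 0 := rfl

theorem el_one (F : Frame ι) : F.el (fun _ => 1) (F.low_const 1) = 1 := rfl

end ORD_aux

open ORD_aux in
theorem iORD : S_ORD := by
  intro ι F
  refine ⟨inferInstance, ?_, ?_, ?_⟩
  · intro x
    obtain ⟨y, hy, rfl⟩ := exists_rep F x
    rw [← el_zero F, el_le]
    exact Eventually.of_forall fun j => Nat.zero_le _
  · intro x hx
    obtain ⟨y, hy, rfl⟩ := exists_rep F x
    rw [← el_zero F, el_lt] at hx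
    rw [← el_one F, el_le]
    filter_upwards [hx] with j hj
    exact hj
  · intro x y hxy
    obtain ⟨a, ha, rfl⟩ := exists_rep F x
    obtain ⟨b, hb, rfl⟩ := exists_rep F y
    rw [el_le] at hxy
    have hc : F.Low fun j => b j - a j :=
      F.low_le hb (Eventually.of_forall fun j => Nat.sub_le _ _)
    refine ⟨F.el (fun j => b j - a j) hc, ?_⟩
    rw [el_add, F.el_eq]
    filter_upwards [hxy] with j hj
    exact Nat.add_sub_cancel' hj

end Pool.Agent.Work.MP_69fea5_lc.MT
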