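import Pool.Agent.Work.MP_69fea5_lc.MT.Stmts

/-!
Block [69fea5 MT], item PRI: the pairing function is injective in a model.
-/

set_option autoImplicit false

namespace Pool.Agent.Work.MP_69fea5_lc.MT

namespace PRI_aux

theorem add_one_le {M : Type} [CommSemiring M] [LinearOrder M] {SS : Set (Set M)}
    (h : IsModelACA M SS) {x y : M} (hxy : x < y) : x + 1 ≤ y := by
  have := h.ordered
  obtain ⟨z, hz⟩ := h.sub x y hxy.le
  have hz0 : 0 < z := by
    rcases (h.zero_le z).lt_or_eq with h0 | h0
    · exact h0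
    · exfalso
      rw [← h0, add_zero] at hz
      exact hxy.ne hz
  calc x + 1 ≤ x + z := by
        have := h.one_le z hz0
        gcongr
    _ = y := hz

theorem pr_lt {M : Type} [CommSemiring M] [LinearOrder M] {SS : Set (Set M)}
    (h : IsModelACA M SS) {a b a' b' : M} (hab : a + b < a' + b') : pr a b < pr a' b' := by
  have := h.ordered
  have h1 : a + b + 1 ≤ a' + b' := add_one_le h hab
  have h0 : 0 ≤ a + b := h.zero_le _
  have h01 : (0 : M) ≤ a + b + 1 := h.zero_le _
  have hb : a ≤ a + b := le_add_of_nonneg_right (h.zero_le b)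
  calc pr a b = (a + b) * (a + b) + a := rfl
    _ ≤ (a + b) * (a + b) + (a + b) := by gcongr
    _ < (a + b) * (a + b) + (a + b) + ((a + b) + 1) :=
        lt_add_of_pos_right _ (lt_of_lt_of_le zero_lt_one (le_add_of_nonneg_left h0))
    _ = (a + b + 1) * (a + b + 1) := by ring
    _ ≤ (a' + b') * (a' + b') := mul_le_mul h1 h1 h01 (h.zero_le _)
    _ ≤ (a' + b') * (a' + b') + a' := le_add_of_nonneg_right (h.zero_le a')
    _ = pr a' b' := rfl

end PRI_aux

theorem iPRI : S_PRI := by
  intro M _ _ SS h a b a' b' hp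
  have := h.ordered
  have hs : a + b = a' + b' := by
    rcases lt_trichotomy (a + b) (a' + b') with h1 | h1 | h1
    · exact absurd hp (PRI_aux.pr_lt h h1).ne
    · exact h1
    · exact absurd hp (PRI_aux.pr_lt h h1).ne'
  have ha : a = a' := by
    unfold pr at hp
    rw [hs] at hp
    exact add_left_cancel hp
  refine ⟨ha, ?_⟩
  rw [ha] at hs
  exact add_left_cancel hs

end Pool.Agent.Work.MP_69fea5_lc.MT
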