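import Pool.Agent.Work.MP_69fea5_lc.MT.Stmts

/-!
Block [69fea5 MT], item REL: the operations in terms of representing functions.
Author: helper73.
-/

set_option autoImplicit false

namespace Pool.Agent.Work.MP_69fea5_lc.MT

open Filter

namespace REL_aux

variable {ι : Type}

theorem el_le (F : Frame ι) {x y : F.J → ℕ} (hx : F.Low x) (hy : F.Low y) :
    F.el x hx ≤ F.el y hy ↔ ∀ᶠ j in (F.U : Filter F.J), x j ≤ y j := by
  change ((x : F.J → ℕ) : F.N) ≤ ((y : F.J → ℕ) : F.N) ↔ _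
  exact Germ.coe_le

theorem el_lt (F : Frame ι) {x y : F.J → ℕ} (hx : F.Low x) (hy : F.Low y) :
    F.el x hx < F.el y hy ↔ ∀ᶠ j in (F.U : Filter F.J), x j < y j := by
  change ((x : F.J → ℕ) : F.N) < ((y : F.J → ℕ) : F.N) ↔ _
  exact Germ.coe_lt

theorem el_add (F : Frame ι) {x y : F.J → ℕ} (hx : F.Low x) (hy : F.Low y) :
    F.el x hx + F.el y hy = F.el (fun j => x j + y j) (F.low_add hx hy) := rfl

theorem el_mul (F : Frame ι) {x y : F.J → ℕ} (hx : F.Low x) (hy : F.Low y) :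
    F.el x hx * F.el y hy = F.el (fun j => x j * y j) (F.low_mul hx hy) := rfl

theorem all (F : Frame ι) {x y z : F.J → ℕ} (hx : F.Low x) (hy : F.Low y) (hz : F.Low z) :
    (F.el x hx + F.el y hy = F.el z hz ↔ ∀ᶠ j in (F.U : Filter F.J), x j + y j = z j) ∧
    (F.el x hx * F.el y hy = F.el z hz ↔ ∀ᶠ j in (F.U : Filter F.J), x j * y j = z j) := by
  rw [el_add, el_mul, F.el_eq, F.el_eq]
  exact ⟨Iff.rfl, Iff.rfl⟩

end REL_aux

open REL_aux in
theorem iREL : S_REL := by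
  intro ι F x y z
  have h := REL_aux.all F (F.low_rep x) (F.low_rep y) (F.low_rep z)
  have h3 := el_le F (F.low_rep x) (F.low_rep y)
  have h4 := el_lt F (F.low_rep x) (F.low_rep y)
  have h5 := F.el_eq (F.low_rep x) (F.low_rep y)
  rw [F.el_rep, F.el_rep] at h3 h4 h5
  rw [F.el_rep, F.el_rep, F.el_rep] at h
  exact ⟨h.1, h.2, h3, h4, h5⟩

end Pool.Agent.Work.MP_69fea5_lc.MT
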