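import Pool.Agent.Work.MP_69fea5_lc.MT.Stmts

/-! Block [69fea5 MT]: item REN, renaming of variables. -/

set_option autoImplicit false

namespace Pool.Agent.Work.MP_69fea5_lc.MT

namespace REN_aux

theorem ren {ι M : Type} (R : ι → M → M → M → Prop) {n : ℕ} (φ : Fm ι n) :
    ∀ (m : ℕ) (f : Fin n → Fin m) (v : Fin m → M),
      Sat R (φ.ren f) v ↔ Sat R φ fun i => v (f i) := by
  induction φ with
  | rel i a b c => intro m f v; simp only [Fm.ren, Sat]
  | neg φ ih => intro m f v; simp only [Fm.ren, Sat]; rw [ih]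
  | and φ ψ ih1 ih2 => intro m f v; simp only [Fm.ren, Sat]; rw [ih1, ih2]
  | ex φ ih =>
    intro m f v
    simp only [Fm.ren, Sat]
    refine exists_congr fun z => ?_
    rw [ih]
    have : (fun i => (Fin.cons z v : Fin (m + 1) → M)
        ((Fin.cons 0 fun i => (f i).succ : Fin _ → Fin (m + 1)) i)) =
        (Fin.cons z fun i => v (f i)) := by
      funext i
      refine Fin.cases ?_ (fun i => ?_) i
      · simp
      · simp
    rw [this]

end REN_aux

theorem iREN : S_REN := fun _ _ R _ m f φ v => REN_aux.ren R φ m f v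

end Pool.Agent.Work.MP_69fea5_lc.MT
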