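import Pool.Agent.Work.MP_69fea5_lc.MT.Stmts

/-!
Block [69fea5 MT], item RPC: closure properties of the relations on the model which are definable
with parameters.
-/

set_option autoImplicit false

namespace Pool.Agent.Work.MP_69fea5_lc.MT

open Filter

namespace RPC_aux

variable {ι : Type} (F : Frame ι)

theorem rel (n : ℕ) (i : ι) (a b c : Fin n ⊕ F.M) :
    Rp F n fun v => F.RM i (Sum.elim v id a) (Sum.elim v id b) (Sum.elim v id c) :=
  ⟨3, .rel i 0 1 2, ![a, b, c], fun _ => Iff.rfl⟩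

theorem neg (n : ℕ) (T : (Fin n → F.M) → Prop) (h : Rp F n T) : Rp F n fun v => ¬ T v := by
  obtain ⟨N, φ, σ, hσ⟩ := h
  exact ⟨N, .neg φ, σ, fun v => not_congr (hσ v)⟩

theorem and (hREN : S_REN) (n : ℕ) (T T' : (Fin n → F.M) → Prop) (h : Rp F n T)
    (h' : Rp F n T') : Rp F n fun v => T v ∧ T' v := by
  obtain ⟨N, φ, σ, hσ⟩ := h
  obtain ⟨N', φ', σ', hσ'⟩ := h'
  refine ⟨N + N', .and (φ.ren (Fin.castAdd N')) (φ'.ren (Fin.natAdd N)), Fin.append σ σ',
    fun v => ?_⟩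
  refine and_congr ?_ ?_
  · rw [hREN ι F.M F.RM, hσ v]
    simp only [Fin.append_left]
  · rw [hREN ι F.M F.RM, hσ' v]
    simp only [Fin.append_right]

/-- remove the first input variable -/
noncomputable def dr {n : ℕ} : Fin (n + 1) ⊕ F.M → Fin n ⊕ F.M
  | .inl k => Fin.cases (.inr 0) (fun j => .inl j) k
  | .inr q => .inr q

/-- is it the first input variable -/
noncomputable def gl {n N : ℕ} (l : Fin N) : Fin (n + 1) ⊕ F.M → Fin (N + 1)
  | .inl k => Fin.cases 0 (fun _ => l.succ) k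
  | .inr _ => l.succ

theorem cons_gl {n N : ℕ} (x : F.M) (v : Fin n → F.M) (σ : Fin N → Fin (n + 1) ⊕ F.M)
    (l : Fin N) :
    (Fin.cons x (fun l => Sum.elim v id (dr F (σ l))) : Fin (N + 1) → F.M) (gl F l (σ l)) =
      Sum.elim (Fin.cons x v : Fin (n + 1) → F.M) id (σ l) := by
  rcases hσ : σ l with k | q
  · induction k using Fin.cases with
    | zero => rfl
    | succ j =>
      show (Fin.cons x (fun l => Sum.elim v id (dr F (σ l))) : Fin (N + 1) → F.M) l.succ =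
        (Fin.cons x v : Fin (n + 1) → F.M) j.succ
      rw [Fin.cons_succ, Fin.cons_succ, hσ]
      rfl
  · show (Fin.cons x (fun l => Sum.elim v id (dr F (σ l))) : Fin (N + 1) → F.M) l.succ = q
    rw [Fin.cons_succ, hσ]
    rfl

theorem ex (hREN : S_REN) (n : ℕ) (T : (Fin (n + 1) → F.M) → Prop) (h : Rp F (n + 1) T) :
    Rp F n fun v => ∃ x, T (Fin.cons x v) := by
  obtain ⟨N, φ, σ, hσ⟩ := h
  refine ⟨N, .ex (φ.ren fun l => gl F l (σ l)), fun l => dr F (σ l), fun v => ?_⟩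
  refine exists_congr fun x => ?_
  rw [hREN ι F.M F.RM, hσ]
  simp only [cons_gl]

theorem mem (n : ℕ) (a : Fin n) (X : Set F.M) (hX : X ∈ F.SS) :
    Rp F n fun v => v a ∈ X := by
  obtain ⟨m, φ, p, rfl⟩ := hX
  refine ⟨m + 1, φ, Fin.cons (.inl a) fun l => .inr (p l), fun v => ?_⟩
  have e : (fun l => Sum.elim v id
      ((Fin.cons (.inl a) fun l => .inr (p l) : Fin (m + 1) → Fin n ⊕ F.M) l)) =
      (Fin.cons (v a) p : Fin (m + 1) → F.M) := by
    funext l
    refine Fin.cases rfl (fun j => rfl) l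
  rw [e]
  exact Iff.rfl

theorem last (hREN : S_REN) (T : (Fin 1 → F.M) → Prop) (h : Rp F 1 T) :
    {x | T fun _ => x} ∈ F.SS := by
  obtain ⟨N, φ, σ, hσ⟩ := h
  refine ⟨N, φ.ren fun l => gl F l (σ l),
    fun l => Sum.elim (fun k : Fin 0 => k.elim0) id (dr F (σ l)), ?_⟩
  ext x
  rw [Set.mem_ofPred_eq, Set.mem_ofPred_eq, hREN ι F.M F.RM, hσ]
  simp only [cons_gl]
  have e : (fun _ : Fin 1 => x) = Fin.cons x (fun k : Fin 0 => k.elim0) := by
    funext l
    refine Fin.cases rfl (fun j => j.elim0) l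
  rw [e]

end RPC_aux

theorem iRPC (hREN : S_REN) : S_RPC := fun _ F =>
  ⟨RPC_aux.rel F, RPC_aux.neg F, RPC_aux.and F hREN, RPC_aux.ex F hREN, RPC_aux.mem F,
    RPC_aux.last F hREN⟩

end Pool.Agent.Work.MP_69fea5_lc.MT
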