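import Pool.Agent.Work.MP_69fea5_lc.MT.Stmts

/-!
Block [69fea5 MT], item SEQ: blocks.
-/

set_option autoImplicit false

namespace Pool.Agent.Work.MP_69fea5_lc.MT

open Filter

namespace SEQ_aux

theorem lt_s_succ {ι : Type} (F : Frame ι) (i : ℕ) :
    ∀ᶠ j in (F.U : Filter F.J), F.s i j < F.s (i + 1) j := by
  filter_upwards [F.fast i] with j h1
  have := fs_add (F.s i j)
  omega

theorem rep_zero {ι : Type} (F : Frame ι) :
    ∀ᶠ j in (F.U : Filter F.J), F.rep (0 : F.M) j = 0 := by
  have h : (0 : F.M) = F.el (fun _ => 0) (F.low_const 0) := rfl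
  rw [h]
  exact F.rep_el (F.low_const 0)

theorem rep_one {ι : Type} (F : Frame ι) :
    ∀ᶠ j in (F.U : Filter F.J), F.rep (1 : F.M) j = 1 := by
  have h : (1 : F.M) = F.el (fun _ => 1) (F.low_const 1) := rfl
  rw [h]
  exact F.rep_el (F.low_const 1)

theorem bs_zero (hBS : S_BS) : bs 0 = ∅ := by
  apply Finset.eq_empty_of_forall_notMem
  intro x hx
  exact absurd (hBS.2.2.1 0 x hx) (Nat.not_lt_zero x)

theorem blk_zero (u v : ℕ) : Blk u v 0 :=
  ⟨fun _ => bs v, rfl, fun i h1 h2 => by omega, fun i j h1 h2 => by omega⟩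

end SEQ_aux

open SEQ_aux

theorem iSEQ (hREL : S_REL) (hMOD : S_MOD) (hIND : S_IND) (hBS : S_BS) (hBST : S_BST)
    (hGEN : S_GEN) (hCARD : S_CARD) : S_SEQ := by
  intro F X v r hX hunb
  have key := hIND F.M F.toFrame.SS (hMOD F) _ (hGEN F X .blk v hX)
  refine key ?_ ?_ r
  · -- start
    refine ⟨0, ?_, ?_⟩
    · show ∀ᶠ j in (F.U : Filter F.J), F.R j .blk _ _ _
      filter_upwards [rep_zero F.toFrame] with j h1
      rw [F.hR j, h1]
      exact blk_zero _ _
    · intro x hx
      exfalso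
      have hx' : ∀ᶠ j in (F.U : Filter F.J), F.R j .bit (F.toFrame.rep 0 j) (F.toFrame.rep x j)
        (F.toFrame.rep x j) := hx
      have h2 : ∀ᶠ j in (F.U : Filter F.J), False := by
        filter_upwards [hx', rep_zero F.toFrame] with j h1 h0
        rw [F.hR j, h0] at h1
        have h3 : F.toFrame.rep x j ∈ bs 0 := h1
        rw [bs_zero hBS] at h3
        exact absurd h3 (Finset.notMem_empty _)
      simp only [eventually_false_iff_eq_bot] at h2
      exact F.U.neBot.ne h2
  · -- step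
    rintro r ⟨u, hu, huX⟩
    obtain ⟨i, hi⟩ := F.toFrame.low_add (F.toFrame.low_rep u) (F.toFrame.low_rep v)
    obtain ⟨u', hu', huX'⟩ := hCARD F X (u + v)
      (F.toFrame.el (fun j => 2 ^ F.s (i + 1) j) (F.toFrame.low_pow (F.toFrame.low_s (i + 1)))) hX
      hunb
    have hub : ∀ᶠ j in (F.U : Filter F.J), Blk (F.toFrame.rep u j) (F.toFrame.rep v j)
        (F.toFrame.rep r j) := by
      have h : ∀ᶠ j in (F.U : Filter F.J), F.R j .blk (F.toFrame.rep u j) (F.toFrame.rep v j)
        (F.toFrame.rep r j) := hu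
      filter_upwards [h] with j h1
      rw [F.hR j] at h1
      exact h1
    have huc : ∀ᶠ j in (F.U : Filter F.J), 2 ^ F.s (i + 1) j ≤ (bs (F.toFrame.rep u' j)).card ∧
        ∀ x ∈ bs (F.toFrame.rep u' j), F.toFrame.rep u j + F.toFrame.rep v j < x := by
      have h : ∀ᶠ j in (F.U : Filter F.J), F.R j .card (F.toFrame.rep u' j)
        (F.toFrame.rep (u + v) j) (F.toFrame.rep (F.toFrame.el (fun j => 2 ^ F.s (i + 1) j)
          (F.toFrame.low_pow (F.toFrame.low_s (i + 1)))) j) := hu'
      have h2 := ((hREL Sym F.toFrame u v (u + v)).1).1 rfl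
      filter_upwards [h, h2, F.toFrame.rep_el (F.toFrame.low_pow (F.toFrame.low_s (i + 1)))] with
        j h1 h3 h4
      rw [F.hR j, h4] at h1
      have h5 : 2 ^ F.s (i + 1) j ≤ (bs (F.toFrame.rep u' j)).card ∧
        ∀ x ∈ bs (F.toFrame.rep u' j), F.toFrame.rep (u + v) j < x := h1
      rw [← h3] at h5
      exact h5
    have hadd := ((hREL Sym F.toFrame u u' (u + u')).1).1 rfl
    have hadd1 := ((hREL Sym F.toFrame r 1 (r + 1)).1).1 rfl
    refine ⟨u + u', ?_, ?_⟩
    · show ∀ᶠ j in (F.U : Filter F.J), F.R j .blk _ _ _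
      filter_upwards [hub, huc, hadd, hadd1, rep_one F.toFrame, hi, lt_s_succ F.toFrame i,
        F.hS (i + 1)] with j h1 h2 h3 h4 h5 h6 h7 h8
      rw [F.hR j, ← h3, ← h4, h5]
      obtain ⟨a, b, -, hab⟩ := F.hSH j
      rw [hab] at h8
      obtain ⟨k, -, hk⟩ := Finset.mem_image.1 h8
      have h9 : F.toFrame.rep u j + F.toFrame.rep v j < H k := by
        rw [hk]
        exact lt_of_le_of_lt h6 h7
      refine hBST _ _ _ _ k h1 h9 ?_ h2.2
      rw [hk]
      exact h2.1
    · intro x hx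
      have hx' : ∀ᶠ j in (F.U : Filter F.J), F.R j .bit (F.toFrame.rep (u + u') j)
        (F.toFrame.rep x j) (F.toFrame.rep x j) := hx
      have h1 : ∀ᶠ j in (F.U : Filter F.J), F.toFrame.rep x j ∈ bs (F.toFrame.rep u j) ∨
          F.toFrame.rep x j ∈ bs (F.toFrame.rep u' j) := by
        filter_upwards [hx', huc, hadd] with j h1 h2 h3
        rw [F.hR j, ← h3] at h1
        have h4 : F.toFrame.rep x j ∈ bs (F.toFrame.rep u j + F.toFrame.rep u' j) := h1
        rw [hBS.2.2.2.2.2.2.2 _ _ (fun x hx y hy => by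
          have h5 := hBS.2.2.1 _ x hx
          have h6 := h2.2 y hy
          omega)] at h4
        exact Finset.mem_union.1 h4
      rcases Ultrafilter.eventually_or.1 h1 with h2 | h2
      · apply huX
        show ∀ᶠ j in (F.U : Filter F.J), F.R j .bit _ _ _
        filter_upwards [h2] with j h3
        rw [F.hR j]
        exact h3
      · apply huX'
        show ∀ᶠ j in (F.U : Filter F.J), F.R j .bit _ _ _
        filter_upwards [h2] with j h3
        rw [F.hR j]
        exact h3

end Pool.Agent.Work.MP_69fea5_lc.MT
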