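import Pool.Agent.Work.MP_69fea5_lc.MT.Stmts

/-!
Block [69fea5 MT], item SG: sum graphs in the model.  Author of this file: helper95.
-/

set_option autoImplicit false

namespace Pool.Agent.Work.MP_69fea5_lc.MT

open Filter

namespace SG_aux

theorem rep_zero (F : CFrame) : ∀ᶠ j in (F.U : Filter F.J), F.toFrame.rep (0 : F.M) j = 0 :=
  F.toFrame.rep_el (F.toFrame.low_const 0)

theorem rep_one (F : CFrame) : ∀ᶠ j in (F.U : Filter F.J), F.toFrame.rep (1 : F.M) j = 1 :=
  F.toFrame.rep_el (F.toFrame.low_const 1)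

theorem rm_bit (F : CFrame) (x y z : F.M) : F.toFrame.RM .bit x y z ↔
    ∀ᶠ j in (F.U : Filter F.J), F.toFrame.rep y j ∈ bs (F.toFrame.rep x j) := by
  unfold Frame.RM
  refine eventually_congr (Eventually.of_forall fun j => ?_)
  rw [F.hR j]
  exact Iff.rfl

theorem rm_sumof (F : CFrame) (x y z : F.M) : F.toFrame.RM .sumof x y z ↔
    ∀ᶠ j in (F.U : Filter F.J), sm (F.toFrame.rep x j) = F.toFrame.rep y j := by
  unfold Frame.RM
  refine eventually_congr (Eventually.of_forall fun j => ?_)
  rw [F.hR j]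
  exact Iff.rfl

/-- all digits of `u` are in `X` and below `k` -/
def Dig (F : CFrame) (X : Set F.M) (k u : F.M) : Prop :=
  ∀ x : F.M, F.toFrame.RM .bit u x x → x ∈ X ∧ x < k

/-- the sum graph -/
def G (F : CFrame) (X : Set F.M) : Set F.M :=
  {g | ∃ k n u : F.M, g = pr k n ∧ Dig F X k u ∧ F.toFrame.RM .sumof u n n}

theorem G_mem (hRPC : S_RPC) (hCMP : S_CMP) (F : CFrame) (X : Set F.M)
    (hX : X ∈ F.toFrame.SS) : G F X ∈ F.toFrame.SS := by
  obtain ⟨hrel, hnot, hand, hex, hmem, hset⟩ := hRPC Sym F.toFrame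
  have h1 := hrel 5 Sym.bit (Sum.inl 1) (Sum.inl 0) (Sum.inl 0)
  have h2 := hmem 5 0 X hX
  have h3 := hnot 5 _ (hCMP F 5 _ (Arith.le (3 : Fin 5) (0 : Fin 5)))
  have h4 := hnot 5 _ (hand 5 _ _ h2 h3)
  have h5 := hex 4 _ (hand 5 _ _ h1 h4)
  have h6 := hnot 4 _ h5
  have h7 := hrel 4 Sym.sumof (Sum.inl 0) (Sum.inl 1) (Sum.inl 1)
  have h8 := hCMP F 4 _ (Arith.ex _ (Arith.and _ _ (Arith.add (3 : Fin 5) (2 : Fin 5) (0 : Fin 5))
    (Arith.ex _ (Arith.and _ _ (Arith.mul (1 : Fin 6) (1 : Fin 6) (0 : Fin 6))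
      (Arith.add (0 : Fin 6) (4 : Fin 6) (5 : Fin 6))))))
  have h9 := hset _ (hex 1 _ (hex 2 _ (hex 3 _ (hand 4 _ _ h8 (hand 4 _ _ h6 h7)))))
  refine (iff_of_eq (congrArg (fun Y => Y ∈ F.toFrame.SS) ?_)).mp h9
  ext g
  constructor
  · rintro ⟨k, n, u, ⟨s, hs, q, hq1, hq2⟩, hd, hu⟩
    refine ⟨k, n, u, ?_, ?_, hu⟩
    · have hs' : k + n = s := hs
      have hq1' : s * s = q := hq1
      have hq2' : q + k = g := hq2
      rw [← hq2', ← hq1', ← hs']
      rfl
    · intro x hx
      by_contra hc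
      apply hd
      refine ⟨x, hx, ?_⟩
      rintro ⟨ha, hb⟩
      exact hc ⟨ha, not_le.1 hb⟩
  · rintro ⟨k, n, u, hg, hd, hu⟩
    refine ⟨k, n, u, ⟨k + n, rfl, (k + n) * (k + n), rfl, ?_⟩, ?_, hu⟩
    · exact hg.symm
    · rintro ⟨x, hx, hc⟩
      obtain ⟨ha, hb⟩ := hd x hx
      exact hc ⟨ha, not_le.2 hb⟩

theorem bs_zero (hBS : S_BS) : bs 0 = ∅ := by
  have h := hBS.2.1 ∅
  simpa using h

theorem sm_zero (hBS : S_BS) : sm 0 = 0 := by
  unfold sm
  rw [bs_zero hBS, Finset.sum_empty]

/-- no digits -/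
theorem no_dig (hBS : S_BS) (F : CFrame) (u : F.M) (h : ∀ x : F.M, ¬ F.toFrame.RM .bit u x x) :
    ∀ᶠ j in (F.U : Filter F.J), bs (F.toFrame.rep u j) = ∅ := by
  by_contra hc
  have hc2 : ∀ᶠ j in (F.U : Filter F.J), ¬ bs (F.toFrame.rep u j) = ∅ :=
    Ultrafilter.eventually_not.2 hc
  classical
  have hex : ∀ j, ∃ x, x ≤ F.toFrame.rep u j ∧
      (¬ bs (F.toFrame.rep u j) = ∅ → x ∈ bs (F.toFrame.rep u j)) := by
    intro j
    by_cases hj : bs (F.toFrame.rep u j) = ∅
    · exact ⟨0, Nat.zero_le _, fun h => absurd hj h⟩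
    · obtain ⟨x, hx⟩ := Finset.nonempty_iff_ne_empty.2 hj
      exact ⟨x, (hBS.2.2.1 _ x hx).le, fun _ => hx⟩
  choose x hx1 hx2 using hex
  have hlow : F.toFrame.Low x :=
    F.toFrame.low_le (F.toFrame.low_rep u) (Eventually.of_forall hx1)
  apply h (F.toFrame.el x hlow)
  rw [rm_bit]
  filter_upwards [F.toFrame.rep_el hlow, hc2] with j h1 h2
  rw [h1]
  exact hx2 j h2

theorem lt_succ (hREL : S_REL) (F : CFrame) (x k : F.M) : x < k + 1 ↔ x ≤ k := by
  have h1 := (hREL Sym F.toFrame x (k + 1) k).2.2.2.1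
  have h2 := (hREL Sym F.toFrame x k k).2.2.1
  have h3 := (hREL Sym F.toFrame k 1 (k + 1)).1.1 rfl
  rw [h1, h2]
  constructor
  · intro h
    filter_upwards [h, h3, rep_one F] with j a b c
    omega
  · intro h
    filter_upwards [h, h3, rep_one F] with j a b c
    omega

end SG_aux

open SG_aux in
/-- ITEM SG. -/
theorem iSG (hREL : S_REL) (hRPC : S_RPC) (hCMP : S_CMP) (hMOD : S_MOD) (hPRI : S_PRI)
    (hBS : S_BS) : S_SG := by
  intro F X hX
  have hM := hMOD F
  have hzero := hM.zero_le
  have hpr := hPRI F.M F.toFrame.SS hM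
  have hlt0 : ∀ x : F.M, ¬ x < 0 := fun x h => absurd (hzero x) (not_le.2 h)
  have hmemG : ∀ k n : F.M, pr k n ∈ G F X ↔
      ∃ u : F.M, Dig F X k u ∧ F.toFrame.RM .sumof u n n := by
    intro k n
    constructor
    · rintro ⟨k', n', u, he, hd, hu⟩
      obtain ⟨h1, h2⟩ := hpr _ _ _ _ he
      subst h1
      subst h2
      exact ⟨u, hd, hu⟩
    · rintro ⟨u, hd, hu⟩
      exact ⟨k, n, u, rfl, hd, hu⟩
  refine ⟨G F X, G_mem hRPC hCMP F X hX, ⟨?_, ?_⟩, ?_⟩
  · -- zero
    intro n
    rw [hmemG]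
    constructor
    · rintro ⟨u, hd, hu⟩
      have h1 := no_dig hBS F u fun x hx => hlt0 x (hd x hx).2
      rw [rm_sumof] at hu
      refine (hREL Sym F.toFrame n 0 0).2.2.2.2.2 ?_
      filter_upwards [h1, hu, rep_zero F] with j a b c
      rw [← b, c]
      unfold sm
      rw [a, Finset.sum_empty]
    · intro hn
      subst hn
      refine ⟨0, ?_, ?_⟩
      · intro x hx
        exfalso
        rw [rm_bit] at hx
        have : ∀ᶠ j in (F.U : Filter F.J), False := by
          filter_upwards [hx, rep_zero F] with j a b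
          rw [b, bs_zero hBS] at a
          exact Finset.notMem_empty _ a
        obtain ⟨j, hj⟩ := this.exists
        exact hj
      · rw [rm_sumof]
        filter_upwards [rep_zero F] with j a
        rw [a]
        exact sm_zero hBS
  · -- succ
    intro k n
    rw [hmemG, hmemG]
    constructor
    · rintro ⟨u, hd, hu⟩
      by_cases hk : F.toFrame.RM .bit u k k
      · right
        refine ⟨(hd k hk).1, ?_⟩
        rw [rm_bit] at hk
        rw [rm_sumof] at hu
        have hle : ∀ j, (∑ x ∈ (bs (F.toFrame.rep u j)).erase (F.toFrame.rep k j), 2 ^ x) ≤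
            F.toFrame.rep u j := by
          intro j
          apply hBS.2.2.2.2.2.1
          rw [hBS.2.1]
          exact Finset.erase_subset _ _
        have hlow : F.toFrame.Low
            fun j => ∑ x ∈ (bs (F.toFrame.rep u j)).erase (F.toFrame.rep k j), 2 ^ x :=
          F.toFrame.low_le (F.toFrame.low_rep u) (Eventually.of_forall hle)
        have hlow2 : F.toFrame.Low
            fun j => sm (∑ x ∈ (bs (F.toFrame.rep u j)).erase (F.toFrame.rep k j), 2 ^ x) :=
          F.toFrame.low_le hlow (Eventually.of_forall fun j => hBS.2.2.2.1 _)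
        have hu' := F.toFrame.rep_el hlow
        have hn' := F.toFrame.rep_el hlow2
        refine ⟨F.toFrame.el _ hlow2, ?_, ?_⟩
        · refine Eq.symm ((hREL Sym F.toFrame _ k n).1.2 ?_)
          filter_upwards [hn', hk, hu] with j a b c
          rw [a, ← c, hBS.2.2.2.2.1]
          unfold sm
          exact Finset.sum_erase_add _ _ b
        · rw [hmemG]
          refine ⟨F.toFrame.el _ hlow, ?_, ?_⟩
          · intro x hx
            rw [rm_bit] at hx
            have hx1 : F.toFrame.RM .bit u x x := by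
              rw [rm_bit]
              filter_upwards [hx, hu'] with j a b
              rw [b, hBS.2.1] at a
              exact Finset.mem_of_mem_erase a
            obtain ⟨h1, h2⟩ := hd x hx1
            refine ⟨h1, lt_of_le_of_ne ((lt_succ hREL F x k).1 h2) ?_⟩
            intro he
            subst he
            have : ∀ᶠ j in (F.U : Filter F.J), False := by
              filter_upwards [hx, hu'] with j a b
              rw [b, hBS.2.1] at a
              exact (Finset.mem_erase.1 a).1 rfl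
            obtain ⟨j, hj⟩ := this.exists
            exact hj
          · rw [rm_sumof]
            filter_upwards [hu', hn'] with j a b
            rw [a, b]
      · left
        refine ⟨u, ?_, hu⟩
        intro x hx
        obtain ⟨h1, h2⟩ := hd x hx
        refine ⟨h1, lt_of_le_of_ne ((lt_succ hREL F x k).1 h2) ?_⟩
        intro he
        subst he
        exact hk hx
    · rintro (⟨u, hd, hu⟩ | ⟨hk, n', hn, hu'⟩)
      · refine ⟨u, ?_, hu⟩
        intro x hx
        obtain ⟨h1, h2⟩ := hd x hx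
        exact ⟨h1, (lt_succ hREL F x k).2 h2.le⟩
      · rw [hmemG] at hu'
        obtain ⟨u, hd, hu⟩ := hu'
        rw [rm_sumof] at hu
        have hnk : ∀ᶠ j in (F.U : Filter F.J),
            F.toFrame.rep k j ∉ bs (F.toFrame.rep u j) := by
          rw [Ultrafilter.eventually_not]
          intro h
          exact lt_irrefl k (hd k ((rm_bit F u k k).2 h)).2
        have hle : ∀ j, (∑ x ∈ insert (F.toFrame.rep k j) (bs (F.toFrame.rep u j)), 2 ^ x) ≤
            F.toFrame.rep u j + 2 ^ F.toFrame.rep k j := by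
          intro j
          by_cases h : F.toFrame.rep k j ∈ bs (F.toFrame.rep u j)
          · rw [Finset.insert_eq_of_mem h, hBS.1]
            exact Nat.le_add_right _ _
          · rw [Finset.sum_insert h, hBS.1, add_comm]
        have hlow : F.toFrame.Low
            fun j => ∑ x ∈ insert (F.toFrame.rep k j) (bs (F.toFrame.rep u j)), 2 ^ x :=
          F.toFrame.low_le (F.toFrame.low_add (F.toFrame.low_rep u)
            (F.toFrame.low_pow (F.toFrame.low_rep k))) (Eventually.of_forall hle)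
        have hw := F.toFrame.rep_el hlow
        refine ⟨F.toFrame.el _ hlow, ?_, ?_⟩
        · intro x hx
          rw [rm_bit] at hx
          have hx2 : ∀ᶠ j in (F.U : Filter F.J), F.toFrame.rep x j = F.toFrame.rep k j ∨
              F.toFrame.rep x j ∈ bs (F.toFrame.rep u j) := by
            filter_upwards [hx, hw] with j a b
            rw [b, hBS.2.1] at a
            exact Finset.mem_insert.1 a
          rcases Ultrafilter.eventually_or.1 hx2 with h | h
          · have he : x = k := (hREL Sym F.toFrame x k k).2.2.2.2.2 h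
            subst he
            exact ⟨hk, (lt_succ hREL F x x).2 le_rfl⟩
          · obtain ⟨h1, h2⟩ := hd x ((rm_bit F u x x).2 h)
            exact ⟨h1, (lt_succ hREL F x k).2 h2.le⟩
        · rw [rm_sumof]
          have hnn := (hREL Sym F.toFrame n' k n).1.1 hn.symm
          filter_upwards [hw, hu, hnk, hnn] with j a b c d
          rw [a, hBS.2.2.2.2.1, Finset.sum_insert c, ← d, ← b, add_comm]
          rfl
  · intro u n hin hu
    refine ⟨u, ?_⟩
    rw [hmemG]
    refine ⟨u, ?_, hu⟩
    intro x hx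
    refine ⟨hin x hx, ?_⟩
    refine (hREL Sym F.toFrame x u u).2.2.2.1.2 ?_
    rw [rm_bit] at hx
    filter_upwards [hx] with j a
    exact hBS.2.2.1 _ _ a

end Pool.Agent.Work.MP_69fea5_lc.MT
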