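import Pool.Agent.Work.MP_69fea5_lc.MT.Stmts

/-!
Block [69fea5 MT], item SGU: uniqueness of sum graphs in a model of `ACA_0`.
-/

set_option autoImplicit false

namespace Pool.Agent.Work.MP_69fea5_lc.MT

namespace SGU_aux

variable {M : Type} [CommSemiring M] [LinearOrder M] {SS : Set (Set M)}

/-- membership of a pair -/
theorem arith_pr {n : ℕ} (a b : Fin n) (X : Set M) (hX : X ∈ SS) :
    Arith SS n fun v => pr (v a) (v b) ∈ X := by
  have h3 : Arith SS (n + 3) fun v => v 1 + v (a.succ.succ.succ) = v 0 ∧ v 0 ∈ X :=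
    .and _ _ (.add 1 (a.succ.succ.succ) 0) (.mem 0 X hX)
  have h2 : Arith SS (n + 2) fun v => v 1 * v 1 = v 0 ∧
      ∃ x, (Fin.cons x v : Fin (n + 3) → M) 1 +
        (Fin.cons x v : Fin (n + 3) → M) (a.succ.succ.succ) = (Fin.cons x v : Fin (n + 3) → M) 0 ∧
        (Fin.cons x v : Fin (n + 3) → M) 0 ∈ X :=
    .and _ _ (.mul 1 1 0) (.ex _ h3)
  have h1 : Arith SS (n + 1) fun v => v a.succ + v b.succ = v 0 ∧
      ∃ y, (fun v : Fin (n + 2) → M => v 1 * v 1 = v 0 ∧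
      ∃ x, (Fin.cons x v : Fin (n + 3) → M) 1 +
        (Fin.cons x v : Fin (n + 3) → M) (a.succ.succ.succ) = (Fin.cons x v : Fin (n + 3) → M) 0 ∧
        (Fin.cons x v : Fin (n + 3) → M) 0 ∈ X) (Fin.cons y v) :=
    .and _ _ (.add a.succ b.succ 0) (.ex _ h2)
  have h0 := Arith.ex _ h1
  have e : (fun v : Fin n → M => pr (v a) (v b) ∈ X) = fun v => ∃ z,
      (fun v : Fin (n + 1) → M => v a.succ + v b.succ = v 0 ∧
      ∃ y, (fun v : Fin (n + 2) → M => v 1 * v 1 = v 0 ∧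
      ∃ x, (Fin.cons x v : Fin (n + 3) → M) 1 +
        (Fin.cons x v : Fin (n + 3) → M) (a.succ.succ.succ) = (Fin.cons x v : Fin (n + 3) → M) 0 ∧
        (Fin.cons x v : Fin (n + 3) → M) 0 ∈ X) (Fin.cons y v)) (Fin.cons z v) := by
    funext v
    apply propext
    have e1 : ∀ {m : ℕ} (x : M) (w : Fin (m + 1) → M),
        (Fin.cons x w : Fin (m + 2) → M) 1 = w 0 := fun x w => rfl
    have e0 : ∀ {m : ℕ} (x : M) (w : Fin m → M),
        (Fin.cons x w : Fin (m + 1) → M) 0 = x := fun x w => rfl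
    have es : ∀ {m : ℕ} (x : M) (w : Fin m → M) (i : Fin m),
        (Fin.cons x w : Fin (m + 1) → M) i.succ = w i := fun x w i => rfl
    simp only [e1, e0, es]
    constructor
    · intro h
      exact ⟨_, rfl, _, rfl, _, rfl, h⟩
    · rintro ⟨s, rfl, t, rfl, u, rfl, h⟩
      exact h
  rw [e]
  exact h0

theorem arith_iff {n : ℕ} {R T : (Fin n → M) → Prop} (hR : Arith SS n R) (hT : Arith SS n T) :
    Arith SS n fun v => (R v ↔ T v) := by
  have h := Arith.and _ _ (.not _ (.and _ _ hR (.not _ hT))) (.not _ (.and _ _ hT (.not _ hR)))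
  have e : (fun v : Fin n → M => (R v ↔ T v)) =
      fun v => ¬ (R v ∧ ¬ T v) ∧ ¬ (T v ∧ ¬ R v) := by
    funext v
    apply propext
    tauto
  rw [e]
  exact h

theorem arith_all {n : ℕ} {R : (Fin (n + 1) → M) → Prop} (hR : Arith SS (n + 1) R) :
    Arith SS n fun v => ∀ x, R (Fin.cons x v) := by
  have h := Arith.not _ (Arith.ex _ (.not _ hR))
  have e : (fun v : Fin n → M => ∀ x, R (Fin.cons x v)) =
      fun v => ¬ ∃ x, ¬ R (Fin.cons x v) := by
    funext v
    apply propext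
    push Not
    exact Iff.rfl
  rw [e]
  exact h

end SGU_aux

open SGU_aux in
/-- [SGU] uniqueness of sum graphs -/
theorem iSGU (hIND : S_IND) : S_SGU := by
  intro M _ _ SS hM X G G' hG hG' hX hX'
  have hA : Arith SS 1 fun v => ∀ x, (fun w : Fin 2 → M => (pr (w 1) (w 0) ∈ G ↔
      pr (w 1) (w 0) ∈ G')) (Fin.cons x v) :=
    arith_all (arith_iff (arith_pr 1 0 G hG) (arith_pr 1 0 G' hG'))
  have hZ : {k : M | ∀ n, pr k n ∈ G ↔ pr k n ∈ G'} ∈ SS := hM.comprehension _ hA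
  refine hIND M SS hM _ hZ ?_ ?_
  · intro n
    rw [hX.zero, hX'.zero]
  · intro k hk n
    rw [hX.succ, hX'.succ]
    have hk' : ∀ n, pr k n ∈ G ↔ pr k n ∈ G' := hk
    simp only [hk']

end Pool.Agent.Work.MP_69fea5_lc.MT
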