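import Pool.Agent.Work.MP_69fea5_lc.MT.Stmts

/-!
Block [69fea5 MT], item TRU: the truth lemma.
-/

set_option autoImplicit false

namespace Pool.Agent.Work.MP_69fea5_lc.MT

open Filter

namespace TRU_aux

variable {ι : Type}

lemma rep_cons (F : Frame ι) {n : ℕ} (z : F.M) (v : Fin n → F.M) (j : F.J) :
    (fun l => F.rep ((Fin.cons z v : Fin (n + 1) → F.M) l) j) =
      (Fin.cons (F.rep z j) fun l => F.rep (v l) j : Fin (n + 1) → ℕ) := by
  funext l
  refine Fin.cases ?_ (fun l => ?_) l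
  · simp
  · simp

lemma all_low (F : Frame ι) {n : ℕ} (v : Fin n → F.M) :
    ∃ i, ∀ᶠ j in (F.U : Filter F.J), ∀ l, F.rep (v l) j ≤ F.s i j := by
  choose i hi using fun l => F.low_rep (v l)
  refine ⟨Finset.univ.sup i, ?_⟩
  rw [eventually_all]
  intro l
  filter_upwards [hi l, F.s_mono (Finset.le_sup (f := i) (Finset.mem_univ l))] with j h1 h2
  exact h1.trans h2

end TRU_aux

open TRU_aux in
theorem iTRU : S_TRU := by
  intro ι F n φ
  induction φ with
  | rel i a b c => intro v; rfl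
  | neg φ ih =>
    intro v
    show ¬ Sat F.RM φ v ↔ ∀ᶠ j in (F.U : Filter F.J), ¬ Bd (F.R j) (F.E j) φ fun l => F.rep (v l) j
    rw [Ultrafilter.eventually_not, ih v]
  | and φ ψ ih1 ih2 =>
    intro v
    show Sat F.RM φ v ∧ Sat F.RM ψ v ↔ ∀ᶠ j in (F.U : Filter F.J),
      (Bd (F.R j) (F.E j) φ fun l => F.rep (v l) j) ∧ Bd (F.R j) (F.E j) ψ fun l => F.rep (v l) j
    rw [eventually_and, ih1 v, ih2 v]
  | @ex n φ ih =>
    intro v
    show (∃ z, Sat F.RM φ (Fin.cons z v)) ↔ ∀ᶠ j in (F.U : Filter F.J),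
      ∃ z < F.E j ⟨_, φ⟩, Bd (F.R j) (F.E j) φ (Fin.cons z fun l => F.rep (v l) j)
    constructor
    · rintro ⟨z, hz⟩
      rw [ih] at hz
      obtain ⟨i, hi⟩ := F.low_rep z
      filter_upwards [hz, hi, F.fast i, F.bdd (i + 1) ⟨_, φ⟩] with j h1 h2 h3 h4
      rw [rep_cons] at h1
      have h5 := fs_add (F.s i j)
      exact ⟨F.rep z j, by omega, h1⟩
    · intro h
      obtain ⟨i, hi⟩ := all_low F v
      have h1 : ∀ᶠ j in (F.U : Filter F.J), ∃ z < F.s (i + 1 + 1) j,
          Bd (F.R j) (F.E j) φ (Fin.cons z fun l => F.rep (v l) j) := by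
        filter_upwards [h, hi, F.fast i, F.star _ φ (i + 1)] with j h1 h2 h3 h4
        refine h4 _ (fun l => ?_) h1
        have h5 : 2 ^ F.s i j ≤ F.s (i + 1) j := (fs_pow (F.s i j)).trans h3
        have h6 : F.s i j ≤ Nat.log 2 (F.s (i + 1) j) := by
          refine Nat.le_log_of_pow_le (by norm_num) h5
        exact (h2 l).trans h6
      classical
      let z : F.J → ℕ := fun j =>
        if hj : ∃ z < F.s (i + 1 + 1) j,
          Bd (F.R j) (F.E j) φ (Fin.cons z fun l => F.rep (v l) j) then hj.choose else 0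
      have hz1 : ∀ᶠ j in (F.U : Filter F.J), z j < F.s (i + 1 + 1) j ∧
          Bd (F.R j) (F.E j) φ (Fin.cons (z j) fun l => F.rep (v l) j) := by
        filter_upwards [h1] with j hj
        have e : z j = hj.choose := dif_pos hj
        rw [e]
        exact hj.choose_spec
      have hlow : F.Low z := by
        refine ⟨i + 1 + 1, ?_⟩
        filter_upwards [hz1] with j hj
        exact hj.1.le
      refine ⟨F.el z hlow, ?_⟩
      rw [ih]
      filter_upwards [hz1, F.rep_el hlow] with j h2 h3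
      rw [rep_cons, h3]
      exact h2.2

end Pool.Agent.Work.MP_69fea5_lc.MT
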