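import Pool.Agent.Work.MP_69fea5_lc.MT.Asm0
import Pool.Agent.Work.MP_69fea5_lc.MT.I_BHM
import Pool.Agent.Work.MP_69fea5_lc.MT.I_BS
import Pool.Agent.Work.MP_69fea5_lc.MT.I_BST
import Pool.Agent.Work.MP_69fea5_lc.MT.I_CARD
import Pool.Agent.Work.MP_69fea5_lc.MT.I_CMP
import Pool.Agent.Work.MP_69fea5_lc.MT.I_COL
import Pool.Agent.Work.MP_69fea5_lc.MT.I_DIV
import Pool.Agent.Work.MP_69fea5_lc.MT.I_FAIL
import Pool.Agent.Work.MP_69fea5_lc.MT.I_FL
import Pool.Agent.Work.MP_69fea5_lc.MT.I_FRM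
import Pool.Agent.Work.MP_69fea5_lc.MT.I_GEN
import Pool.Agent.Work.MP_69fea5_lc.MT.I_GRD
import Pool.Agent.Work.MP_69fea5_lc.MT.I_IND
import Pool.Agent.Work.MP_69fea5_lc.MT.I_LAB
import Pool.Agent.Work.MP_69fea5_lc.MT.I_LEV
import Pool.Agent.Work.MP_69fea5_lc.MT.I_LOC
import Pool.Agent.Work.MP_69fea5_lc.MT.I_LST
import Pool.Agent.Work.MP_69fea5_lc.MT.I_MOD
import Pool.Agent.Work.MP_69fea5_lc.MT.I_OM
import Pool.Agent.Work.MP_69fea5_lc.MT.I_ORD
import Pool.Agent.Work.MP_69fea5_lc.MT.I_PIG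
import Pool.Agent.Work.MP_69fea5_lc.MT.I_PRI
import Pool.Agent.Work.MP_69fea5_lc.MT.I_REL
import Pool.Agent.Work.MP_69fea5_lc.MT.I_REN
import Pool.Agent.Work.MP_69fea5_lc.MT.I_RPC
import Pool.Agent.Work.MP_69fea5_lc.MT.I_SEQ
import Pool.Agent.Work.MP_69fea5_lc.MT.I_SG
import Pool.Agent.Work.MP_69fea5_lc.MT.I_SGU
import Pool.Agent.Work.MP_69fea5_lc.MT.I_TRU

/-!
Block [69fea5 MT], final assembly of the metatheorem: if there are painters (`StP K`) for all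
towers `om n`, with `K n` colours, then there is a model of `ACA_0` in which Hindman's theorem
fails for some number of colours (`S_RESULT`).
-/

set_option autoImplicit false

namespace Pool.Agent.Work.MP_69fea5_lc.MT

theorem aRPC : S_RPC := iRPC iREN
theorem aCMP : S_CMP := iCMP iREL aRPC
theorem aLST : S_LST := iLST iTRU iREL
theorem aMOD : S_MOD := iMOD iORD aRPC aCMP aLST
theorem aLEV : S_LEV := iLEV iLOC
theorem aFRM : S_FRM := iFRM iOM (iGRD iLAB) aLEV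
theorem aCOL : S_COL := iCOL iREL aRPC aCMP
theorem aSG : S_SG := iSG iREL aRPC aCMP aMOD iPRI iBS
theorem aGEN : S_GEN := iGEN aRPC
theorem aCARD : S_CARD := iCARD iREL aMOD iIND iBS aGEN
theorem aDIV : S_DIV := iDIV iBS iPIG aCARD
theorem aBST : S_BST := iBST iBS iFL iPIG
theorem aSEQ : S_SEQ := iSEQ iREL aMOD iIND iBS aBST aGEN aCARD
theorem aBHM : S_BHM := iBHM iBS iFL
theorem aSGU : S_SGU := iSGU iIND
theorem aFAIL : S_FAIL := iFAIL iREL aMOD aSGU iBS iFL aBHM aSEQ aDIV aSG aCOL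

/-- THE METATHEOREM. -/
theorem main : S_RESULT := resultOf aFRM iREL aMOD aSG aCOL aFAIL

end Pool.Agent.Work.MP_69fea5_lc.MT
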