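import Pool.Agent.Work.MP_69fea5_lc.MT.Stmts

/-!
Block [69fea5 MT]: assembly of the result from the items.
-/

set_option autoImplicit false

namespace Pool.Agent.Work.MP_69fea5_lc.MT

open Filter

theorem natCast_eq {ι : Type} (F : Frame ι) (K0 : ℕ) :
    ((K0 : F.M)) = F.el (fun _ => K0) (F.low_const K0) := by
  apply Subtype.ext
  show ((K0 : F.M) : F.N) = ((fun _ => K0 : F.J → ℕ) : F.N)
  have h1 : ((K0 : F.M) : F.N) = (K0 : F.N) := by
    first
    | exact SubsemiringClass.coe_natCast F.cut K0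
    | norm_cast
    | simp
  rw [h1]
  rfl

theorem resultOf (hFRM : S_FRM) (hREL : S_REL) (hMOD : S_MOD) (hSG : S_SG) (hCOL : S_COL)
    (hFAIL : S_FAIL) : S_RESULT := by
  intro K hK
  obtain ⟨F, hF⟩ := hFRM K hK
  obtain ⟨-, k, hk, hkj⟩ := hCOL F
  refine ⟨F.M, inferInstance, inferInstance, F.toFrame.SS, hMOD F, ?_, k, F.c, hk, hFAIL F, ?_⟩
  · intro X hX
    obtain ⟨G, hG, hGX, -⟩ := hSG F X hX
    exact ⟨G, hG, hGX⟩
  · intro K0 hK0
    have h1 := hF K0 hK0
    rw [natCast_eq, ← F.toFrame.el_rep k, F.toFrame.el_eq]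
    filter_upwards [hkj] with j hj
    rw [hj, h1 j]

end Pool.Agent.Work.MP_69fea5_lc.MT
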