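import Pool.Agent.Work.MP_69fea5_lc.MT.GT

/-!
Block [69fea5 MT]: definable relations with parameters form a class closed under the first order
operations.
-/

set_option autoImplicit false

namespace Pool.Agent.Work.MP_69fea5_lc.MT.GT

open Function

section DefS

variable {M : Type} {At : ℕ → (ℕ → M) → Prop}

/-- satisfaction depends only on the coordinates `≤ j` -/
theorem sat_dep (hd : ∀ i, ∀ e e' : ℕ → M, (∀ k ≤ i, e k = e' k) → (At i e ↔ At i e')) :
    ∀ j, ∀ e e' : ℕ → M, (∀ k ≤ j, e k = e' k) → (Sat At j e ↔ Sat At j e') := by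
  intro j
  induction j using Nat.strong_induction_on with
  | _ j ih =>
    intro e e' he
    cases hj : node j with
    | atom i =>
      rw [sat_atom At hj, sat_atom At hj]
      exact hd i e e' fun k hk => he k (le_trans hk (node_atom_le hj))
    | bot => exact iff_of_false (sat_bot At hj _) (sat_bot At hj _)
    | imp a b =>
      have hab := node_imp_lt hj
      rw [sat_imp At hj, sat_imp At hj, ih a hab.1 e e' fun k hk => he k (by omega),
        ih b hab.2 e e' fun k hk => he k (by omega)]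
    | ex x a =>
      have ha := node_ex_lt hj
      rw [sat_ex At hj, sat_ex At hj]
      apply exists_congr
      intro m
      apply ih a ha.2
      intro k hk
      by_cases hkx : k = x
      · subst hkx; simp
      · rw [update_of_ne hkx, update_of_ne hkx]
        exact he k (by omega)

/-- renaming of the variables -/
theorem sat_ren (hd : ∀ i, ∀ e e' : ℕ → M, (∀ k ≤ i, e k = e' k) → (At i e ↔ At i e'))
    (hr : ∀ i (ρ : ℕ → ℕ), ∃ i', ∀ e : ℕ → M, At i' e ↔ At i fun k => e (ρ k)) :
    ∀ j (ρ : ℕ → ℕ), ∃ j', ∀ e : ℕ → M, Sat At j' e ↔ Sat At j fun k => e (ρ k) := by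
  intro j
  induction j using Nat.strong_induction_on with
  | _ j ih =>
    intro ρ
    cases hj : node j with
    | atom i =>
      obtain ⟨i', hi'⟩ := hr i ρ
      refine ⟨mkAtom i', fun e => ?_⟩
      rw [sat_atom At hj, sat_atom At (node_mkAtom i'), hi']
    | bot =>
      refine ⟨mkBot, fun e => ?_⟩
      exact iff_of_false (sat_bot At node_mkBot _) (sat_bot At hj _)
    | imp a b =>
      have hab := node_imp_lt hj
      obtain ⟨a', ha'⟩ := ih a hab.1 ρ
      obtain ⟨b', hb'⟩ := ih b hab.2 ρ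
      refine ⟨mkImp a' b', fun e => ?_⟩
      rw [sat_imp At hj, sat_imp At (node_mkImp a' b'), ha', hb']
    | ex x a =>
      have ha := node_ex_lt hj
      -- a fresh variable
      obtain ⟨z, hz⟩ : ∃ z, ∀ k ≤ a, ρ k < z := by
        refine ⟨(Finset.range (a + 1)).sup ρ + 1, fun k hk => ?_⟩
        exact Nat.lt_succ_of_le (Finset.le_sup (Finset.mem_range.2 (by omega)))
      obtain ⟨a', ha'⟩ := ih a ha.2 (update ρ x z)
      refine ⟨mkEx z a', fun e => ?_⟩
      rw [sat_ex At hj, sat_ex At (node_mkEx z a')]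
      apply exists_congr
      intro m
      rw [ha']
      apply sat_dep hd
      intro k hk
      by_cases hkx : k = x
      · subst hkx; simp
      · rw [update_of_ne hkx, update_of_ne hkx, update_of_ne (hz k hk).ne]

/-- even coordinates: variables; odd coordinates: parameters -/
def mix (e q : ℕ → M) : ℕ → M := fun k => if k % 2 = 0 then e (k / 2) else q (k / 2)

theorem mix_even (e q : ℕ → M) (k : ℕ) : mix e q (2 * k) = e k := by
  unfold mix
  rw [if_pos (by omega)]
  congr 1
  omega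

theorem mix_odd (e q : ℕ → M) (k : ℕ) : mix e q (2 * k + 1) = q k := by
  unfold mix
  rw [if_neg (by omega)]
  congr 1
  omega

theorem mix_update (e q : ℕ → M) (x : ℕ) (m : M) :
    mix (update e x m) q = update (mix e q) (2 * x) m := by
  funext k
  by_cases hk : k = 2 * x
  · subst hk
    rw [mix_even, update_self, update_self]
  · rw [update_of_ne hk]
    unfold mix
    split_ifs with h
    · rw [update_of_ne (by omega)]
    · rfl

variable (At)

/-- definable with parameters -/
def DefS (X : Set (ℕ → M)) : Prop := ∃ j q, ∀ e, e ∈ X ↔ Sat At j (mix e q)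

variable {At}

theorem DefS.congr {X Y : Set (ℕ → M)} (h : DefS At X) (hXY : ∀ e, e ∈ Y ↔ e ∈ X) :
    DefS At Y := by
  have : Y = X := Set.ext hXY
  rw [this]
  exact h

theorem DefS.ex {X : Set (ℕ → M)} (h : DefS At X) (x : ℕ) :
    DefS At {e | ∃ m, update e x m ∈ X} := by
  obtain ⟨j, q, hj⟩ := h
  refine ⟨mkEx (2 * x) j, q, fun e => ?_⟩
  rw [sat_ex At (node_mkEx _ _)]
  apply exists_congr
  intro m
  rw [hj, mix_update]

theorem DefS.empty [Nonempty M] : DefS At (∅ : Set (ℕ → M)) := by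
  obtain ⟨m⟩ := ‹Nonempty M›
  refine ⟨mkBot, fun _ => m, fun e => ?_⟩
  exact iff_of_false (Set.notMem_empty e) (sat_bot At node_mkBot _)

variable (hd : ∀ i, ∀ e e' : ℕ → M, (∀ k ≤ i, e k = e' k) → (At i e ↔ At i e'))
  (hr : ∀ i (ρ : ℕ → ℕ), ∃ i', ∀ e : ℕ → M, At i' e ↔ At i fun k => e (ρ k))

include hd hr

theorem DefS.imp {X Y : Set (ℕ → M)} (hX : DefS At X) (hY : DefS At Y) :
    DefS At {e | e ∈ X → e ∈ Y} := by
  obtain ⟨a, p, ha⟩ := hX
  obtain ⟨b, q, hb⟩ := hY
  obtain ⟨a', ha'⟩ := sat_ren hd hr a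
    (fun k => if k % 2 = 0 then k else 2 * (2 * (k / 2)) + 1)
  obtain ⟨b', hb'⟩ := sat_ren hd hr b
    (fun k => if k % 2 = 0 then k else 2 * (2 * (k / 2) + 1) + 1)
  refine ⟨mkImp a' b', mix p q, fun e => ?_⟩
  rw [sat_imp At (node_mkImp _ _), ha', hb']
  have e1 : (fun k => mix e (mix p q) (if k % 2 = 0 then k else 2 * (2 * (k / 2)) + 1)) =
      mix e p := by
    funext k
    by_cases h : k % 2 = 0
    · rw [if_pos h]
      unfold mix
      rw [if_pos h, if_pos h]
    · rw [if_neg h, mix_odd, mix_even]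
      unfold mix
      rw [if_neg h]
  have e2 : (fun k => mix e (mix p q) (if k % 2 = 0 then k else 2 * (2 * (k / 2) + 1) + 1)) =
      mix e q := by
    funext k
    by_cases h : k % 2 = 0
    · rw [if_pos h]
      unfold mix
      rw [if_pos h, if_pos h]
    · rw [if_neg h, mix_odd, mix_odd]
      unfold mix
      rw [if_neg h]
  rw [e1, e2, ← ha, ← hb]
  rfl

/-- the general substitution: every variable is replaced by a variable or a parameter -/
theorem DefS.subst {X : Set (ℕ → M)} (hX : DefS At X) (σ : ℕ → ℕ ⊕ M) :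
    DefS At {e | (fun k => Sum.elim e id (σ k)) ∈ X} := by
  obtain ⟨a, p, ha⟩ := hX
  obtain ⟨a', ha'⟩ := sat_ren hd hr a
    (fun k => if k % 2 = 0 then Sum.elim (fun i => 2 * i) (fun _ => 2 * (2 * (k / 2)) + 1) (σ (k / 2))
      else 2 * (2 * (k / 2) + 1) + 1)
  refine ⟨a', mix (fun k => Sum.elim (fun _ => p 0) id (σ k)) p, fun e => ?_⟩
  rw [ha', Set.mem_ofPred_eq, ha]
  apply iff_of_eq
  congr 1
  funext k
  by_cases h : k % 2 = 0
  · have e2 : mix (fun k => Sum.elim e id (σ k)) p k = Sum.elim e id (σ (k / 2)) := by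
      unfold mix
      rw [if_pos h]
    rw [if_pos h, e2]
    cases hσ : σ (k / 2) with
    | inl i =>
      simp only [Sum.elim_inl]
      rw [mix_even]
    | inr m =>
      simp only [Sum.elim_inr]
      rw [mix_odd, mix_even, hσ]
      rfl
  · rw [if_neg h, mix_odd, mix_odd]
    unfold mix
    rw [if_neg h]

theorem DefS.ren {X : Set (ℕ → M)} (hX : DefS At X) (ρ : ℕ → ℕ) :
    DefS At {e | (fun k => e (ρ k)) ∈ X} :=
  (hX.subst hd hr fun k => Sum.inl (ρ k)).congr fun _ => Iff.rfl

theorem DefS.not [Nonempty M] {X : Set (ℕ → M)} (hX : DefS At X) : DefS At {e | e ∉ X} :=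
  (hX.imp hd hr DefS.empty).congr fun e => by
    simp only [Set.mem_ofPred_eq, Set.mem_empty_iff_false]

theorem DefS.and [Nonempty M] {X Y : Set (ℕ → M)} (hX : DefS At X) (hY : DefS At Y) :
    DefS At {e | e ∈ X ∧ e ∈ Y} :=
  ((hX.imp hd hr (hY.not hd hr)).not hd hr).congr fun e => by
    simp only [Set.mem_ofPred_eq]
    tauto

theorem DefS.or [Nonempty M] {X Y : Set (ℕ → M)} (hX : DefS At X) (hY : DefS At Y) :
    DefS At {e | e ∈ X ∨ e ∈ Y} :=
  ((hX.not hd hr).imp hd hr hY).congr fun e => by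
    simp only [Set.mem_ofPred_eq]
    tauto

theorem DefS.iff [Nonempty M] {X Y : Set (ℕ → M)} (hX : DefS At X) (hY : DefS At Y) :
    DefS At {e | e ∈ X ↔ e ∈ Y} :=
  ((hX.imp hd hr hY).and hd hr (hY.imp hd hr hX)).congr fun e => by
    simp only [Set.mem_ofPred_eq]
    tauto

theorem DefS.all [Nonempty M] {X : Set (ℕ → M)} (hX : DefS At X) (x : ℕ) :
    DefS At {e | ∀ m, update e x m ∈ X} :=
  (((hX.not hd hr).ex x).not hd hr).congr fun e => by
    simp only [Set.mem_ofPred_eq]
    push Not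
    rfl

end DefS

theorem defS_atom {M : Type} [Nonempty M] {At : ℕ → (ℕ → M) → Prop}
    (hr : ∀ i (ρ : ℕ → ℕ), ∃ i', ∀ e : ℕ → M, At i' e ↔ At i fun k => e (ρ k)) (i : ℕ) :
    DefS At {e | At i e} := by
  obtain ⟨m⟩ := ‹Nonempty M›
  obtain ⟨i', hi'⟩ := hr i (fun k => 2 * k)
  refine ⟨mkAtom i', fun _ => m, fun e => ?_⟩
  rw [sat_atom At (node_mkAtom i'), hi', Set.mem_ofPred_eq]
  apply iff_of_eq
  congr 1
  funext k
  rw [mix_even]

end Pool.Agent.Work.MP_69fea5_lc.MT.GT
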