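import Mathlib

/-!
Block [69fea5 MT]: `ACA_0` does not prove Hindman's theorem for `K` colours: definitions.

Part 1: linear orders with a norm, the exponential, the towers `om n`, small sets, half matches,
the hypothesis `StP K` (the painters).
-/

set_option autoImplicit false

namespace Pool.Agent.Work.MP_69fea5_lc.MT

/-- linear orders with a norm -/
structure NLO where
  /-- the elements -/
  α : Type
  /-- the order -/
  [lo : LinearOrder α]
  /-- the norm -/
  norm : α → ℕ

attribute [instance] NLO.lo

/-- `ω ^ L`: the finitely supported functions from `L` to the natural numbers (the coefficients of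
the Cantor normal form), compared at the largest exponent where they differ; the norm is the largest
coefficient or norm of an exponent. -/
def NLO.exp (L : NLO) : NLO where
  α := Colex (L.α →₀ ℕ)
  norm f := (ofColex f).support.sup fun e => max (L.norm e) (ofColex f e)

/-- the towers: `om 0 = ω`, `om (n + 1) = ω ^ om n` -/
def om : ℕ → NLO
  | 0 => ⟨ℕ, id⟩
  | n + 1 => (om n).exp

/-- well founded, nonempty, and only finitely many elements of norm at most `s` -/
structure NLO.Good (L : NLO) : Prop where
  wf : WellFounded (fun x y : L.α => x < y)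
  fin : ∀ s, {x : L.α | L.norm x ≤ s}.Finite
  ne : Nonempty L.α

/-- `S` is `L`-small: there is a strictly decreasing map `o` from `S` to `L` with
`norm (o x) ≤ x` -/
def Small (L : NLO) (S : Finset ℕ) : Prop :=
  ∃ o : ℕ → L.α, (∀ x ∈ S, ∀ y ∈ S, x < y → o y < o x) ∧ ∀ x ∈ S, L.norm (o x) ≤ x

/-- a half match of `V` in `S`: nonempty finite sets `t < w 0 < ⋯ < w (r - 1)` in `S`, with
`r > ack x x` for `x = max t` (a very long half match: the painters may use every primitive
recursive bound), such that `V t = V (t ∪ w)` for all unions `w` of one or more of the `w i` -/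
def HalfMatch (V : Finset ℕ → ℕ) (S : Finset ℕ) : Prop :=
  ∃ (t : Finset ℕ) (r : ℕ) (w : ℕ → Finset ℕ), t.Nonempty ∧ t ⊆ S ∧
    (∀ i < r, (w i).Nonempty ∧ w i ⊆ S) ∧ (∀ i < r, ∀ x ∈ t, ∀ y ∈ w i, x < y) ∧
    (∀ i j, i < j → j < r → ∀ x ∈ w i, ∀ y ∈ w j, x < y) ∧ (∀ x ∈ t, ack x x < r) ∧
    ∀ F ⊆ Finset.range r, F.Nonempty → V (t ∪ F.biUnion w) = V t

/-- THE HYPOTHESIS (from the painters): for every tower `om n` there is `m0` such that for every
`om n`-small finite set `S` of integers `≥ m0` there is a colouring of the finite sets with `K n`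
colours without half match in `S`. (`K` constant: a fixed number of colours.) -/
def StP (K : ℕ → ℕ) : Prop :=
  ∀ n : ℕ, ∃ m0 : ℕ, ∀ S : Finset ℕ, (∀ x ∈ S, m0 ≤ x) → Small (om n) S →
    ∃ V : Finset ℕ → ℕ, (∀ F, V F < K n) ∧ ¬ HalfMatch V S

end Pool.Agent.Work.MP_69fea5_lc.MT
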