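import Pool.Agent.Work.MP_69fea5_lc.MT.Defs

/-!
Block [69fea5 MT]: definitions, part 2: formulas, level semantics, frames, the cut, the model.
-/

set_option autoImplicit false

namespace Pool.Agent.Work.MP_69fea5_lc.MT

open Filter

/-! ### The statement: models of `ACA_0` and Hindman's theorem in a model -/

/-- The relations on `M` which are arithmetical in the family `SS` of subsets of `M`, with number
parameters: graphs of addition and multiplication, order, constants, members of `SS`; complement,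
intersection, projection (along the first variable). -/
inductive Arith {M : Type} [CommSemiring M] [LinearOrder M] (SS : Set (Set M)) :
    (n : ℕ) → ((Fin n → M) → Prop) → Prop
  | add {n : ℕ} (a b c : Fin n) : Arith SS n fun v => v a + v b = v c
  | mul {n : ℕ} (a b c : Fin n) : Arith SS n fun v => v a * v b = v c
  | le {n : ℕ} (a b : Fin n) : Arith SS n fun v => v a ≤ v b
  | const {n : ℕ} (a : Fin n) (x : M) : Arith SS n fun v => v a = x
  | mem {n : ℕ} (a : Fin n) (X : Set M) (hX : X ∈ SS) : Arith SS n fun v => v a ∈ X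
  | not {n : ℕ} (R : (Fin n → M) → Prop) (hR : Arith SS n R) : Arith SS n fun v => ¬ R v
  | and {n : ℕ} (R T : (Fin n → M) → Prop) (hR : Arith SS n R) (hT : Arith SS n T) :
      Arith SS n fun v => R v ∧ T v
  | ex {n : ℕ} (R : (Fin (n + 1) → M) → Prop) (hR : Arith SS (n + 1) R) :
      Arith SS n fun v => ∃ x, R (Fin.cons x v)

/-- `(M, SS)` is a model of `ACA_0`: `M` is the nonnegative part of a discretely ordered ring, the
family `SS` of subsets of `M` is closed under arithmetical comprehension, and every nonempty member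
of `SS` has a least element. -/
structure IsModelACA (M : Type) [CommSemiring M] [LinearOrder M] (SS : Set (Set M)) : Prop where
  /-- addition and multiplication respect the order -/
  ordered : IsStrictOrderedRing M
  /-- `0` is the least element -/
  zero_le : ∀ x : M, 0 ≤ x
  /-- `1` is the least positive element -/
  one_le : ∀ x : M, 0 < x → 1 ≤ x
  /-- differences -/
  sub : ∀ x y : M, x ≤ y → ∃ z, x + z = y
  /-- arithmetical comprehension -/
  comprehension : ∀ R : (Fin 1 → M) → Prop, Arith SS 1 R → {x | R fun _ => x} ∈ SS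
  /-- induction -/
  least : ∀ X ∈ SS, X.Nonempty → ∃ x ∈ X, ∀ y ∈ X, x ≤ y

/-- the pairing function -/
def pr {M : Type} [CommSemiring M] (a b : M) : M := (a + b) * (a + b) + a

/-- `G` is the sum graph of `X`: the pair `(k, n)` is in `G` iff `n` is a sum of (distinct) elements
of `X` less than `k`; this is the recursion on `k`. -/
structure IsSumGraph {M : Type} [CommSemiring M] (X G : Set M) : Prop where
  zero : ∀ n, pr 0 n ∈ G ↔ n = 0
  succ : ∀ k n, pr (k + 1) n ∈ G ↔ pr k n ∈ G ∨ (k ∈ X ∧ ∃ n', n = n' + k ∧ pr k n' ∈ G)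

/-- `X` is a solution of Hindman's theorem for the colouring `c` in the model `(M, SS)`: `X` is an
unbounded set of positive elements, and all its sums (over `M`-finite nonempty subsets of `X`, given
by the sum graph `G` in the model) have the same colour. -/
def IsSol {M : Type} [CommSemiring M] [LinearOrder M] (SS : Set (Set M)) (c : M → M)
    (X : Set M) : Prop :=
  X ∈ SS ∧ (∀ x ∈ X, 0 < x) ∧ (∀ b, ∃ x ∈ X, b < x) ∧
    ∃ G ∈ SS, IsSumGraph X G ∧ ∃ i, ∀ k n, 0 < n → pr k n ∈ G → c n = i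

/-- `c` is a colouring with `k` colours in the model -/
def IsCol {M : Type} [CommSemiring M] [LinearOrder M] (SS : Set (Set M)) (k : M)
    (c : M → M) : Prop :=
  {x | ∃ n, x = pr n (c n)} ∈ SS ∧ ∀ n, c n < k

/-- THE RESULT: a model of `ACA_0` with a colouring with `k` colours (`k` in the model) without
solution -/
def S_RESULT : Prop := ∀ K : ℕ → ℕ, StP K →
  ∃ (M : Type) (_ : CommSemiring M) (_ : LinearOrder M) (SS : Set (Set M)), IsModelACA M SS ∧
    (∀ X ∈ SS, ∃ G ∈ SS, IsSumGraph X G) ∧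
    ∃ (k : M) (c : M → M), IsCol SS k c ∧ (∀ X, ¬ IsSol SS c X) ∧
      ∀ K0 : ℕ, (∀ n, K n = K0) → k = (K0 : M)

/-! ### Formulas -/

/-- formulas with relation symbols of arity 3 from `ι`, in `n` free variables -/
inductive Fm (ι : Type) : ℕ → Type
  | rel {n : ℕ} (i : ι) (a b c : Fin n) : Fm ι n
  | neg {n : ℕ} (φ : Fm ι n) : Fm ι n
  | and {n : ℕ} (φ ψ : Fm ι n) : Fm ι n
  | ex {n : ℕ} (φ : Fm ι (n + 1)) : Fm ι n

/-- the size of a formula -/
def Fm.size {ι : Type} : {n : ℕ} → Fm ι n → ℕ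
  | _, .rel _ _ _ _ => 0
  | _, .neg φ => φ.size + 1
  | _, .and φ ψ => φ.size + ψ.size + 1
  | _, .ex φ => φ.size + 1

/-- truth in a structure (relations of arity 3) -/
def Sat {ι M : Type} (R : ι → M → M → M → Prop) : {n : ℕ} → Fm ι n → (Fin n → M) → Prop
  | _, .rel i a b c, v => R i (v a) (v b) (v c)
  | _, .neg φ, v => ¬ Sat R φ v
  | _, .and φ ψ, v => Sat R φ v ∧ Sat R ψ v
  | _, .ex φ, v => ∃ z, Sat R φ (Fin.cons z v)

/-- truth with bounded quantifiers, the bound for `∃ z, φ` is `E φ` -/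
def Bd {ι : Type} (R : ι → ℕ → ℕ → ℕ → Prop) (E : (Σ n, Fm ι n) → ℕ) :
    {n : ℕ} → Fm ι n → (Fin n → ℕ) → Prop
  | _, .rel i a b c, v => R i (v a) (v b) (v c)
  | _, .neg φ, v => ¬ Bd R E φ v
  | _, .and φ ψ, v => Bd R E φ v ∧ Bd R E ψ v
  | _, .ex φ, v => ∃ z < E ⟨_, φ⟩, Bd R E φ (Fin.cons z v)

/-- renaming of variables -/
def Fm.ren {ι : Type} : {n m : ℕ} → (Fin n → Fin m) → Fm ι n → Fm ι m
  | _, _, f, .rel i a b c => .rel i (f a) (f b) (f c)
  | _, _, f, .neg φ => .neg (φ.ren f)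
  | _, _, f, .and φ ψ => .and (φ.ren f) (ψ.ren f)
  | _, _, f, .ex φ => .ex (φ.ren (Fin.cons 0 fun i => (f i).succ))

/-! ### Frames -/

/-- the growth of the cut points -/
def Fs (x : ℕ) : ℕ := 2 ^ x + x * x + 2 * x + 2 + ack x x

theorem fs_add (x : ℕ) : 2 * x + 2 ≤ Fs x := by
  unfold Fs
  have := Nat.zero_le (2 ^ x + x * x)
  omega

theorem fs_mul (x : ℕ) : x * x ≤ Fs x := by
  unfold Fs
  have := Nat.zero_le (2 ^ x)
  omega

theorem fs_ack (x : ℕ) : ack x x ≤ Fs x := by
  unfold Fs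
  have := Nat.zero_le (2 ^ x + x * x)
  omega

theorem fs_pow (x : ℕ) : 2 ^ x ≤ Fs x := by
  unfold Fs
  omega

/-- A frame: an ultrafilter `U` on `J`, at each `j` relations `R j`, bounds `E j` and a sequence
`s · j` of cut points, with the property (★): witnesses below `E j` can be found below the next cut
point. -/
structure Frame (ι : Type) where
  J : Type
  U : Ultrafilter J
  R : J → ι → ℕ → ℕ → ℕ → Prop
  E : J → (Σ n, Fm ι n) → ℕ
  s : ℕ → J → ℕ
  fast : ∀ i, ∀ᶠ j in (U : Filter J), Fs (s i j) ≤ s (i + 1) j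
  bdd : ∀ i χ, ∀ᶠ j in (U : Filter J), s i j ≤ E j χ
  star : ∀ (n : ℕ) (ψ : Fm ι (n + 1)) (i : ℕ), ∀ᶠ j in (U : Filter J), ∀ v : Fin n → ℕ,
    (∀ l, v l ≤ Nat.log 2 (s i j)) → (∃ z < E j ⟨n + 1, ψ⟩, Bd (R j) (E j) ψ (Fin.cons z v)) →
      ∃ z < s (i + 1) j, Bd (R j) (E j) ψ (Fin.cons z v)

variable {ι : Type}

/-- the ultrapower -/
abbrev Frame.N (F : Frame ι) : Type := Germ (F.U : Filter F.J) ℕ

/-- the function `x` is below some cut point (almost everywhere) -/
def Frame.Low (F : Frame ι) (x : F.J → ℕ) : Prop := ∃ i, ∀ᶠ j in (F.U : Filter F.J), x j ≤ F.s i j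

theorem Frame.s_mono (F : Frame ι) {i i' : ℕ} (h : i ≤ i') :
    ∀ᶠ j in (F.U : Filter F.J), F.s i j ≤ F.s i' j := by
  induction i', h using Nat.le_induction with
  | base => exact Eventually.of_forall fun j => le_rfl
  | succ n hn ih =>
    filter_upwards [ih, F.fast n] with j h1 h2
    have := fs_add (F.s n j)
    omega

/-- closure of the cut under standard functions bounded by `Fs` -/
theorem Frame.low₂ (F : Frame ι) {x y : F.J → ℕ} (hx : F.Low x) (hy : F.Low y)
    (f : F.J → ℕ → ℕ → ℕ) (hf : ∀ j a b B, a ≤ B → b ≤ B → f j a b ≤ Fs B) :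
    F.Low fun j => f j (x j) (y j) := by
  obtain ⟨i, hi⟩ := hx
  obtain ⟨i', hi'⟩ := hy
  refine ⟨max i i' + 1, ?_⟩
  filter_upwards [hi, hi', F.s_mono (le_max_left i i'), F.s_mono (le_max_right i i'),
    F.fast (max i i')] with j h1 h2 h3 h4 h5
  exact (hf j _ _ _ (h1.trans h3) (h2.trans h4)).trans h5

theorem Frame.low_le (F : Frame ι) {x y : F.J → ℕ} (hx : F.Low x)
    (h : ∀ᶠ j in (F.U : Filter F.J), y j ≤ x j) : F.Low y := by
  obtain ⟨i, hi⟩ := hx
  refine ⟨i, ?_⟩
  filter_upwards [hi, h] with j h1 h2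
  exact h2.trans h1

theorem Frame.low_s (F : Frame ι) (i : ℕ) : F.Low (F.s i) := ⟨i, Eventually.of_forall fun _ => le_rfl⟩

theorem Frame.low_const (F : Frame ι) (c : ℕ) : F.Low fun _ => c := by
  refine ⟨c, ?_⟩
  induction c with
  | zero => exact Eventually.of_forall fun j => Nat.zero_le _
  | succ n ih =>
    filter_upwards [ih, F.fast n] with j h1 h2
    have := fs_add (F.s n j)
    omega

theorem Frame.low_add (F : Frame ι) {x y : F.J → ℕ} (hx : F.Low x) (hy : F.Low y) :
    F.Low fun j => x j + y j :=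
  F.low₂ hx hy (fun _ a b => a + b) fun j a b B ha hb => by
    have := fs_add B
    show a + b ≤ _
    omega

theorem Frame.low_mul (F : Frame ι) {x y : F.J → ℕ} (hx : F.Low x) (hy : F.Low y) :
    F.Low fun j => x j * y j :=
  F.low₂ hx hy (fun _ a b => a * b) fun _ _ _ B ha hb =>
    (Nat.mul_le_mul ha hb).trans (fs_mul B)

theorem Frame.low_ack (F : Frame ι) {x : F.J → ℕ} (hx : F.Low x) :
    F.Low fun j => ack (x j) (x j) :=
  F.low₂ hx hx (fun _ a _ => ack a a) fun _ _ _ B ha _ => (ack_le_ack ha ha).trans (fs_ack B)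

theorem Frame.low_pow (F : Frame ι) {x : F.J → ℕ} (hx : F.Low x) :
    F.Low fun j => 2 ^ x j :=
  F.low₂ hx hx (fun _ a _ => 2 ^ a) fun _ _ _ B ha _ =>
    (Nat.pow_le_pow_right (by norm_num) ha).trans (fs_pow B)

/-- the cut as a subset of the ultrapower -/
def Frame.InCut (F : Frame ι) (x : F.N) : Prop :=
  ∃ y : F.J → ℕ, F.Low y ∧ ((y : F.J → ℕ) : F.N) = x

/-- the cut -/
def Frame.cut (F : Frame ι) : Subsemiring F.N where
  carrier := {x | F.InCut x}
  zero_mem' := ⟨fun _ => 0, F.low_const 0, rfl⟩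
  one_mem' := ⟨fun _ => 1, F.low_const 1, rfl⟩
  add_mem' := by
    rintro _ _ ⟨x, hx, rfl⟩ ⟨y, hy, rfl⟩
    exact ⟨fun j => x j + y j, F.low_add hx hy, rfl⟩
  mul_mem' := by
    rintro _ _ ⟨x, hx, rfl⟩ ⟨y, hy, rfl⟩
    exact ⟨fun j => x j * y j, F.low_mul hx hy, rfl⟩

/-- the model -/
abbrev Frame.M (F : Frame ι) : Type := F.cut

/-- the element of the model given by a function -/
def Frame.el (F : Frame ι) (x : F.J → ℕ) (hx : F.Low x) : F.M := ⟨(x : F.N), x, hx, rfl⟩

/-- a representing function -/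
noncomputable def Frame.rep (F : Frame ι) (x : F.M) : F.J → ℕ := Classical.choose x.2

theorem Frame.low_rep (F : Frame ι) (x : F.M) : F.Low (F.rep x) := (Classical.choose_spec x.2).1

theorem Frame.el_rep (F : Frame ι) (x : F.M) : F.el (F.rep x) (F.low_rep x) = x :=
  Subtype.ext (Classical.choose_spec x.2).2

theorem Frame.el_eq (F : Frame ι) {x y : F.J → ℕ} (hx : F.Low x) (hy : F.Low y) :
    F.el x hx = F.el y hy ↔ ∀ᶠ j in (F.U : Filter F.J), x j = y j := by
  exact Subtype.ext_iff.trans Germ.coe_eq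

theorem Frame.rep_el (F : Frame ι) {x : F.J → ℕ} (hx : F.Low x) :
    ∀ᶠ j in (F.U : Filter F.J), F.rep (F.el x hx) j = x j :=
  (F.el_eq (F.low_rep _) hx).1 (F.el_rep _)

/-- the relations in the model -/
def Frame.RM (F : Frame ι) (i : ι) (x y z : F.M) : Prop :=
  ∀ᶠ j in (F.U : Filter F.J), F.R j i (F.rep x j) (F.rep y j) (F.rep z j)

/-- the sets of the model: definable with parameters -/
def Frame.SS (F : Frame ι) : Set (Set F.M) :=
  {X | ∃ (n : ℕ) (φ : Fm ι (n + 1)) (p : Fin n → F.M), X = {x | Sat F.RM φ (Fin.cons x p)}}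

end Pool.Agent.Work.MP_69fea5_lc.MT
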