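import Pool.Agent.Work.MP_69fea5_lc.MT.Defs2

/-!
Block [69fea5 MT]: definitions, part 3: the sparse set `H`, binary supports, the symbols, coloured
frames.
-/

set_option autoImplicit false

namespace Pool.Agent.Work.MP_69fea5_lc.MT

open Filter

/-- the sparse set: `H 0 = 0`, `H (i + 1) = Fs (H i)` -/
def H : ℕ → ℕ
  | 0 => 0
  | i + 1 => Fs (H i)

/-- the largest element of the range of `H` which is `≤ x` -/
def fl (x : ℕ) : ℕ := H (Nat.findGreatest (fun m => H m ≤ x) x)

/-- the binary support -/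
def bs (u : ℕ) : Finset ℕ := u.bitIndices.toFinset

/-- the sum of the binary support -/
def sm (u : ℕ) : ℕ := ∑ x ∈ bs u, x

/-- the binary support, moved down to the range of `H` -/
def pb (n : ℕ) : Finset ℕ := (bs n).image fl

/-- `F 0 = bs v < F 1 < ⋯ < F r`, the last ones nonempty subsets of the binary support of `u`, and
the sets `pb` of their sums increase -/
def Blk (u v r : ℕ) : Prop :=
  ∃ F : ℕ → Finset ℕ, F 0 = bs v ∧ (∀ i, 1 ≤ i → i ≤ r → (F i).Nonempty ∧ F i ⊆ bs u) ∧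
    ∀ i j, i < j → j ≤ r → (∀ x ∈ F i, ∀ y ∈ F j, x < y) ∧
      ∀ x ∈ pb (∑ z ∈ F i, z), ∀ y ∈ pb (∑ z ∈ F j, z), x < y

/-- the relation symbols -/
inductive Sym
  | add | mul | le | col | bit | card | blk | sumof

/-- the standard relations, for the colouring `V` of the finite sets -/
def stdR (V : Finset ℕ → ℕ) : Sym → ℕ → ℕ → ℕ → Prop
  | .add, x, y, z => x + y = z
  | .mul, x, y, z => x * y = z
  | .le, x, y, _ => x ≤ y
  | .col, x, y, _ => V (pb x) = y
  | .bit, u, x, _ => x ∈ bs u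
  | .card, u, b, r => r ≤ (bs u).card ∧ ∀ x ∈ bs u, b < x
  | .blk, u, v, r => Blk u v r
  | .sumof, u, n, _ => sm u = n

/-- a frame with colourings without half matches -/
structure CFrame extends Frame Sym where
  V : J → Finset ℕ → ℕ
  S : J → Finset ℕ
  k : J → ℕ
  hR : ∀ j, R j = stdR (V j)
  hk : ∀ j X, V j X < k j
  hV : ∀ j, ¬ HalfMatch (V j) (S j)
  hS : ∀ i, ∀ᶠ j in (U : Filter J), s i j ∈ S j
  hSH : ∀ j, ∃ a b, 1 ≤ a ∧ S j = (Finset.Ico a b).image H
  hks : ∀ᶠ j in (U : Filter J), k j ≤ s 0 j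

end Pool.Agent.Work.MP_69fea5_lc.MT
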