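import Pool.Agent.Work.MP_69fea5_lc.MT.KL
import Pool.Agent.Work.MP_69fea5_lc.MT.Good

/-!
Block [69fea5 MT]: THE TRUTH LEMMA.

Formulas are numbers. Node `j` is: an atom `j / 4` if `j % 4 = 0`; an implication `a → b` with
`(a, b) = unpair (j / 4)` if `j % 4 = 1`; `∃ x, a` with `(x, a) = unpair (j / 4)` if `j % 4 = 2`;
false if `j % 4 = 3`.
-/

set_option autoImplicit false

namespace Pool.Agent.Work.MP_69fea5_lc.MT.GT

open Finset Function

/-- the kinds of formulas -/
inductive Node
  | atom (i : ℕ)
  | imp (a b : ℕ)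
  | ex (x a : ℕ)
  | bot

/-- the formula with number `j` -/
def node (j : ℕ) : Node :=
  if j % 4 = 0 then .atom (j / 4)
  else if j % 4 = 1 then .imp (j / 4).unpair.1 (j / 4).unpair.2
  else if j % 4 = 2 then .ex (j / 4).unpair.1 (j / 4).unpair.2
  else .bot

theorem node_atom_le {j i : ℕ} (h : node j = .atom i) : i ≤ j := by
  unfold node at h
  split_ifs at h
  cases h
  omega

theorem node_imp_lt {j a b : ℕ} (h : node j = .imp a b) : a < j ∧ b < j := by
  unfold node at h
  split_ifs at h with h1 h2
  · cases h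
    have ha := Nat.unpair_left_le (j / 4)
    have hb := Nat.unpair_right_le (j / 4)
    constructor <;> omega

theorem node_ex_lt {j x a : ℕ} (h : node j = .ex x a) : x < j ∧ a < j := by
  unfold node at h
  split_ifs at h with h1 h2
  · cases h
    have ha := Nat.unpair_left_le (j / 4)
    have hb := Nat.unpair_right_le (j / 4)
    constructor <;> omega

/-- the number of an atom -/
def mkAtom (i : ℕ) : ℕ := 4 * i
/-- the number of an implication -/
def mkImp (a b : ℕ) : ℕ := 4 * Nat.pair a b + 1
/-- the number of `∃ x, a` -/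
def mkEx (x a : ℕ) : ℕ := 4 * Nat.pair x a + 2
/-- the number of false -/
def mkBot : ℕ := 3

theorem node_mkAtom (i : ℕ) : node (mkAtom i) = .atom i := by
  unfold node mkAtom
  rw [if_pos (by omega)]
  congr 1
  omega

theorem node_mkImp (a b : ℕ) : node (mkImp a b) = .imp a b := by
  unfold node mkImp
  rw [if_neg (by omega), if_pos (by omega)]
  have e : (4 * Nat.pair a b + 1) / 4 = Nat.pair a b := by omega
  rw [e, Nat.unpair_pair]

theorem node_mkEx (x a : ℕ) : node (mkEx x a) = .ex x a := by
  unfold node mkEx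
  rw [if_neg (by omega), if_neg (by omega), if_pos (by omega)]
  have e : (4 * Nat.pair x a + 2) / 4 = Nat.pair x a := by omega
  rw [e, Nat.unpair_pair]

theorem node_mkBot : node mkBot = .bot := by
  unfold node mkBot
  rfl

section Sat

variable {M : Type} (At : ℕ → (ℕ → M) → Prop)

/-- satisfaction of the formula with number `j` in a structure with atoms `At` -/
def Sat (j : ℕ) (e : ℕ → M) : Prop :=
  match _h : node j with
  | .atom i => At i e
  | .imp a b => Sat a e → Sat b e
  | .ex x a => ∃ m : M, Sat a (update e x m)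
  | .bot => False
termination_by j
decreasing_by
  · exact (node_imp_lt _h).1
  · exact (node_imp_lt _h).2
  · exact (node_ex_lt _h).2

theorem sat_atom {j i : ℕ} (h : node j = .atom i) (e : ℕ → M) : Sat At j e ↔ At i e := by
  rw [Sat]
  split <;> simp_all

theorem sat_imp {j a b : ℕ} (h : node j = .imp a b) (e : ℕ → M) :
    Sat At j e ↔ (Sat At a e → Sat At b e) := by
  rw [Sat]
  split <;> simp_all

theorem sat_ex {j x a : ℕ} (h : node j = .ex x a) (e : ℕ → M) :
    Sat At j e ↔ ∃ m, Sat At a (update e x m) := by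
  rw [Sat]
  split <;> simp_all

theorem sat_bot {j : ℕ} (h : node j = .bot) (e : ℕ → M) : ¬ Sat At j e := by
  rw [Sat]
  split <;> simp_all

end Sat

/-- a relation on environments that depends only on the coordinates `≤ j` -/
def Dep {M : Type} (j : ℕ) (A : Set (ℕ → M)) : Prop :=
  ∀ v v' : ℕ → M, (∀ k ≤ j, v k = v' k) → (v ∈ A ↔ v' ∈ A)

/-- the finite level: the relations `A j` for the formulas `j < n`, and the set `F` -/
structure Lev (n m : ℕ) (R : ℕ → Set (ℕ → ℕ)) (S F : Finset ℕ) (A : ℕ → Set (ℕ → ℕ)) : Prop where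
  sub : F ⊆ S
  dep : ∀ j < m, Dep j (A j)
  atom : ∀ j < m, ∀ i, node j = .atom i → A j = R i
  imp : ∀ j < m, ∀ a b, node j = .imp a b → A j = {v | v ∈ A a → v ∈ A b}
  bot : ∀ j < m, node j = .bot → A j = ∅
  ex1 : ∀ j < m, ∀ x a, node j = .ex x a → ∀ (v : ℕ → ℕ) (y z : ℕ), z ∈ F → y < z →
    update v x y ∈ A a → v ∈ A j
  ex2 : ∀ j < m, ∀ x a, node j = .ex x a → ∀ v ∈ A j, ∀ p ∈ F, ∀ q ∈ F, p < q →
    (∀ k ≤ j, (v k + 1) ^ n + 1 ≤ p) → ∃ y < q, update v x y ∈ A a

open Classical in
/-- the cut points of formula `∃ x, a` -/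
noncomputable def cutf (n m x : ℕ) (Aa : Set (ℕ → ℕ)) (p : ℕ) : Finset ℕ :=
  (Fintype.piFinset fun _ : Fin (m + 1) => (range p).filter (fun t => (t + 1) ^ n + 1 ≤ p)).image
    fun w => sInf {y | update (fun k => if h : k < m + 1 then w ⟨k, h⟩ else 0) x y ∈ Aa}

theorem card_cutf {n m x : ℕ} (Aa : Set (ℕ → ℕ)) {p : ℕ} (hp : 1 ≤ p) (hm : m + 1 ≤ n) :
    (cutf n m x Aa p).card + 1 ≤ p := by
  classical
  unfold cutf
  refine le_trans (Nat.add_le_add_right card_image_le 1) ?_
  rw [Fintype.card_piFinset_const]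
  set Q := (range p).filter (fun t => (t + 1) ^ n + 1 ≤ p) with hQ
  rcases Nat.eq_zero_or_pos Q.card with h0 | h0
  · rw [h0, zero_pow (by omega)]
    omega
  · -- the largest element is at least `card - 1`
    obtain ⟨t, ht, htc⟩ : ∃ t ∈ Q, Q.card - 1 ≤ t := by
      by_contra hcon
      push Not at hcon
      have hsub : Q ⊆ range (Q.card - 1) := fun t ht => mem_range.2 (hcon t ht)
      have := card_le_card hsub
      rw [card_range] at this
      omega
    have h1 := (mem_filter.1 ht).2
    have h2 : Q.card ^ (m + 1) ≤ Q.card ^ n := Nat.pow_le_pow_right h0 hm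
    have h3 : Q.card ^ n ≤ (t + 1) ^ n := Nat.pow_le_pow_left (by omega) n
    omega

theorem mem_cutf {n m x a : ℕ} {Aa : Set (ℕ → ℕ)} (hd : Dep a Aa) (ha : a ≤ m) {p : ℕ}
    {v : ℕ → ℕ} (hn : 1 ≤ n) (hv : ∀ k ≤ m, (v k + 1) ^ n + 1 ≤ p) :
    sInf {y | update v x y ∈ Aa} ∈ cutf n m x Aa p := by
  classical
  unfold cutf
  rw [mem_image]
  refine ⟨fun k => v k.1, ?_, ?_⟩
  · rw [Fintype.mem_piFinset]
    intro k
    rw [mem_filter, mem_range]
    have h1 := hv k.1 (by omega)
    have h2 : v k.1 + 1 ≤ (v k.1 + 1) ^ n := Nat.le_self_pow (by omega) _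
    exact ⟨by omega, h1⟩
  · congr 1
    ext y
    simp only [Set.mem_ofPred_eq]
    apply hd
    intro k hk
    by_cases hkx : k = x
    · subst hkx; simp
    · rw [update_of_ne hkx, update_of_ne hkx]
      rw [dif_pos (by omega)]

/-- the cut points used for a formula -/
noncomputable def cutOf (n m : ℕ) (A : ℕ → Set (ℕ → ℕ)) : Node → ℕ → Finset ℕ
  | .ex x a => cutf n m x (A a)
  | .atom _ => fun _ => ∅
  | .imp _ _ => fun _ => ∅
  | .bot => fun _ => ∅

/-- the relation of a new formula -/
def newRel (R A : ℕ → Set (ℕ → ℕ)) (e : ℕ) : Node → Set (ℕ → ℕ)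
  | .atom i => R i
  | .imp a b => {v | v ∈ A a → v ∈ A b}
  | .ex x a => {v | ∃ y < e, update v x y ∈ A a}
  | .bot => ∅

theorem step {n m : ℕ} {R : ℕ → Set (ℕ → ℕ)} (hR : ∀ i, Dep i (R i)) {S T : Finset ℕ}
    {A : ℕ → Set (ℕ → ℕ)} (h : Lev n m R S T A) (hS : ∀ a ∈ S, 1 ≤ a) (hm : m < n)
    (hT : ¬ Small (om (n - m)) T) :
    ∃ T' A', Lev n (m + 1) R S T' A' ∧ ¬ Small (om (n - (m + 1))) T' := by
  classical
  obtain ⟨l, hl⟩ : ∃ l, n - m = l + 1 := ⟨n - m - 1, by omega⟩
  have hl' : n - (m + 1) = l := by omega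
  rw [hl] at hT
  rw [hl']
  -- the cut points
  let cut : ℕ → Finset ℕ := cutOf n m A (node m)
  have hc : ∀ a ∈ T, (cut a).card + 1 ≤ a := by
    intro a ha
    have ha1 := hS a (h.sub ha)
    show (cutOf n m A (node m) a).card + 1 ≤ a
    cases node m with
    | ex x b => exact card_cutf _ ha1 (by omega)
    | atom i => simpa [cutOf] using ha1
    | imp b c => simpa [cutOf] using ha1
    | bot => simpa [cutOf] using ha1
  obtain ⟨T', hT'T, hT', hP⟩ := KL.iKL (om l) (good_om l) T cut hc hT
  -- old facts survive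
  let nw : Set (ℕ → ℕ) := newRel R A (T'.sup id) (node m)
  refine ⟨T', update A m nw, ?_, hT'⟩
  have hne : T'.Nonempty := by
    rw [Finset.nonempty_iff_ne_empty]
    rintro rfl
    apply hT'
    obtain ⟨a⟩ := (good_om l).ne
    exact ⟨fun _ => a, by simp, by simp⟩
  have hold : ∀ j, j ≠ m → update A m nw j = A j := fun j hj => update_of_ne hj _ _
  have hnew : update A m nw m = nw := update_self _ _ _
  constructor
  · exact hT'T.trans h.sub
  · intro j hj
    by_cases hjm : j = m
    · subst hjm
      rw [hnew]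
      intro v v' hv
      cases hi : node j with
      | atom i =>
        simp only [nw, hi, newRel]
        exact hR i v v' fun k hk => hv k (le_trans hk (node_atom_le hi))
      | imp a b =>
        simp only [nw, hi, newRel]
        have ha := node_imp_lt hi
        have h1 := h.dep a ha.1 v v' fun k hk => hv k (by omega)
        have h2 := h.dep b ha.2 v v' fun k hk => hv k (by omega)
        simp only [Set.mem_ofPred_eq]
        rw [h1, h2]
      | bot => simp only [nw, hi, newRel]; simp
      | ex x a =>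
        simp only [nw, hi, newRel]
        have ha := node_ex_lt hi
        simp only [Set.mem_ofPred_eq]
        have h1 : ∀ y, (update v x y ∈ A a ↔ update v' x y ∈ A a) := by
          intro y
          apply h.dep a ha.2
          intro k hk
          by_cases hkx : k = x
          · subst hkx; simp
          · rw [update_of_ne hkx, update_of_ne hkx]
            exact hv k (by omega)
        constructor
        · rintro ⟨y, hy, hy'⟩
          exact ⟨y, hy, (h1 y).1 hy'⟩
        · rintro ⟨y, hy, hy'⟩
          exact ⟨y, hy, (h1 y).2 hy'⟩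
    · rw [hold j hjm]
      exact h.dep j (by omega)
  · intro j hj i hi
    by_cases hjm : j = m
    · subst hjm
      rw [hnew]
      simp only [nw, hi, newRel]
    · rw [hold j hjm]
      exact h.atom j (by omega) i hi
  · intro j hj a b hi
    have ha := node_imp_lt hi
    rw [hold a (by omega), hold b (by omega)]
    by_cases hjm : j = m
    · subst hjm
      rw [hnew]
      simp only [nw, hi, newRel]
    · rw [hold j hjm]
      exact h.imp j (by omega) a b hi
  · intro j hj hi
    by_cases hjm : j = m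
    · subst hjm
      rw [hnew]
      simp only [nw, hi, newRel]
    · rw [hold j hjm]
      exact h.bot j (by omega) hi
  · intro j hj x a hi v y z hz hyz hA
    have ha := node_ex_lt hi
    rw [hold a (by omega)] at hA
    by_cases hjm : j = m
    · subst hjm
      rw [hnew]
      simp only [nw, hi, newRel, Set.mem_ofPred_eq]
      exact ⟨y, lt_of_lt_of_le hyz (Finset.le_sup (f := id) hz), hA⟩
    · rw [hold j hjm]
      exact h.ex1 j (by omega) x a hi v y z (hT'T hz) hyz hA
  · intro j hj x a hi v hv p hp q hq hpq hk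
    have ha := node_ex_lt hi
    rw [hold a (by omega)]
    by_cases hjm : j = m
    · subst hjm
      rw [hnew] at hv
      simp only [nw, hi, newRel, Set.mem_ofPred_eq] at hv
      obtain ⟨y, hy, hyA⟩ := hv
      have hmem : sInf {y | update v x y ∈ A a} ∈ {y | update v x y ∈ A a} := Nat.sInf_mem ⟨y, hyA⟩
      have hle : sInf {y | update v x y ∈ A a} ≤ y := Nat.sInf_le hyA
      by_cases hlt : sInf {y | update v x y ∈ A a} < q
      · exact ⟨_, hlt, hmem⟩
      · exfalso
        obtain ⟨e, he, hee⟩ := Finset.exists_mem_eq_sup T' hne id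
        have hcut : sInf {y | update v x y ∈ A a} ∈ cut p := by
          have e : cut = cutf n j x (A a) := by
            simp only [cut, hi, cutOf]
          rw [e]
          exact mem_cutf (h.dep a ha.2) ha.2.le (by omega) hk
        have h3 : sInf {y | update v x y ∈ A a} < e := by
          have : T'.sup id = e := hee
          omega
        exact hP p hp q hq e he hpq (by omega) _ hcut ⟨by omega, h3⟩
    · rw [hold j hjm] at hv
      exact h.ex2 j (by omega) x a hi v hv p (hT'T hp) q (hT'T hq) hpq hk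

theorem exists_lev (n : ℕ) {R : ℕ → Set (ℕ → ℕ)} (hR : ∀ i, Dep i (R i)) {S : Finset ℕ}
    (hS : ∀ a ∈ S, 1 ≤ a) (hL : ¬ Small (om n) S) :
    ∃ F A, Lev n n R S F A ∧ ¬ Small (om 0) F := by
  have key : ∀ m ≤ n, ∃ T A, Lev n m R S T A ∧ ¬ Small (om (n - m)) T := by
    intro m
    induction m with
    | zero =>
      intro _
      refine ⟨S, fun _ => ∅, ⟨subset_rfl, ?_, ?_, ?_, ?_, ?_, ?_⟩, by simpa using hL⟩
      all_goals
        intro j hj
        exact absurd hj (Nat.not_lt_zero j)
    | succ m ih =>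
      intro hm
      obtain ⟨T, A, h1, h2⟩ := ih (by omega)
      exact step hR h1 hS hm h2
  obtain ⟨F, A, h1, h2⟩ := key n le_rfl
  exact ⟨F, A, h1, by simpa using h2⟩

/-- an `ω`-large set has many elements -/
theorem card_of_large {F : Finset ℕ} {n : ℕ} (h : ¬ Small (om 0) F) (hF : ∀ a ∈ F, n ≤ a) :
    n + 2 ≤ F.card := by
  by_contra hcon
  apply h
  refine ⟨fun x => (F.filter (x < ·)).card, ?_, ?_⟩
  · intro x hx y hy hxy
    apply card_lt_card
    refine ⟨?_, ?_⟩
    · intro z hz
      rw [mem_filter] at hz ⊢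
      exact ⟨hz.1, hxy.trans hz.2⟩
    · intro hss
      have := hss (mem_filter.2 ⟨hy, hxy⟩)
      rw [mem_filter] at this
      exact lt_irrefl _ this.2
  · intro x hx
    show (F.filter (x < ·)).card ≤ x
    have h1 : (F.filter (x < ·)).card < F.card := by
      apply card_lt_card
      refine ⟨filter_subset _ _, fun hss => ?_⟩
      have := hss hx
      rw [mem_filter] at this
      exact lt_irrefl _ this.2
    have := hF x hx
    omega

end Pool.Agent.Work.MP_69fea5_lc.MT.GT
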