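import Pool.Agent.Work.MP_69fea5_lc.MT.Stmts

/-!
Block [69fea5 MT], item FRM: existence of coloured frames. Author: helper81.
-/

set_option autoImplicit false

namespace Pool.Agent.Work.MP_69fea5_lc.MT

open Filter

namespace FRM_aux

theorem H_lt (i : ℕ) : H i < H (i + 1) := by
  show H i < Fs (H i)
  have := fs_add (H i)
  omega

theorem H_mono : StrictMono H := strictMono_nat_of_lt_succ H_lt

theorem le_H (i : ℕ) : i ≤ H i := H_mono.le_apply

theorem H_step {p q : ℕ} (h : H p < H q) : Fs (H p) ≤ H q := by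
  have h1 : p < q := H_mono.lt_iff_lt.1 h
  show H (p + 1) ≤ H q
  exact H_mono.monotone h1

/-- polynomials in the logarithm are small -/
theorem log_small (e : ℕ) : ∃ M : ℕ, ∀ x, M ≤ x → (Nat.log 2 x + 1) ^ e < x := by
  have h := tendsto_pow_const_div_const_pow_of_one_lt e (r := (2 : ℝ)) (by norm_num)
  have h1 := h.eventually (gt_mem_nhds (show (0 : ℝ) < 1 / 2 by norm_num))
  obtain ⟨L, hL⟩ := eventually_atTop.1 h1
  refine ⟨2 ^ L + 1, ?_⟩
  intro x hx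
  have hx0 : x ≠ 0 := by
    have := Nat.one_le_two_pow (n := L)
    omega
  have h2 : L ≤ Nat.log 2 x := by
    apply Nat.le_log_of_pow_le (by norm_num)
    omega
  have h3 := hL (Nat.log 2 x + 1) (by omega)
  have h4 : (0 : ℝ) < 2 ^ (Nat.log 2 x + 1) := by positivity
  rw [div_lt_iff₀ h4] at h3
  have h5 : (((Nat.log 2 x + 1) ^ e : ℕ) : ℝ) < ((2 ^ Nat.log 2 x : ℕ) : ℝ) := by
    push_cast
    push_cast at h3
    calc ((Nat.log 2 x : ℝ) + 1) ^ e < 1 / 2 * 2 ^ (Nat.log 2 x + 1) := h3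
      _ = 2 ^ Nat.log 2 x := by rw [pow_succ]; ring
  have h6 : (Nat.log 2 x + 1) ^ e < 2 ^ Nat.log 2 x := by exact_mod_cast h5
  exact lt_of_lt_of_le h6 (Nat.pow_log_le_self 2 hx0)

/-- the data at one index -/
theorem exists_data (K : ℕ → ℕ) (hK : StP K) (hOM : S_OM) (hGRD : S_GRD) (hLEV : S_LEV)
    (Φ : Finset (Σ n, Fm Sym n)) (m : ℕ) :
    ∃ (V : Finset ℕ → ℕ) (a b : ℕ) (E : (Σ n, Fm Sym n) → ℕ) (s : ℕ → ℕ), 1 ≤ a ∧
      (∀ X, V X < K Φ.card) ∧ ¬ HalfMatch V ((Finset.Ico a b).image H) ∧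
      (∀ i < m, s i ∈ (Finset.Ico a b).image H) ∧ (∀ i < m, Fs (s i) ≤ s (i + 1)) ∧
      (∀ χ ∈ Φ, ∀ i < m, s i ≤ E χ) ∧
      (∀ (n : ℕ) (ψ : Fm Sym (n + 1)), (⟨n + 1, ψ⟩ : Σ n, Fm Sym n) ∈ Φ → ∀ i < m,
        ∀ v : Fin n → ℕ, (∀ l, v l ≤ Nat.log 2 (s i)) →
          (∃ z < E ⟨n + 1, ψ⟩, Bd (stdR V) E ψ (Fin.cons z v)) →
            ∃ z < s (i + 1), Bd (stdR V) E ψ (Fin.cons z v)) ∧
      K Φ.card ≤ s 0 := by
  obtain ⟨hGood, -, hCard⟩ := hOM
  obtain ⟨m0, hm0⟩ := hK Φ.card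
  choose g hg using log_small
  obtain ⟨M, hM⟩ : ∃ M, M = Φ.sup (fun χ => g χ.1) := ⟨_, rfl⟩
  obtain ⟨m', hm'⟩ : ∃ m', m' = 1 + m + m0 + K Φ.card + M := ⟨_, rfl⟩
  have hHm : m' ≤ H m' := le_H m'
  obtain ⟨N, hN, hsm, hlg⟩ := hGRD (om Φ.card) (hGood _) m'
  have hge : ∀ b, ∀ x ∈ (Finset.Ico m' b).image H, m' ≤ x := by
    intro b x hx
    obtain ⟨p, hp, rfl⟩ := Finset.mem_image.1 hx
    exact hHm.trans (H_mono.monotone (Finset.mem_Ico.1 hp).1)
  obtain ⟨V, hVK, hVH⟩ := hm0 ((Finset.Ico m' N).image H) (fun x hx => by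
    have := hge N x hx
    omega) hsm
  obtain ⟨E, S', hS'S, hS'l, hbdd, hstar⟩ := hLEV Sym (stdR V) Φ 0
    ((Finset.Ico m' (N + 1)).image H) (fun x hx χ hχ => by
      apply hg
      have h1 : g χ.1 ≤ M := by
        rw [hM]
        exact Finset.le_sup (f := fun χ : Σ n, Fm Sym n => g χ.1) hχ
      have h2 := hge (N + 1) x hx
      omega) (by rw [Nat.zero_add]; exact hlg)
  have hS'ge : ∀ x ∈ S', m' ≤ x := fun x hx => hge (N + 1) x (hS'S hx)
  have hcard : m + 2 ≤ S'.card := hCard S' m hS'l (fun x hx => by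
    have := hS'ge x hx
    omega)
  obtain ⟨s, hs⟩ : ∃ s : ℕ → ℕ, ∀ i (h : i < S'.card), s i = S'.orderEmbOfFin rfl ⟨i, h⟩ := by
    refine ⟨fun i => if h : i < S'.card then S'.orderEmbOfFin rfl ⟨i, h⟩ else 0, ?_⟩
    intro i h
    simp [h]
  have hmem : ∀ i, i < S'.card → s i ∈ S' := by
    intro i h
    rw [hs i h]
    exact Finset.orderEmbOfFin_mem _ _ _
  have hlt : ∀ i, i + 1 < S'.card → s i < s (i + 1) := by
    intro i h
    rw [hs i (by omega), hs (i + 1) h]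
    exact (S'.orderEmbOfFin rfl).strictMono (by simp)
  refine ⟨V, m', N, E, s, by omega, hVK, hVH, ?_, ?_, ?_, ?_, ?_⟩
  · intro i hi
    obtain ⟨p, hp, hpe⟩ := Finset.mem_image.1 (hS'S (hmem i (by omega)))
    obtain ⟨q, hq, hqe⟩ := Finset.mem_image.1 (hS'S (hmem (i + 1) (by omega)))
    have h1 := hlt i (by omega)
    rw [← hpe, ← hqe] at h1
    have h2 : p < q := H_mono.lt_iff_lt.1 h1
    rw [← hpe]
    refine Finset.mem_image_of_mem H ?_
    rw [Finset.mem_Ico] at hp hq ⊢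
    omega
  · intro i hi
    obtain ⟨p, hp, hpe⟩ := Finset.mem_image.1 (hS'S (hmem i (by omega)))
    obtain ⟨q, hq, hqe⟩ := Finset.mem_image.1 (hS'S (hmem (i + 1) (by omega)))
    have h1 := hlt i (by omega)
    rw [← hpe, ← hqe] at h1 ⊢
    exact H_step h1
  · intro χ hχ i hi
    exact hbdd χ hχ _ (hmem i (by omega))
  · intro n ψ hψ i hi v hv hz
    exact hstar n ψ hψ (s i) (hmem i (by omega)) (s (i + 1)) (hmem (i + 1) (by omega))
      (hlt i (by omega)) v hv hz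
  · have := hS'ge _ (hmem 0 (by omega))
    omega

end FRM_aux

/-- Item FRM. -/
theorem iFRM (hOM : S_OM) (hGRD : S_GRD) (hLEV : S_LEV) : S_FRM := by
  classical
  intro K hK
  choose V a b E s ha hVK hVH hsS hfast hbdd hstar hks using
    fun j : Finset (Σ n, Fm Sym n) × ℕ => FRM_aux.exists_data K hK hOM hGRD hLEV j.1 j.2
  have hev : ∀ (χ : Σ n, Fm Sym n) (i : ℕ), ∀ᶠ j in
      ((Ultrafilter.of (atTop : Filter (Finset (Σ n, Fm Sym n) × ℕ)) :
        Ultrafilter (Finset (Σ n, Fm Sym n) × ℕ)) : Filter (Finset (Σ n, Fm Sym n) × ℕ)),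
      χ ∈ j.1 ∧ i < j.2 := by
    intro χ i
    apply Ultrafilter.of_le (atTop : Filter (Finset (Σ n, Fm Sym n) × ℕ))
    filter_upwards [eventually_ge_atTop (({χ}, i + 1) : Finset (Σ n, Fm Sym n) × ℕ)] with j hj
    exact ⟨Finset.singleton_subset_iff.1 hj.1, hj.2⟩
  have hev' : ∀ (i : ℕ), ∀ᶠ j in
      ((Ultrafilter.of (atTop : Filter (Finset (Σ n, Fm Sym n) × ℕ)) :
        Ultrafilter (Finset (Σ n, Fm Sym n) × ℕ)) : Filter (Finset (Σ n, Fm Sym n) × ℕ)),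
      i < j.2 := by
    intro i
    apply Ultrafilter.of_le (atTop : Filter (Finset (Σ n, Fm Sym n) × ℕ))
    filter_upwards [eventually_ge_atTop ((∅, i + 1) : Finset (Σ n, Fm Sym n) × ℕ)] with j hj
    exact hj.2
  refine ⟨{
    J := Finset (Σ n, Fm Sym n) × ℕ
    U := Ultrafilter.of atTop
    R := fun j => stdR (V j)
    E := E
    s := fun i j => s j i
    fast := ?_
    bdd := ?_
    star := ?_
    V := V
    S := fun j => (Finset.Ico (a j) (b j)).image H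
    k := fun j => K j.1.card
    hR := fun j => rfl
    hk := hVK
    hV := hVH
    hS := ?_
    hSH := fun j => ⟨a j, b j, ha j, rfl⟩
    hks := Eventually.of_forall fun j => hks j }, ?_⟩
  · intro i
    filter_upwards [hev' i] with j hj
    exact hfast j i hj
  · intro i χ
    filter_upwards [hev χ i] with j hj
    exact hbdd j χ hj.1 i hj.2
  · intro n ψ i
    filter_upwards [hev ⟨n + 1, ψ⟩ i] with j hj v hv hz
    exact hstar j n ψ hj.1 i hj.2 v hv hz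
  · intro i
    filter_upwards [hev' i] with j hj
    exact hsS j i hj
  · intro K0 hK0 j
    exact hK0 _

end Pool.Agent.Work.MP_69fea5_lc.MT
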