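import Pool.Agent.Work.MP_69fea5_lc.MT.Stmts

/-!
Block [69fea5 MT], item PIG.  Author: helper91.
-/

set_option autoImplicit false

namespace Pool.Agent.Work.MP_69fea5_lc.MT

namespace PIG_aux

theorem step {A : Finset ℕ} {n x y : ℕ} (hxy : x < y) (hy : y ∈ A)
    (h : (∑ z ∈ A.filter (· ≤ x), z) % n = (∑ z ∈ A.filter (· ≤ y), z) % n) :
    ∃ B ⊆ A, B.Nonempty ∧ n ∣ ∑ z ∈ B, z := by
  refine ⟨A.filter fun z => x < z ∧ z ≤ y, Finset.filter_subset _ _,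
    ⟨y, Finset.mem_filter.2 ⟨hy, hxy, le_rfl⟩⟩, ?_⟩
  have h1 : ∑ z ∈ A.filter (· ≤ y), z =
      ∑ z ∈ A.filter (· ≤ x), z + ∑ z ∈ A.filter (fun z => x < z ∧ z ≤ y), z := by
    rw [← Finset.sum_union]
    · congr 1
      ext z
      simp only [Finset.mem_union, Finset.mem_filter]
      constructor
      · rintro ⟨h1, h2⟩
        rcases le_or_gt z x with h3 | h3
        · exact Or.inl ⟨h1, h3⟩
        · exact Or.inr ⟨h1, h3, h2⟩
      · rintro (⟨h1, h2⟩ | ⟨h1, h2, h3⟩)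
        · exact ⟨h1, by omega⟩
        · exact ⟨h1, h3⟩
    · rw [Finset.disjoint_left]
      intro z h1 h2
      simp only [Finset.mem_filter] at h1 h2
      omega
  have h2 : ∑ z ∈ A.filter (· ≤ y), z ≡ ∑ z ∈ A.filter (· ≤ x), z [MOD n] := h.symm
  rw [h1] at h2
  have h3 : ∑ z ∈ A.filter (· ≤ x), z + ∑ z ∈ A.filter (fun z => x < z ∧ z ≤ y), z ≡
      ∑ z ∈ A.filter (· ≤ x), z + 0 [MOD n] := by simpa using h2
  exact (Nat.modEq_zero_iff_dvd).1 (Nat.ModEq.add_left_cancel' _ h3)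

theorem main (A : Finset ℕ) (n : ℕ) (hn : 0 < n) (h : n ≤ A.card) :
    ∃ B ⊆ A, B.Nonempty ∧ n ∣ ∑ x ∈ B, x := by
  by_cases hd : ∃ x ∈ A, n ∣ ∑ z ∈ A.filter (· ≤ x), z
  · obtain ⟨x, hx, hdx⟩ := hd
    exact ⟨A.filter (· ≤ x), Finset.filter_subset _ _, ⟨x, Finset.mem_filter.2 ⟨hx, le_rfl⟩⟩, hdx⟩
  · have hmaps : ∀ x ∈ A, (∑ z ∈ A.filter (· ≤ x), z) % n ∈ Finset.Ico 1 n := by
      intro x hx
      rw [Finset.mem_Ico]
      refine ⟨?_, Nat.mod_lt _ hn⟩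
      by_contra hc
      exact hd ⟨x, hx, Nat.dvd_of_mod_eq_zero (by omega)⟩
    have hcard : (Finset.Ico 1 n).card < A.card := by
      rw [Nat.card_Ico]
      omega
    obtain ⟨x, hx, y, hy, hne, he⟩ := Finset.exists_ne_map_eq_of_card_lt_of_maps_to hcard hmaps
    rcases lt_or_gt_of_ne hne with h1 | h1
    · exact step h1 hy he
    · exact step h1 hx he.symm

end PIG_aux

/-- Item PIG. -/
theorem iPIG : S_PIG := fun A k h => PIG_aux.main A (2 ^ k) (by positivity) h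

end Pool.Agent.Work.MP_69fea5_lc.MT
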