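import Pool.Agent.Work.MP_69fea5_lc.MT.Defs3

/-!
Block [69fea5 MT]: the statements. Every `S_X` is an item: file `MT/I_X.lean`, theorem `iX : S_X`
(or `iX (h1 : S_Y) .. : S_X` when the comment says so). Paper proof: note 4172 (lead) with the
changes of helper94 / helper58 (in the comments).
-/

set_option autoImplicit false

namespace Pool.Agent.Work.MP_69fea5_lc.MT

open Filter

/-! ### Part 1: orders with a norm -/

/-- [GEXP] `ω ^ L`. Well founded: `Finsupp.Colex.wellFoundedLT`; finite balls: the support is in the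
finite ball of `L` and the values are `≤ s`. -/
def S_GEXP : Prop := ∀ L : NLO, L.Good → L.exp.Good

/-- [OM] the towers are good (from GEXP, induction); small sets: subsets; a set which is not
`ω`-small has at least `m + 2` elements if all its elements are `≥ m` (`o x` = number of elements of
`S` above `x`). -/
def S_OM : Prop :=
  (∀ n, (om n).Good) ∧ (∀ (L : NLO) (S T : Finset ℕ), T ⊆ S → Small L S → Small L T) ∧
  ∀ (S : Finset ℕ) (m : ℕ), ¬ Small (om 0) S → (∀ x ∈ S, m ≤ x) → m + 2 ≤ S.card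

/-- [LAB] labels. `lab Q` = the largest element of `{o (max Q) | o a valid map on Q}` (finite, by
`L.Good`); for `Q' = insert a Q`: a valid `o` on `Q'` with `o a = lab Q'` has
`lab Q ≥ o (max Q) > o a`. -/
def S_LAB : Prop := ∀ L : NLO, L.Good → ∃ lab : Finset ℕ → L.α, ∀ (Q : Finset ℕ) (a : ℕ),
  (∀ q ∈ Q, q < a) → Small L (insert a Q) →
    L.norm (lab (insert a Q)) ≤ a ∧ (Q.Nonempty → lab (insert a Q) < lab Q)

/-- [KEY] (helper58 has it) the key lemma. From LAB. Suppose all subsets of `S` with the last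
property are `L`-small. For `T ⊆ S` above a compatible path `Q` construct (induction on the size of
`T`) a valid map `o` from `T` to `L.exp` with all exponents `< lab Q`: `a = min T`,
`Q' = insert a Q`, `T \ {a}` is cut by the points of `cut a` into at most `a` pieces;
`o a = ω ^ lab Q' * max p 1`, `o x = ω ^ lab Q' * (number of pieces after the piece of x) +
o_piece x`. -/
def S_KEY : Prop := ∀ L : NLO, L.Good → ∀ (S : Finset ℕ) (cut : ℕ → Finset ℕ),
  (∀ a ∈ S, (cut a).card + 1 ≤ a) → ¬ Small L.exp S → ∃ S' ⊆ S, ¬ Small L S' ∧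
    ∀ a ∈ S', ∀ b ∈ S', ∀ c ∈ S', a < b → b < c → ∀ v ∈ cut a, ¬ (b ≤ v ∧ v < c)

/-- [GRD] an interval of `H` which is small, but becomes large with one more element. If all
`H '' [m, N)` are small, then `N ↦ lab (H '' [m, N))` is an infinite descending sequence (LAB).
Take the least `N` which is not small. -/
def S_GRD : Prop := ∀ L : NLO, L.Good → ∀ m : ℕ, ∃ N, m ≤ N ∧ Small L ((Finset.Ico m N).image H) ∧
  ¬ Small L ((Finset.Ico m (N + 1)).image H)

/-! ### Part 2: formulas, levels -/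

/-- [LOC] `Bd R E φ` depends only on the values of `E` at formulas of smaller size than `φ`. -/
def S_LOC : Prop := ∀ (ι : Type) (R : ι → ℕ → ℕ → ℕ → Prop) (E E' : (Σ n, Fm ι n) → ℕ) (n : ℕ)
  (φ : Fm ι n), (∀ χ : Σ n, Fm ι n, χ.2.size < φ.size → E χ = E' χ) →
    ∀ v : Fin n → ℕ, Bd R E φ v ↔ Bd R E' φ v

/-- [LEV] one level. Induction on `Φ` by `Finset.induction_on_max_value` (size of the formula):
`Φ = insert χ Φ'`; first `Φ'` (with `a + 1` for `a`), then KEY with, for `χ = ⟨n + 1, ψ⟩`,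
`cut a` = the values `least z with Bd R E ψ (z, v)` for `v : Fin n → [0, log₂ a]`, at most
`(log₂ a + 1) ^ n < a` of them, and `E χ := max S'` (`Function.update`; LOC: nothing changes for
`Φ'`). -/
def S_LEV : Prop := ∀ (ι : Type) (R : ι → ℕ → ℕ → ℕ → Prop) (Φ : Finset (Σ n, Fm ι n)) (a : ℕ)
  (S : Finset ℕ), (∀ x ∈ S, ∀ χ ∈ Φ, (Nat.log 2 x + 1) ^ χ.1 < x) →
  ¬ Small (om (a + Φ.card)) S → ∃ (E : (Σ n, Fm ι n) → ℕ) (S' : Finset ℕ), S' ⊆ S ∧
    ¬ Small (om a) S' ∧ (∀ χ ∈ Φ, ∀ b ∈ S', b ≤ E χ) ∧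
    ∀ (n : ℕ) (ψ : Fm ι (n + 1)), (⟨n + 1, ψ⟩ : Σ n, Fm ι n) ∈ Φ → ∀ a ∈ S', ∀ b ∈ S', a < b →
      ∀ v : Fin n → ℕ, (∀ l, v l ≤ Nat.log 2 a) → (∃ z < E ⟨n + 1, ψ⟩, Bd R E ψ (Fin.cons z v)) →
        ∃ z < b, Bd R E ψ (Fin.cons z v)

/-- [FRM] existence of coloured frames. `J = Finset (Σ n, Fm Sym n) × ℕ`, `U = Ultrafilter.of atTop`.
For `j = (Φ, m)`: `n = card Φ`; choose `m'` so large that `m'`, `H m' ≥ m + K n + n + 1`, `1 ≤ m'`
and `(log₂ x + 1) ^ χ.1 < x` for all `x ≥ H m'` and `χ ∈ Φ`; GRD gives `N`;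
`S j = H '' [m', N)`, `k j = K n`, `V j` from `StP`; LEV with `a = 0` for `H '' [m', N]`; OM: the
set `S'` has more than `m + 2` elements; `s i j` = the `i`-th element of `S'` (for `i < m`; anything
otherwise); it is not the last one, so it is in `S j`. -/
def S_FRM : Prop := ∀ K : ℕ → ℕ, StP K → ∃ F : CFrame, ∀ K0 : ℕ, (∀ n, K n = K0) → ∀ j, F.k j = K0

/-! ### Part 3: the model of a frame -/

/-- [TRU] the truth lemma. Step `ex`: a witness in the cut is `≤ s i < s (i + 1) ≤ E`; conversely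
all `v l ≤ s i ≤ log₂ (s (i + 1))`, `star` gives a witness below `s (i + 2)` almost everywhere:
choose it. (`rep` of `Fin.cons z v`: use `Frame.rep_el`.) -/
def S_TRU : Prop := ∀ (ι : Type) (F : Frame ι) (n : ℕ) (φ : Fm ι n) (v : Fin n → F.M),
  Sat F.RM φ v ↔ ∀ᶠ j in (F.U : Filter F.J), Bd (F.R j) (F.E j) φ fun l => F.rep (v l) j

/-- [ORD] the cut is the nonnegative part of a discretely ordered ring (instances on `Germ` and on
subsemirings). -/
def S_ORD : Prop := ∀ (ι : Type) (F : Frame ι), IsStrictOrderedRing F.M ∧ (∀ x : F.M, 0 ≤ x) ∧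
  (∀ x : F.M, 0 < x → 1 ≤ x) ∧ ∀ x y : F.M, x ≤ y → ∃ z, x + z = y

/-- [REL] the meaning of the operations in terms of representing functions -/
def S_REL : Prop := ∀ (ι : Type) (F : Frame ι) (x y z : F.M),
  (x + y = z ↔ ∀ᶠ j in (F.U : Filter F.J), F.rep x j + F.rep y j = F.rep z j) ∧
  (x * y = z ↔ ∀ᶠ j in (F.U : Filter F.J), F.rep x j * F.rep y j = F.rep z j) ∧
  (x ≤ y ↔ ∀ᶠ j in (F.U : Filter F.J), F.rep x j ≤ F.rep y j) ∧
  (x < y ↔ ∀ᶠ j in (F.U : Filter F.J), F.rep x j < F.rep y j) ∧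
  (x = y ↔ ∀ᶠ j in (F.U : Filter F.J), F.rep x j = F.rep y j)

/-- [REN] renaming of variables -/
def S_REN : Prop := ∀ (ι M : Type) (R : ι → M → M → M → Prop) (n m : ℕ) (f : Fin n → Fin m)
  (φ : Fm ι n) (v : Fin m → M), Sat R (φ.ren f) v ↔ Sat R φ fun i => v (f i)

/-- a relation on the model which is definable with parameters: every variable of `φ` is an input
variable or a parameter -/
def Rp {ι : Type} (F : Frame ι) (n : ℕ) (T : (Fin n → F.M) → Prop) : Prop :=
  ∃ (N : ℕ) (φ : Fm ι N) (σ : Fin N → Fin n ⊕ F.M), ∀ v : Fin n → F.M,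
    T v ↔ Sat F.RM φ fun l => Sum.elim v id (σ l)

/-- [RPC] closure properties of `Rp`. From REN. `and`: `Fm.ren (Fin.castAdd _)`,
`Fm.ren (Fin.natAdd _)`; `ex`: `φ' = φ.ren g`, `g l = 0` if `σ l` is the first input variable and
`l + 1` otherwise; `mem`: members of `F.SS`; last: a set with `Rp 1` is in `F.SS` (parameters
first: `σ` maps `Fin N` to `Fin 1 ⊕ M`; use `φ.ren`). -/
def S_RPC : Prop := ∀ (ι : Type) (F : Frame ι),
  (∀ (n : ℕ) (i : ι) (a b c : Fin n ⊕ F.M),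
    Rp F n fun v => F.RM i (Sum.elim v id a) (Sum.elim v id b) (Sum.elim v id c)) ∧
  (∀ (n : ℕ) (T : (Fin n → F.M) → Prop), Rp F n T → Rp F n fun v => ¬ T v) ∧
  (∀ (n : ℕ) (T T' : (Fin n → F.M) → Prop), Rp F n T → Rp F n T' → Rp F n fun v => T v ∧ T' v) ∧
  (∀ (n : ℕ) (T : (Fin (n + 1) → F.M) → Prop), Rp F (n + 1) T →
    Rp F n fun v => ∃ x, T (Fin.cons x v)) ∧
  (∀ (n : ℕ) (a : Fin n) (X : Set F.M), X ∈ F.SS → Rp F n fun v => v a ∈ X) ∧
  ∀ T : (Fin 1 → F.M) → Prop, Rp F 1 T → {x | T fun _ => x} ∈ F.SS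

/-- the model of a coloured frame -/
abbrev CFrame.M (F : CFrame) : Type := F.toFrame.M

/-- [CMP] arithmetical comprehension. From RPC and REL: induction on `Arith`; `v a + v b = v c` is
`F.RM .add`, by `hR` and REL; `v a = x` is `v a ≤ x ∧ x ≤ v a`. -/
def S_CMP : Prop := ∀ (F : CFrame) (n : ℕ) (T : (Fin n → F.M) → Prop),
  Arith F.toFrame.SS n T → Rp F.toFrame n T

/-- [LST] least elements. From TRU and REL: `X = {x | Sat φ (x, p)}`, `x0 ∈ X`; `y j` = least `y`
with `Bd φ (y, p j)`, below `x0 j`. -/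
def S_LST : Prop := ∀ (ι : Type) (F : Frame ι), ∀ X ∈ F.SS, X.Nonempty → ∃ x ∈ X, ∀ y ∈ X, x ≤ y

/-- [MOD] the model of a coloured frame is a model of `ACA_0` (from ORD, CMP, RPC, LST) -/
def S_MOD : Prop := ∀ F : CFrame, IsModelACA F.M F.toFrame.SS

/-- [IND] induction in a model of `ACA_0`: a member of `SS` which contains `0` and is closed under
successor is everything (least element of the complement; the complement is in `SS` by
comprehension). -/
def S_IND : Prop := ∀ (M : Type) [CommSemiring M] [LinearOrder M] (SS : Set (Set M)),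
  IsModelACA M SS → ∀ X ∈ SS, 0 ∈ X → (∀ x ∈ X, x + 1 ∈ X) → ∀ x, x ∈ X

/-- [PRI] the pairing function is injective in a model -/
def S_PRI : Prop := ∀ (M : Type) [CommSemiring M] [LinearOrder M] (SS : Set (Set M)),
  IsModelACA M SS → ∀ a b a' b' : M, pr a b = pr a' b' → a = a' ∧ b = b'

/-- [SGU] uniqueness of sum graphs. From IND: `{k | ∀ n, pr k n ∈ G ↔ pr k n ∈ G'}` is arithmetical
in `SS`. -/
def S_SGU : Prop := ∀ (M : Type) [CommSemiring M] [LinearOrder M] (SS : Set (Set M)),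
  IsModelACA M SS → ∀ X G G' : Set M, G ∈ SS → G' ∈ SS → IsSumGraph X G → IsSumGraph X G' →
    ∀ k n, pr k n ∈ G ↔ pr k n ∈ G'

/-! ### Part 4: finite combinatorics -/

/-- [BS] binary supports. `Finset.equivBitIndices`, `Nat.twoPowSum_toFinset_bitIndices`,
`Nat.toFinset_bitIndices_twoPowSum` (or similar names). -/
def S_BS : Prop :=
  (∀ u, ∑ x ∈ bs u, 2 ^ x = u) ∧ (∀ s : Finset ℕ, bs (∑ x ∈ s, 2 ^ x) = s) ∧
  (∀ u, ∀ x ∈ bs u, x < u) ∧ (∀ u, sm u ≤ u) ∧ (∀ s : Finset ℕ, sm (∑ x ∈ s, 2 ^ x) = ∑ x ∈ s, x) ∧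
  (∀ u v, bs u ⊆ bs v → u ≤ v) ∧ (∀ k u, 2 ^ k ∣ u → ∀ x ∈ bs u, k ≤ x) ∧
  ∀ u v, (∀ x ∈ bs u, ∀ y ∈ bs v, x < y) → bs (u + v) = bs u ∪ bs v

/-- [FL] the floor in `H` -/
def S_FL : Prop :=
  StrictMono H ∧ (∀ x, fl x ≤ x) ∧ Monotone fl ∧ (∀ x, fl x ∈ Set.range H) ∧ (∀ i, fl (H i) = H i) ∧
  ∀ i, i ≤ H i

/-- [PIG] among `2 ^ k` positive numbers some nonempty subset has a sum divisible by `2 ^ k`
(partial sums; `Finset.exists_ne_map_eq_of_card_lt_of_maps_to`). -/
def S_PIG : Prop := ∀ (A : Finset ℕ) (k : ℕ), 2 ^ k ≤ A.card → ∃ B ⊆ A, B.Nonempty ∧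
  2 ^ k ∣ ∑ x ∈ B, x

/-- [BST] one more block. From BS, FL, PIG: `F (r + 1)` = a subset of `bs u'` with sum divisible by
`2 ^ k`; `k` is in the range of `H` and `u + v < k`, so all earlier sums are `≤ u + v < k` (BS:
`sm u ≤ u`) and their `pb` is below `k`; the new `pb` is `≥ k`. `bs (u + u') = bs u ∪ bs u'`. -/
def S_BST : Prop := ∀ (u v r u' i : ℕ), Blk u v r → u + v < H i → 2 ^ H i ≤ (bs u').card →
  (∀ x ∈ bs u', u + v < x) → Blk (u + u') v (r + 1)

/-- [BHM] a half match from blocks. `t = pb (sm v)`, `w i = pb (sum of F (i + 1))`, `r` blocks,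
`ack x x < r` for `x ∈ t` because `x ≤ sm v` (`ack_le_ack`). For every nonempty set `E` of blocks the number
`u' = ∑ x ∈ bs v ∪ ⋃ F, 2 ^ x` has `sm u' = sm v + sums`, `pb (sm u') = t ∪ ⋃ w` (BS: the supports
are increasing because their images under `fl` are), `bs v ⊆ bs u' ⊆ bs u ∪ bs v`, `u' ≤ u + v`.
Everything is in `S` = the part of the range of `H` from `H a` to below `H b`. -/
def S_BHM : Prop := ∀ (V : Finset ℕ → ℕ) (a b u v r : ℕ), 1 ≤ a → v ≠ 0 → (∀ x ∈ bs v, 0 < x) →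
  Blk u v r → ack (sm v) (sm v) < r → 2 ^ H a ∣ sm v → u + v < H b →
  (∀ u', u' ≤ u + v → u' ≠ 0 → bs u' ⊆ bs u ∪ bs v → V (pb (sm u')) = V (pb (sm v))) →
  HalfMatch V ((Finset.Ico a b).image H)

/-! ### Part 5: Hindman's theorem in the model -/

/-- the members of the binary support of `u` (in the sense of the model) are in `X` -/
def CFrame.In (F : CFrame) (u : F.M) (X : Set F.M) : Prop :=
  ∀ x : F.M, F.toFrame.RM .bit u x x → x ∈ X

/-- [GEN] definability for the inductions. From RPC: `∃ u, RM i u p r ∧ ¬ ∃ x, RM bit u x x ∧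
¬ x ∈ X`. -/
def S_GEN : Prop := ∀ (F : CFrame) (X : Set F.M) (i : Sym) (p : F.M), X ∈ F.toFrame.SS →
  {r : F.M | ∃ u : F.M, F.toFrame.RM i u p r ∧ F.In u X} ∈ F.toFrame.SS

/-- [CARD] every unbounded `X` in `SS` has, above every bound, finite subsets with at least `r`
elements, for every `r` in the model. Induction (IND, MOD, GEN with `card`) on `r`: `u + 2 ^ x`,
`x ∈ X` larger than `u` and `b` (`low_pow`, `low_add`). -/
def S_CARD : Prop := ∀ (F : CFrame) (X : Set F.M) (b r : F.M), X ∈ F.toFrame.SS →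
  (∀ b, ∃ x ∈ X, b < x) → ∃ u : F.M, F.toFrame.RM .card u b r ∧ F.In u X

/-- [SEQ] blocks. Induction (IND, MOD, GEN with `blk`) on `r`. Start: `u = 0`. Step: given `u`,
choose a cut point `k = s i > u + v` (an element of the range of `H` by `hS`, `hSH`); CARD with
`b = u + v`, `r = 2 ^ k` gives `u'`; BST at almost every `j`. -/
def S_SEQ : Prop := ∀ (F : CFrame) (X : Set F.M) (v r : F.M), X ∈ F.toFrame.SS →
  (∀ b, ∃ x ∈ X, b < x) → ∃ u : F.M, F.toFrame.RM .blk u v r ∧ F.In u X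

/-- [DIV] a nonempty finite subset of `X` with a sum divisible by `2 ^ k`, `k` a cut point. CARD
with `r = 2 ^ k`, PIG at almost every `j` (the code of a subset is smaller, BS). -/
def S_DIV : Prop := ∀ (F : CFrame) (X : Set F.M) (k : F.M), X ∈ F.toFrame.SS →
  (∀ b, ∃ x ∈ X, b < x) → ∃ v : F.M, F.In v X ∧
    ∀ᶠ j in (F.U : Filter F.J), F.rep v j ≠ 0 ∧ 2 ^ F.rep k j ∣ sm (F.rep v j)

/-- [SG] every `X` in `SS` has a sum graph in `SS`, and the sum of every finite subset of `X` is in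
it: `G = {g | ∃ k n u, g = pr k n ∧ (∀ x, bit u x → x ∈ X ∧ x < k) ∧ sumof u n}` (RPC, PRI, TRU not
needed). Step `k + 1`: remove or add the binary digit `k` (at almost every `j`). -/
def S_SG : Prop := ∀ (F : CFrame) (X : Set F.M), X ∈ F.toFrame.SS → ∃ G ∈ F.toFrame.SS,
  IsSumGraph X G ∧ ∀ u n : F.M, F.In u X → F.toFrame.RM .sumof u n n →
    ∃ k, pr k n ∈ G

/-- the colouring of the model -/
noncomputable def CFrame.c (F : CFrame) (x : F.M) : F.M :=
  F.toFrame.el (fun j => min (F.V j (pb (F.rep x j))) (F.s 0 j))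
    (F.toFrame.low_le (F.toFrame.low_s 0) (Eventually.of_forall fun _ => min_le_right _ _))

/-- [COL] the colouring is in the model: `{x | ∃ n, x = pr n (c n)} ∈ SS` (RPC, symbol `col`:
`c n = y ↔ RM col n y y` by `hk`, `hks`, REL), with `k` colours. -/
def S_COL : Prop := ∀ F : CFrame,
  (∀ x y : F.M, F.c x = y ↔ F.toFrame.RM .col x y y) ∧
  ∃ k : F.M, IsCol F.toFrame.SS k F.c ∧ (∀ᶠ j in (F.U : Filter F.J), F.rep k j = F.k j)

/-- [FAIL] no solution. Given a solution `X`, `G`, `i`: by SG and SGU `c (sm u) = i` for all `u ≠ 0`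
with `In u X`. DIV with `k = s 0`: `v`. SEQ with
`r = ack (sm v) (sm v) + 1` (`low_ack`): `u`. At almost every `j`: `hV`, BHM
(`H a ≤ s 0 j`; `H b > u + v` because `u + v ≤ s i` and `s i j ∈ S j`) give `u' j ≤ u j + v j`, not
`0`, `bs u' ⊆ bs u ∪ bs v`, with a different colour: its germ contradicts homogeneity. -/
def S_FAIL : Prop := ∀ (F : CFrame) (X : Set F.M), ¬ IsSol F.toFrame.SS F.c X

end Pool.Agent.Work.MP_69fea5_lc.MT
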