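import Pool.Agent.Work.MP_69fea5_lc.MT.GT

/-!
Block [69fea5 MT]: THE TRUTH LEMMA on the cut of the ultrapower.
-/

set_option autoImplicit false

namespace Pool.Agent.Work.MP_69fea5_lc.MT.GT

open Finset Function Filter

/-- the data at all levels -/
structure Dat where
  /-- the ultrafilter -/
  U : Ultrafilter ℕ
  hU : (U : Filter ℕ) ≤ atTop
  /-- the atoms: `R n i` is atom `i` at level `n` -/
  R : ℕ → ℕ → Set (ℕ → ℕ)
  dep : ∀ n i, Dep i (R n i)
  /-- the large sets -/
  S : ℕ → Finset ℕ
  big : ∀ n, ∀ a ∈ S n, n + 1 ≤ a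
  sparse : ∀ n, ∀ a ∈ S n, ∀ b ∈ S n, a < b → (a + 1) ^ n + 1 ≤ b
  large : ∀ n, ¬ Small (om n) (S n)

namespace Dat

variable (D : Dat)

theorem ex_lev (n : ℕ) : ∃ FA : Finset ℕ × (ℕ → Set (ℕ → ℕ)),
    Lev n n (D.R n) (D.S n) FA.1 FA.2 ∧ ¬ Small (om 0) FA.1 := by
  obtain ⟨F, A, h⟩ := exists_lev n (D.dep n) (fun a ha => le_trans (by omega) (D.big n a ha))
    (D.large n)
  exact ⟨⟨F, A⟩, h⟩

/-- the subset of `S n` -/
noncomputable def F (n : ℕ) : Finset ℕ := (D.ex_lev n).choose.1

/-- the relation of formula `j` at level `n` -/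
noncomputable def A (n j : ℕ) : Set (ℕ → ℕ) := (D.ex_lev n).choose.2 j

theorem lev (n : ℕ) : Lev n n (D.R n) (D.S n) (D.F n) (D.A n) := (D.ex_lev n).choose_spec.1

theorem F_large (n : ℕ) : ¬ Small (om 0) (D.F n) := (D.ex_lev n).choose_spec.2

theorem card_F (n : ℕ) : n + 3 ≤ (D.F n).card :=
  card_of_large (D.F_large n) fun a ha => D.big n a ((D.lev n).sub ha)

/-- the `i`-th element of `F n` -/
noncomputable def s (i n : ℕ) : ℕ := Nat.nth (· ∈ D.F n) i

theorem fin (n : ℕ) : (Set.ofPred (· ∈ D.F n)).Finite := (D.F n).finite_toSet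

theorem card_fin (n : ℕ) : (D.fin n).toFinset.card = (D.F n).card := by
  congr 1
  ext x
  simp

theorem s_mem {i n : ℕ} (h : i ≤ n + 2) : D.s i n ∈ D.F n :=
  Nat.nth_mem_of_lt_card (D.fin n) (by rw [card_fin]; have := D.card_F n; omega)

theorem s_memS {i n : ℕ} (h : i ≤ n + 2) : D.s i n ∈ D.S n := (D.lev n).sub (D.s_mem h)

theorem s_lt {i j n : ℕ} (hij : i < j) (h : j ≤ n + 2) : D.s i n < D.s j n :=
  Nat.nth_lt_nth_of_lt_card (D.fin n) hij (by rw [card_fin]; have := D.card_F n; omega)

theorem s_le {i j n : ℕ} (hij : i ≤ j) (h : j ≤ n + 2) : D.s i n ≤ D.s j n := by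
  rcases Nat.eq_or_lt_of_le hij with h1 | h1
  · rw [h1]
  · exact (D.s_lt h1 h).le

theorem ev_ge (m : ℕ) : ∀ᶠ n in (D.U : Filter ℕ), m ≤ n := D.hU (eventually_ge_atTop m)

/-- the representatives of the elements of the cut -/
def Hat : Type := {g : ℕ → ℕ // ∃ i, ∀ᶠ n in (D.U : Filter ℕ), g n ≤ D.s i n}

/-- finitely many elements of the cut have a common bound -/
theorem common (e : ℕ → D.Hat) (j : ℕ) :
    ∃ i, ∀ᶠ n in (D.U : Filter ℕ), ∀ k ≤ j, (e k).1 n ≤ D.s i n := by
  induction j with
  | zero =>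
    obtain ⟨i, hi⟩ := (e 0).2
    refine ⟨i, hi.mono fun n hn k hk => ?_⟩
    rw [Nat.le_zero.1 hk]
    exact hn
  | succ j ih =>
    obtain ⟨i, hi⟩ := ih
    obtain ⟨i', hi'⟩ := (e (j + 1)).2
    refine ⟨max i i', ?_⟩
    filter_upwards [hi, hi', D.ev_ge (max i i')] with n h1 h2 h3 k hk
    rcases Nat.lt_or_ge k (j + 1) with h | h
    · exact le_trans (h1 k (by omega)) (D.s_le (le_max_left _ _) (by omega))
    · have : k = j + 1 := by omega
      rw [this]
      exact le_trans h2 (D.s_le (le_max_right _ _) (by omega))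

/-- THE TRUTH LEMMA -/
theorem truth {M : Type} (cl : D.Hat → M) (hcl : Surjective cl) (At : ℕ → (ℕ → M) → Prop)
    (hAt : ∀ i (e : ℕ → D.Hat), At i (fun k => cl (e k)) ↔
      ∀ᶠ n in (D.U : Filter ℕ), (fun k => (e k).1 n) ∈ D.R n i) :
    ∀ j (e : ℕ → D.Hat), Sat At j (fun k => cl (e k)) ↔
      ∀ᶠ n in (D.U : Filter ℕ), (fun k => (e k).1 n) ∈ D.A n j := by
  intro j
  induction j using Nat.strong_induction_on with
  | _ j ih =>
    intro e
    cases hj : node j with
    | atom i =>
      rw [sat_atom At hj, hAt]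
      apply eventually_congr
      filter_upwards [D.ev_ge (j + 1)] with n hn
      rw [(D.lev n).atom j (by omega) i hj]
    | bot =>
      refine iff_of_false (sat_bot At hj _) ?_
      intro h
      have h2 : ∀ᶠ n in (D.U : Filter ℕ), False := by
        filter_upwards [h, D.ev_ge (j + 1)] with n h1 hn
        rw [(D.lev n).bot j (by omega) hj] at h1
        exact h1
      simp only [eventually_false_iff_eq_bot] at h2
      exact D.U.neBot.ne h2
    | imp a b =>
      have hab := node_imp_lt hj
      rw [sat_imp At hj, ih a hab.1, ih b hab.2, ← Ultrafilter.eventually_imp]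
      apply eventually_congr
      filter_upwards [D.ev_ge (j + 1)] with n hn
      rw [(D.lev n).imp j (by omega) a b hj]
      rfl
    | ex x a =>
      have ha := node_ex_lt hj
      rw [sat_ex At hj]
      have hup : ∀ g : D.Hat, (fun k => cl (update e x g k)) =
          update (fun k => cl (e k)) x (cl g) := by
        intro g
        funext k
        by_cases hk : k = x
        · subst hk; simp
        · rw [update_of_ne hk, update_of_ne hk]
      have hup2 : ∀ (g : D.Hat) (n : ℕ), (fun k => (update e x g k).1 n) =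
          update (fun k => (e k).1 n) x (g.1 n) := by
        intro g n
        funext k
        by_cases hk : k = x
        · subst hk; simp
        · rw [update_of_ne hk, update_of_ne hk]
      constructor
      · rintro ⟨m, hm⟩
        obtain ⟨g, rfl⟩ := hcl m
        rw [← hup, ih a ha.2] at hm
        obtain ⟨i, hi⟩ := g.2
        filter_upwards [hm, hi, D.ev_ge (max (j + 1) i)] with n h1 h2 h3
        rw [hup2] at h1
        exact (D.lev n).ex1 j (by omega) x a hj _ _ (D.s (i + 1) n) (D.s_mem (by omega))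
          (lt_of_le_of_lt h2 (D.s_lt (by omega) (by omega))) h1
      · intro h
        obtain ⟨i, hi⟩ := D.common e j
        have hex : ∀ᶠ n in (D.U : Filter ℕ), ∃ y < D.s (i + 2) n,
            update (fun k => (e k).1 n) x y ∈ D.A n a := by
          filter_upwards [h, hi, D.ev_ge (max (j + 1) i)] with n h1 h2 h3
          refine (D.lev n).ex2 j (by omega) x a hj _ h1 (D.s (i + 1) n) (D.s_mem (by omega))
            (D.s (i + 2) n) (D.s_mem (by omega)) (D.s_lt (by omega) (by omega)) ?_
          intro k hk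
          have h4 := h2 k hk
          have h5 : ((e k).1 n + 1) ^ n ≤ (D.s i n + 1) ^ n := Nat.pow_le_pow_left (by omega) n
          have h6 := D.sparse n _ (D.s_memS (i := i) (by omega)) _
            (D.s_memS (i := i + 1) (by omega)) (D.s_lt (by omega) (by omega))
          omega
        classical
        let g : ℕ → ℕ := fun n => if h : ∃ y < D.s (i + 2) n,
            update (fun k => (e k).1 n) x y ∈ D.A n a then h.choose else 0
        have hg : ∀ᶠ n in (D.U : Filter ℕ), g n < D.s (i + 2) n ∧
            update (fun k => (e k).1 n) x (g n) ∈ D.A n a := by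
          filter_upwards [hex] with n hn
          simp only [g]
          rw [dif_pos hn]
          exact hn.choose_spec
        refine ⟨cl ⟨g, i + 2, hg.mono fun n hn => hn.1.le⟩, ?_⟩
        rw [← hup, ih a ha.2]
        filter_upwards [hg] with n hn
        rw [hup2]
        exact hn.2

end Dat

end Pool.Agent.Work.MP_69fea5_lc.MT.GT
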